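import Mathlib

/-!
# A contractible affine surface of log-general type: definitions

The surface is `a b - c ^ 2 d ^ 3 = 1`, `a c - b d = 1` in `ℂ⁴`.
-/

set_option autoImplicit false

namespace Pool.Agent.H90.CS

open MvPolynomial in
/-- The first equation `a b - c ^ 2 d ^ 3 = 1`, in the variables `(a, b, c, d)`. -/
noncomputable def eqOne : MvPolynomial (Fin 4) ℂ := X 0 * X 1 - X 2 ^ 2 * X 3 ^ 3 - 1

open MvPolynomial in
/-- The second equation `a c - b d = 1`. -/
noncomputable def eqTwo : MvPolynomial (Fin 4) ℂ := X 0 * X 2 - X 1 * X 3 - 1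

/-- The coordinate ring of the affine surface `eqOne = eqTwo = 0` in `ℂ⁴`. -/
abbrev SurfRing : Type := MvPolynomial (Fin 4) ℂ ⧸ Ideal.span {eqOne, eqTwo}

/-- The complex points of the affine surface `eqOne = eqTwo = 0` in `ℂ⁴`. -/
def SurfSet : Set (Fin 4 → ℂ) :=
  {x | MvPolynomial.eval x eqOne = 0 ∧ MvPolynomial.eval x eqTwo = 0}

/-- The surface is smooth: at each of its points the gradients of the two equations are linearly
independent. -/
def IsSmoothSurface : Prop :=
  ∀ x ∈ SurfSet, LinearIndependent ℂ
    ![fun i : Fin 4 => MvPolynomial.eval x (MvPolynomial.pderiv i eqOne),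
      fun i : Fin 4 => MvPolynomial.eval x (MvPolynomial.pderiv i eqTwo)]

/-- `B` is the coordinate ring of an irreducible affine curve over `ℂ` whose normalization is a
smooth projective curve with exactly one point removed: `B` has transcendence degree one over
`ℂ`, and exactly one valuation ring of its field of fractions which contains `ℂ` does not
contain `B`. -/
def OncePunctured (B : Type) [CommRing B] [IsDomain B] [Algebra ℂ B] : Prop :=
  Algebra.trdeg ℂ B = 1 ∧
    ∃! O : ValuationSubring (FractionRing B),
      (∀ c : ℂ, algebraMap ℂ (FractionRing B) c ∈ O) ∧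
        ∃ b : B, algebraMap B (FractionRing B) b ∉ O

section LogForms

variable {K : Type} [Field K] [Algebra ℂ K]

/-- The value of the `2`-form `df ∧ dg` on `D 0 ∧ D 1`. -/
def jac (D : Fin 2 → Derivation ℂ K K) (f g : K) : K := D 0 f * D 1 g - D 1 f * D 0 g

/-- The values on `D 0 ∧ D 1` of the `2`-forms with at most logarithmic poles along the valuation
ring `O`: the `O`-module spanned by the forms `df / f ∧ dg / g`. -/
def logLattice (D : Fin 2 → Derivation ℂ K K) (O : ValuationSubring K) : Submodule O K :=
  Submodule.span O {z | ∃ f g : K, f ≠ 0 ∧ g ≠ 0 ∧ z = jac D f g / (f * g)}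

/-- The values on `D 0 ∧ D 1` of the `2`-forms which are regular along the valuation ring `O`: the
`O`-module spanned by the forms `df ∧ dg` with `f` and `g` in `O`. -/
def regLattice (D : Fin 2 → Derivation ℂ K K) (O : ValuationSubring K) : Submodule O K :=
  Submodule.span O {z | ∃ f g : K, f ∈ O ∧ g ∈ O ∧ z = jac D f g}

/-- `h` is the value on `(D 0 ∧ D 1) ^ m` of an `m`-canonical form on the affine surface with
coordinate ring `R` and field of functions `K` which is regular on the surface and has at most
logarithmic poles at infinity. -/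
def IsLogPluriform (R : Type) [CommRing R] [Algebra R K] (D : Fin 2 → Derivation ℂ K K) (m : ℕ)
    (h : K) : Prop :=
  ∀ O : ValuationSubring K, (∀ c : ℂ, algebraMap ℂ K c ∈ O) →
    h ∈ logLattice D O ^ m ∧ ((∀ r : R, algebraMap R K r ∈ O) → h ∈ regLattice D O ^ m)

end LogForms

/-- The smooth affine surface with coordinate ring `R` has logarithmic Kodaira dimension `2`: for
some `m > 0` there are three `m`-canonical forms, regular on the surface and with at most
logarithmic poles at infinity, whose ratios are algebraically independent functions. -/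
def LogGeneralType (R : Type) [CommRing R] [IsDomain R] [Algebra ℂ R] : Prop :=
  ∃ D : Fin 2 → Derivation ℂ (FractionRing R) (FractionRing R),
    LinearIndependent (FractionRing R) D ∧
    ∃ (m : ℕ) (h : Fin 3 → FractionRing R), 0 < m ∧ (∀ i, IsLogPluriform R D m (h i)) ∧
      h 0 ≠ 0 ∧ AlgebraicIndependent ℂ ![h 1 / h 0, h 2 / h 0]

end Pool.Agent.H90.CS
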