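import Mathlib
import Pool.Agent.H90.CS.Defs

/-!
# The coordinate ring of the surface `a b - c ^ 2 d ^ 3 = 1`, `a c - b d = 1`

It is an integral domain of transcendence degree two, `x = a b` and `y = a c` are algebraically
independent, and the partial derivatives with respect to `x` and `y` exist on its field of
functions.
-/

set_option autoImplicit false

namespace Pool.Agent.H90.CS

/-- The class of `a`. -/
noncomputable def ra : SurfRing := Ideal.Quotient.mk _ (MvPolynomial.X 0)

/-- The class of `b`. -/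
noncomputable def rb : SurfRing := Ideal.Quotient.mk _ (MvPolynomial.X 1)

/-- The class of `c`. -/
noncomputable def rc : SurfRing := Ideal.Quotient.mk _ (MvPolynomial.X 2)

/-- The class of `d`. -/
noncomputable def rd : SurfRing := Ideal.Quotient.mk _ (MvPolynomial.X 3)

lemma mk_eqOne (I : Ideal (MvPolynomial (Fin 4) ℂ)) : Ideal.Quotient.mk I eqOne
    = Ideal.Quotient.mk I (MvPolynomial.X 0) * Ideal.Quotient.mk I (MvPolynomial.X 1)
      - Ideal.Quotient.mk I (MvPolynomial.X 2) ^ 2 * Ideal.Quotient.mk I (MvPolynomial.X 3) ^ 3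
      - 1 := by
  simp [eqOne]

lemma mk_eqTwo (I : Ideal (MvPolynomial (Fin 4) ℂ)) : Ideal.Quotient.mk I eqTwo
    = Ideal.Quotient.mk I (MvPolynomial.X 0) * Ideal.Quotient.mk I (MvPolynomial.X 2)
      - Ideal.Quotient.mk I (MvPolynomial.X 1) * Ideal.Quotient.mk I (MvPolynomial.X 3)
      - 1 := by
  simp [eqTwo]

theorem rel_one : ra * rb - rc ^ 2 * rd ^ 3 = 1 := by
  have h : (Ideal.Quotient.mk (Ideal.span {eqOne, eqTwo})) eqOne = 0 :=
    Ideal.Quotient.eq_zero_iff_mem.mpr (Ideal.subset_span (by simp))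
  rw [mk_eqOne] at h
  exact sub_eq_zero.mp h

theorem rel_two : ra * rc - rb * rd = 1 := by
  have h : (Ideal.Quotient.mk (Ideal.span {eqOne, eqTwo})) eqTwo = 0 :=
    Ideal.Quotient.eq_zero_iff_mem.mpr (Ideal.subset_span (by simp))
  rw [mk_eqTwo] at h
  exact sub_eq_zero.mp h

section lift

variable {B : Type*} [CommRing B] [Algebra ℂ B]

/-- Homomorphisms from the coordinate ring. -/
noncomputable def liftS (v : Fin 4 → B) (h1 : v 0 * v 1 - v 2 ^ 2 * v 3 ^ 3 = 1)
    (h2 : v 0 * v 2 - v 1 * v 3 = 1) : SurfRing →ₐ[ℂ] B :=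
  Ideal.Quotient.liftₐ _ (MvPolynomial.aeval v) (by
    intro p hp
    have h : Ideal.span {eqOne, eqTwo} ≤ RingHom.ker (MvPolynomial.aeval v : _ →ₐ[ℂ] B) := by
      rw [Ideal.span_le]
      intro q hq
      rcases hq with rfl | hq
      · rw [SetLike.mem_coe, RingHom.mem_ker]
        simp [eqOne, h1]
      · rw [Set.mem_singleton_iff] at hq
        subst hq
        rw [SetLike.mem_coe, RingHom.mem_ker]
        simp [eqTwo, h2]
    exact h hp)

variable (v : Fin 4 → B) (h1 : v 0 * v 1 - v 2 ^ 2 * v 3 ^ 3 = 1) (h2 : v 0 * v 2 - v 1 * v 3 = 1)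

lemma liftS_mk (p : MvPolynomial (Fin 4) ℂ) :
    liftS v h1 h2 (Ideal.Quotient.mk _ p) = MvPolynomial.aeval v p := rfl

lemma liftS_ra : liftS v h1 h2 ra = v 0 := by
  unfold ra; rw [liftS_mk, MvPolynomial.aeval_X]

lemma liftS_rb : liftS v h1 h2 rb = v 1 := by
  unfold rb; rw [liftS_mk, MvPolynomial.aeval_X]

lemma liftS_rc : liftS v h1 h2 rc = v 2 := by
  unfold rc; rw [liftS_mk, MvPolynomial.aeval_X]

lemma liftS_rd : liftS v h1 h2 rd = v 3 := by
  unfold rd; rw [liftS_mk, MvPolynomial.aeval_X]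

end lift

/-! ### The two charts -/

/-- Elements of the coordinate ring become polynomials in two functions after multiplication by a
power of `m`. -/
lemma chart (m : SurfRing) (z : Fin 2 → SurfRing) (hm : ∃ P : MvPolynomial (Fin 2) ℂ, m = MvPolynomial.aeval z P)
    (ha : ∃ (N : ℕ) (P : MvPolynomial (Fin 2) ℂ), m ^ N * ra = MvPolynomial.aeval z P)
    (hb : ∃ (N : ℕ) (P : MvPolynomial (Fin 2) ℂ), m ^ N * rb = MvPolynomial.aeval z P)
    (hc : ∃ (N : ℕ) (P : MvPolynomial (Fin 2) ℂ), m ^ N * rc = MvPolynomial.aeval z P)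
    (hd : ∃ (N : ℕ) (P : MvPolynomial (Fin 2) ℂ), m ^ N * rd = MvPolynomial.aeval z P)
    (f : SurfRing) :
    ∃ (N : ℕ) (P : MvPolynomial (Fin 2) ℂ), m ^ N * f = MvPolynomial.aeval z P := by
  obtain ⟨Pm, hPm⟩ := hm
  obtain ⟨p, rfl⟩ := Ideal.Quotient.mk_surjective f
  have hX : ∀ i : Fin 4, ∃ (N : ℕ) (P : MvPolynomial (Fin 2) ℂ),
      m ^ N * (Ideal.Quotient.mk (Ideal.span {eqOne, eqTwo}) (MvPolynomial.X i))
        = MvPolynomial.aeval z P := by
    intro i
    fin_cases i
    · exact ha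
    · exact hb
    · exact hc
    · exact hd
  induction p using MvPolynomial.induction_on with
  | C c =>
    refine ⟨0, MvPolynomial.C c, ?_⟩
    rw [pow_zero, one_mul, MvPolynomial.aeval_C]
    rfl
  | add p q hp hq =>
    obtain ⟨N, P, h⟩ := hp
    obtain ⟨M, Q, h'⟩ := hq
    refine ⟨N + M, Pm ^ M * P + Pm ^ N * Q, ?_⟩
    rw [map_add, map_add, map_mul, map_mul, map_pow, map_pow, ← hPm, ← h, ← h']
    ring
  | mul_X p i hp =>
    obtain ⟨N, P, h⟩ := hp
    obtain ⟨M, Q, h'⟩ := hX i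
    refine ⟨N + M, P * Q, ?_⟩
    rw [map_mul, map_mul, ← h, ← h']
    ring

lemma w_zero : (ra * rc) ^ 2 - ra * rc - rc * rd = rc ^ 3 * rd ^ 4 := by
  linear_combination (rc * rd) * rel_one + (ra * rc) * rel_two

lemma w_one : ra ^ 2 * rb ^ 3 + (ra * rc) ^ 2 * (ra * rc - 1) ^ 3 = ra ^ 3 * rb ^ 4 := by
  have h : ra * rc - 1 = rb * rd := by linear_combination rel_two
  rw [h]
  linear_combination (-(ra ^ 2 * rb ^ 3)) * rel_one

lemma chart_zero (f : SurfRing) : ∃ (N : ℕ) (P : MvPolynomial (Fin 2) ℂ),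
    (rc ^ 4 * rd ^ 5) ^ N * f = MvPolynomial.aeval ![rc * rd, ra * rc] P := by
  have hX0 : MvPolynomial.aeval (R := ℂ) ![rc * rd, ra * rc] (MvPolynomial.X 0) = rc * rd := by
    simp
  have hX1 : MvPolynomial.aeval (R := ℂ) ![rc * rd, ra * rc] (MvPolynomial.X 1) = ra * rc := by
    simp
  have hw := w_zero
  have hbd : ra * rc - 1 = rb * rd := by linear_combination rel_two
  refine chart _ _ ⟨MvPolynomial.X 0 * (MvPolynomial.X 1 ^ 2 - MvPolynomial.X 1
    - MvPolynomial.X 0), ?_⟩ ⟨4, MvPolynomial.X 1 * (MvPolynomial.X 1 ^ 2 - MvPolynomial.X 1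
    - MvPolynomial.X 0) ^ 5, ?_⟩ ⟨1, MvPolynomial.X 0 ^ 4 * (MvPolynomial.X 1 - 1), ?_⟩
    ⟨1, MvPolynomial.X 0 ^ 5, ?_⟩ ⟨3, (MvPolynomial.X 1 ^ 2 - MvPolynomial.X 1
    - MvPolynomial.X 0) ^ 4, ?_⟩ f
  · simp only [map_mul, map_sub, map_pow, hX0, hX1, hw]; ring
  · simp only [map_mul, map_sub, map_pow, hX0, hX1, hw]; ring
  · simp only [map_mul, map_sub, map_pow, map_one, hX0, hX1, hbd]; ring
  · simp only [map_pow, hX0]; ring
  · simp only [map_sub, map_pow, hX0, hX1, hw]; ring

lemma chart_one (f : SurfRing) : ∃ (N : ℕ) (P : MvPolynomial (Fin 2) ℂ),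
    (ra ^ 5 * rb ^ 7) ^ N * f = MvPolynomial.aeval ![ra ^ 2 * rb ^ 3, ra * rc] P := by
  have hX0 : MvPolynomial.aeval (R := ℂ) ![ra ^ 2 * rb ^ 3, ra * rc] (MvPolynomial.X 0)
      = ra ^ 2 * rb ^ 3 := by simp
  have hX1 : MvPolynomial.aeval (R := ℂ) ![ra ^ 2 * rb ^ 3, ra * rc] (MvPolynomial.X 1)
      = ra * rc := by simp
  have hw := w_one
  have hbd : ra * rc - 1 = rb * rd := by linear_combination rel_two
  refine chart _ _ ⟨MvPolynomial.X 0 * (MvPolynomial.X 0
    + MvPolynomial.X 1 ^ 2 * (MvPolynomial.X 1 - 1) ^ 3), ?_⟩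
    ⟨4, (MvPolynomial.X 0 + MvPolynomial.X 1 ^ 2 * (MvPolynomial.X 1 - 1) ^ 3) ^ 7, ?_⟩
    ⟨2, MvPolynomial.X 0 ^ 5, ?_⟩
    ⟨3, MvPolynomial.X 1 * MvPolynomial.X 0 ^ 7, ?_⟩
    ⟨3, (MvPolynomial.X 0 + MvPolynomial.X 1 ^ 2 * (MvPolynomial.X 1 - 1) ^ 3) ^ 5
      * (MvPolynomial.X 1 - 1), ?_⟩ f
  · simp only [map_mul, map_sub, map_add, map_pow, map_one, hX0, hX1, hw]; ring
  · simp only [map_mul, map_sub, map_add, map_pow, map_one, hX0, hX1, hw]; ring
  · simp only [map_pow, hX0]; ring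
  · simp only [map_mul, map_pow, hX0, hX1]; ring
  · simp only [map_mul, map_sub, map_add, map_pow, map_one, hX0, hX1, hw]
    rw [hbd]; ring

/-- Rational functions in two variables. -/
abbrev K0 : Type := FractionRing (MvPolynomial (Fin 2) ℂ)

/-- The first variable. -/
noncomputable def kT : K0 := algebraMap (MvPolynomial (Fin 2) ℂ) K0 (MvPolynomial.X 0)

/-- The second variable. -/
noncomputable def kY : K0 := algebraMap (MvPolynomial (Fin 2) ℂ) K0 (MvPolynomial.X 1)

lemma aeval_K0 (P : MvPolynomial (Fin 2) ℂ) :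
    MvPolynomial.aeval ![kT, kY] P = algebraMap (MvPolynomial (Fin 2) ℂ) K0 P := by
  induction P using MvPolynomial.induction_on with
  | C c =>
    rw [MvPolynomial.aeval_C, ← MvPolynomial.algebraMap_eq,
      ← IsScalarTower.algebraMap_apply ℂ (MvPolynomial (Fin 2) ℂ) K0]
  | add p q hp hq => rw [map_add, map_add, hp, hq]
  | mul_X p i hp =>
    rw [map_mul, map_mul, hp, MvPolynomial.aeval_X]
    fin_cases i
    · rfl
    · rfl

lemma ne_zero_K0 {P : MvPolynomial (Fin 2) ℂ} (v : Fin 2 → ℂ) (h : MvPolynomial.eval v P ≠ 0) :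
    MvPolynomial.aeval ![kT, kY] P ≠ 0 := by
  rw [aeval_K0]
  intro h0
  apply h
  have : P = 0 := by
    apply IsFractionRing.injective (MvPolynomial (Fin 2) ℂ) K0
    rw [h0, map_zero]
  rw [this, map_zero]

lemma kT_ne : kT ≠ 0 := by
  have := ne_zero_K0 (P := MvPolynomial.X 0) ![1, 1] (by simp)
  simpa using this

lemma kY_ne : kY ≠ 0 := by
  have := ne_zero_K0 (P := MvPolynomial.X 1) ![1, 1] (by simp)
  simpa using this

lemma kY1_ne : kY - 1 ≠ 0 := by
  have := ne_zero_K0 (P := MvPolynomial.X 1 - 1) ![1, 0] (by simp)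
  simpa using this

lemma kW0_ne : kY ^ 2 - kY - kT ≠ 0 := by
  have := ne_zero_K0 (P := MvPolynomial.X 1 ^ 2 - MvPolynomial.X 1 - MvPolynomial.X 0) ![1, 0]
    (by simp)
  simpa using this

lemma kW1_ne : kT + kY ^ 2 * (kY - 1) ^ 3 ≠ 0 := by
  have := ne_zero_K0 (P := MvPolynomial.X 0 + MvPolynomial.X 1 ^ 2 * (MvPolynomial.X 1 - 1) ^ 3)
    ![1, 0] (by simp)
  simpa using this

/-- The first chart. -/
noncomputable def S0 : SurfRing →ₐ[ℂ] K0 :=
  liftS ![kY * (kY ^ 2 - kY - kT) / kT ^ 4, (kY - 1) * kT ^ 3 / (kY ^ 2 - kY - kT),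
      kT ^ 4 / (kY ^ 2 - kY - kT), (kY ^ 2 - kY - kT) / kT ^ 3]
    (by
      have h1 := kT_ne
      have h2 := kW0_ne
      simp only [Matrix.cons_val]
      generalize hw : kY ^ 2 - kY - kT = w at *
      field_simp
      rw [← hw]
      ring)
    (by
      have h1 := kT_ne
      have h2 := kW0_ne
      simp only [Matrix.cons_val]
      generalize hw : kY ^ 2 - kY - kT = w at *
      field_simp
      ring)

lemma S0_t : S0 (rc * rd) = kT := by
  have h1 := kT_ne
  have h2 := kW0_ne
  rw [map_mul]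
  unfold S0
  rw [liftS_rc, liftS_rd]
  simp only [Matrix.cons_val]
  generalize kY ^ 2 - kY - kT = w at *
  field_simp

lemma S0_y : S0 (ra * rc) = kY := by
  have h1 := kT_ne
  have h2 := kW0_ne
  rw [map_mul]
  unfold S0
  rw [liftS_ra, liftS_rc]
  simp only [Matrix.cons_val]
  generalize kY ^ 2 - kY - kT = w at *
  field_simp

/-- The second chart. -/
noncomputable def S1 : SurfRing →ₐ[ℂ] K0 :=
  liftS ![(kT + kY ^ 2 * (kY - 1) ^ 3) ^ 3 / kT ^ 4, kT ^ 3 / (kT + kY ^ 2 * (kY - 1) ^ 3) ^ 2,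
      kY * kT ^ 4 / (kT + kY ^ 2 * (kY - 1) ^ 3) ^ 3,
      (kY - 1) * (kT + kY ^ 2 * (kY - 1) ^ 3) ^ 2 / kT ^ 3]
    (by
      have h1 := kT_ne
      have h2 := kW1_ne
      simp only [Matrix.cons_val]
      generalize hw : kT + kY ^ 2 * (kY - 1) ^ 3 = w at *
      field_simp
      rw [← hw]
      ring)
    (by
      have h1 := kT_ne
      have h2 := kW1_ne
      simp only [Matrix.cons_val]
      generalize hw : kT + kY ^ 2 * (kY - 1) ^ 3 = w at *
      field_simp
      ring)

lemma S1_t : S1 (ra ^ 2 * rb ^ 3) = kT := by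
  have h1 := kT_ne
  have h2 := kW1_ne
  rw [map_mul, map_pow, map_pow]
  unfold S1
  rw [liftS_ra, liftS_rb]
  simp only [Matrix.cons_val]
  field_simp

lemma S1_y : S1 (ra * rc) = kY := by
  have h1 := kT_ne
  have h2 := kW1_ne
  rw [map_mul]
  unfold S1
  rw [liftS_ra, liftS_rc]
  simp only [Matrix.cons_val]
  field_simp

lemma S1_m : S1 (rc ^ 4 * rd ^ 5) ≠ 0 := by
  have h1 := kT_ne
  have h2 := kW1_ne
  have h3 := kY_ne
  have h4 := kY1_ne
  rw [map_mul, map_pow, map_pow]
  unfold S1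
  rw [liftS_rc, liftS_rd]
  simp only [Matrix.cons_val]
  generalize kT + kY ^ 2 * (kY - 1) ^ 3 = w at *
  simp [h1, h2, h3, h4]

lemma S0_kills {f : SurfRing} (h : S0 f = 0) : ∃ N, (rc ^ 4 * rd ^ 5) ^ N * f = 0 := by
  obtain ⟨N, P, hP⟩ := chart_zero f
  refine ⟨N, ?_⟩
  have h1 := congrArg S0 hP
  rw [map_mul, h, mul_zero, MvPolynomial.comp_aeval_apply] at h1
  have h2 : (fun i => S0 ((![rc * rd, ra * rc] : Fin 2 → SurfRing) i)) = ![kT, kY] := by
    funext i
    fin_cases i
    · exact S0_t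
    · exact S0_y
  rw [h2, aeval_K0] at h1
  have h3 : P = 0 := by
    apply IsFractionRing.injective (MvPolynomial (Fin 2) ℂ) K0
    rw [← h1, map_zero]
  rw [hP, h3, map_zero]

lemma S1_kills {f : SurfRing} (h : S1 f = 0) : ∃ N, (ra ^ 5 * rb ^ 7) ^ N * f = 0 := by
  obtain ⟨N, P, hP⟩ := chart_one f
  refine ⟨N, ?_⟩
  have h1 := congrArg S1 hP
  rw [map_mul, h, mul_zero, MvPolynomial.comp_aeval_apply] at h1
  have h2 : (fun i => S1 ((![ra ^ 2 * rb ^ 3, ra * rc] : Fin 2 → SurfRing) i)) = ![kT, kY] := by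
    funext i
    fin_cases i
    · exact S1_t
    · exact S1_y
  rw [h2, aeval_K0] at h1
  have h3 : P = 0 := by
    apply IsFractionRing.injective (MvPolynomial (Fin 2) ℂ) K0
    rw [← h1, map_zero]
  rw [hP, h3, map_zero]

lemma coprime_ab_cd : IsCoprime (ra * rb) (rc * rd) :=
  ⟨1, -(rc * rd ^ 2), by linear_combination rel_one⟩

lemma coprime_charts (N M : ℕ) : IsCoprime ((rc ^ 4 * rd ^ 5) ^ N) ((ra ^ 5 * rb ^ 7) ^ M) := by
  have h := coprime_ab_cd
  obtain ⟨h1, h2⟩ := IsCoprime.mul_right_iff.mp h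
  obtain ⟨h3, h4⟩ := IsCoprime.mul_left_iff.mp h1
  obtain ⟨h5, h6⟩ := IsCoprime.mul_left_iff.mp h2
  apply IsCoprime.pow
  apply IsCoprime.mul_left
  · exact IsCoprime.mul_right h3.symm.pow h4.symm.pow
  · exact IsCoprime.mul_right h5.symm.pow h6.symm.pow

theorem S0_injective : Function.Injective S0 := by
  rw [injective_iff_map_eq_zero]
  intro f hf
  obtain ⟨N, hN⟩ := S0_kills hf
  have h1 : S1 f = 0 := by
    have h2 := congrArg S1 hN
    rw [map_mul, map_pow, map_zero] at h2
    rcases mul_eq_zero.mp h2 with h3 | h3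
    · exact absurd h3 (pow_ne_zero N S1_m)
    · exact h3
  obtain ⟨M, hM⟩ := S1_kills h1
  obtain ⟨u, v, huv⟩ := coprime_charts N M
  calc f = (u * (rc ^ 4 * rd ^ 5) ^ N + v * (ra ^ 5 * rb ^ 7) ^ M) * f := by rw [huv, one_mul]
    _ = u * ((rc ^ 4 * rd ^ 5) ^ N * f) + v * ((ra ^ 5 * rb ^ 7) ^ M * f) := by ring
    _ = 0 := by rw [hN, hM]; ring

instance instIsDomainSurf : IsDomain SurfRing := S0_injective.isDomain S0.toRingHom

/-- The function `x = a b`. -/
noncomputable def kx : FractionRing SurfRing := algebraMap SurfRing _ (ra * rb)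

/-- The function `y = a c`. -/
noncomputable def ky : FractionRing SurfRing := algebraMap SurfRing _ (ra * rc)

/-- The values of the functions `x` and `y` at the points of the surface. -/
lemma exists_point {x y : ℂ} (hx : x ≠ 0) (hx1 : x - 1 ≠ 0) (hy : y ≠ 0) (hy1 : y - 1 ≠ 0) :
    ∃ S : SurfRing →ₐ[ℂ] ℂ, S (ra * rb) = x ∧ S (ra * rc) = y := by
  refine ⟨liftS ![x ^ 3 * (x - 1) / (y ^ 2 * (y - 1) ^ 3), y ^ 2 * (y - 1) ^ 3 / (x ^ 2 * (x - 1)),
    y ^ 3 * (y - 1) ^ 3 / (x ^ 3 * (x - 1)), x ^ 2 * (x - 1) / (y ^ 2 * (y - 1) ^ 2)] ?_ ?_,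
    ?_, ?_⟩
  · simp only [Matrix.cons_val]
    generalize hw : x - 1 = w at *
    generalize hz : y - 1 = z at *
    field_simp
    linear_combination hw
  · simp only [Matrix.cons_val]
    generalize hw : x - 1 = w at *
    generalize hz : y - 1 = z at *
    field_simp
    linear_combination hz
  · rw [map_mul, liftS_ra, liftS_rb]
    simp only [Matrix.cons_val]
    generalize hw : x - 1 = w at *
    generalize hz : y - 1 = z at *
    field_simp
  · rw [map_mul, liftS_ra, liftS_rc]
    simp only [Matrix.cons_val]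
    generalize hw : x - 1 = w at *
    generalize hz : y - 1 = z at *
    field_simp

theorem algIndep_R : AlgebraicIndependent ℂ ![ra * rb, ra * rc] := by
  rw [algebraicIndependent_iff]
  intro P hP
  have h1 : P * (MvPolynomial.X 0 * (MvPolynomial.X 0 - 1) * MvPolynomial.X 1 *
      (MvPolynomial.X 1 - 1)) = 0 := by
    apply MvPolynomial.funext
    intro v
    rw [map_mul, map_zero]
    by_cases h : v 0 * (v 0 - 1) * v 1 * (v 1 - 1) = 0
    · have : MvPolynomial.eval v (MvPolynomial.X 0 * (MvPolynomial.X 0 - 1) * MvPolynomial.X 1 *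
          (MvPolynomial.X 1 - 1)) = 0 := by simpa using h
      rw [this, mul_zero]
    · have hx : v 0 ≠ 0 := fun h0 => h (by rw [h0]; ring)
      have hx1 : v 0 - 1 ≠ 0 := fun h0 => h (by rw [h0]; ring)
      have hy : v 1 ≠ 0 := fun h0 => h (by rw [h0]; ring)
      have hy1 : v 1 - 1 ≠ 0 := fun h0 => h (by rw [h0]; ring)
      obtain ⟨S, hSx, hSy⟩ := exists_point hx hx1 hy hy1
      have h2 := congrArg S hP
      rw [map_zero, MvPolynomial.comp_aeval_apply] at h2
      have h3 : (fun i => S ((![ra * rb, ra * rc] : Fin 2 → SurfRing) i)) = v := by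
        funext i
        fin_cases i
        · exact hSx
        · exact hSy
      rw [h3] at h2
      have h4 : MvPolynomial.eval v P = 0 := by
        rw [← h2]
        rfl
      rw [h4, zero_mul]
  rcases mul_eq_zero.mp h1 with h | h
  · exact h
  · exfalso
    have h2 := congrArg (MvPolynomial.eval ![2, 2]) h
    simp at h2
    norm_num at h2

theorem algIndep_xy : AlgebraicIndependent ℂ ![kx, ky] := by
  have h := algIndep_R.map' (f := IsScalarTower.toAlgHom ℂ SurfRing (FractionRing SurfRing))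
    (IsFractionRing.injective SurfRing (FractionRing SurfRing))
  have h2 : (IsScalarTower.toAlgHom ℂ SurfRing (FractionRing SurfRing)) ∘ ![ra * rb, ra * rc]
      = ![kx, ky] := by
    funext i
    fin_cases i
    · rfl
    · rfl
  rw [h2] at h
  exact h

theorem trdeg_surf : Algebra.trdeg ℂ SurfRing = 2 := by
  apply le_antisymm
  · have h1 := trdeg_le_of_injective S0 S0_injective
    have h2 : Algebra.trdeg ℂ K0 = 2 := by
      have hi : Algebra.IsAlgebraic (MvPolynomial (Fin 2) ℂ) K0 :=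
        IsLocalization.isAlgebraic K0 (nonZeroDivisors (MvPolynomial (Fin 2) ℂ))
      have h3 := trdeg_add_eq ℂ (MvPolynomial (Fin 2) ℂ) (A := K0)
      rw [MvPolynomial.trdeg_of_isDomain, trdeg_eq_zero (R := MvPolynomial (Fin 2) ℂ)] at h3
      rw [← h3]
      simp
    rw [h2] at h1
    exact h1
  · have h1 := algIndep_R.cardinalMk_le_trdeg
    simpa using h1

/-! ### Derivations of the field of functions -/

/-- A homomorphism to the dual numbers over the field of fractions gives a derivation. -/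
lemma exists_derivation_of {R : Type} [CommRing R] [IsDomain R] [Algebra ℂ R]
    (S : R →ₐ[ℂ] TrivSqZeroExt (FractionRing R) (FractionRing R))
    (hS : ∀ r, (S r).fst = algebraMap R (FractionRing R) r) :
    ∃ D : Derivation ℂ (FractionRing R) (FractionRing R),
      ∀ r, D (algebraMap R (FractionRing R) r) = (S r).snd := by
  have hu : ∀ y : nonZeroDivisors R, IsUnit (S y) := by
    intro y
    rw [TrivSqZeroExt.isUnit_iff_isUnit_fst, hS, isUnit_iff_ne_zero]
    intro h
    exact nonZeroDivisors.coe_ne_zero y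
      (IsFractionRing.injective R (FractionRing R) (by rw [h, map_zero]))
  let F : FractionRing R →ₐ[ℂ] TrivSqZeroExt (FractionRing R) (FractionRing R) :=
    IsLocalization.liftAlgHom (M := nonZeroDivisors R) (f := S) hu
  have hF : ∀ r, F (algebraMap R (FractionRing R) r) = S r := by
    intro r
    exact IsLocalization.lift_eq _ r
  have hfst : ∀ z, (F z).fst = z := by
    have h1 : ((TrivSqZeroExt.fstHom ℂ (FractionRing R) (FractionRing R)).comp F).toRingHom
        = RingHom.id (FractionRing R) := by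
      apply IsLocalization.ringHom_ext (nonZeroDivisors R)
      ext r
      show (F (algebraMap R (FractionRing R) r)).fst = algebraMap R (FractionRing R) r
      rw [hF, hS]
    intro z
    exact congrArg (fun g : FractionRing R →+* FractionRing R => g z) h1
  refine ⟨Derivation.mk' ((TrivSqZeroExt.sndHom (FractionRing R) (FractionRing R)).restrictScalars ℂ
    ∘ₗ F.toLinearMap) ?_, ?_⟩
  · intro a b
    show (F (a * b)).snd = a • (F b).snd + b • (F a).snd
    rw [map_mul, TrivSqZeroExt.snd_mul, hfst, hfst, op_smul_eq_smul]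
  · intro r
    show (F (algebraMap R (FractionRing R) r)).snd = (S r).snd
    rw [hF]

lemma ra_ne : ra ≠ 0 := by
  intro h
  have h1 := rel_one
  have h2 := S0_y
  rw [h, zero_mul, map_zero] at h2
  exact kY_ne h2.symm

lemma rc_ne : rc ≠ 0 := by
  intro h
  have h2 := S0_y
  rw [h, mul_zero, map_zero] at h2
  exact kY_ne h2.symm

lemma rd_ne : rd ≠ 0 := by
  intro h
  have h2 := S0_t
  rw [h, mul_zero, map_zero] at h2
  exact kT_ne h2.symm

lemma rb_ne : rb ≠ 0 := by
  intro h
  have h2 := S0_y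
  have h3 := rel_two
  rw [h, zero_mul, sub_zero] at h3
  rw [h3, map_one] at h2
  exact kY1_ne (by rw [← h2, sub_self])

/-- A derivation of the field of functions with given values on the generators. -/
lemma exists_der (da db dc dd : FractionRing SurfRing)
    (h1 : algebraMap SurfRing (FractionRing SurfRing) rb * da
      + algebraMap SurfRing (FractionRing SurfRing) ra * db
      - 2 * algebraMap SurfRing (FractionRing SurfRing) rc
        * algebraMap SurfRing (FractionRing SurfRing) rd ^ 3 * dc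
      - 3 * algebraMap SurfRing (FractionRing SurfRing) rc ^ 2
        * algebraMap SurfRing (FractionRing SurfRing) rd ^ 2 * dd = 0)
    (h2 : algebraMap SurfRing (FractionRing SurfRing) rc * da
      + algebraMap SurfRing (FractionRing SurfRing) ra * dc
      - algebraMap SurfRing (FractionRing SurfRing) rd * db
      - algebraMap SurfRing (FractionRing SurfRing) rb * dd = 0) :
    ∃ D : Derivation ℂ (FractionRing SurfRing) (FractionRing SurfRing),
      D (algebraMap SurfRing (FractionRing SurfRing) ra) = da ∧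
      D (algebraMap SurfRing (FractionRing SurfRing) rb) = db ∧
      D (algebraMap SurfRing (FractionRing SurfRing) rc) = dc ∧
      D (algebraMap SurfRing (FractionRing SurfRing) rd) = dd := by
  have e1 := congrArg (algebraMap SurfRing (FractionRing SurfRing)) rel_one
  have e2 := congrArg (algebraMap SurfRing (FractionRing SurfRing)) rel_two
  simp only [map_sub, map_mul, map_pow, map_one] at e1 e2
  generalize hv : (![TrivSqZeroExt.inl (algebraMap SurfRing (FractionRing SurfRing) ra)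
      + TrivSqZeroExt.inr da,
    TrivSqZeroExt.inl (algebraMap SurfRing (FractionRing SurfRing) rb) + TrivSqZeroExt.inr db,
    TrivSqZeroExt.inl (algebraMap SurfRing (FractionRing SurfRing) rc) + TrivSqZeroExt.inr dc,
    TrivSqZeroExt.inl (algebraMap SurfRing (FractionRing SurfRing) rd) + TrivSqZeroExt.inr dd] :
    Fin 4 → TrivSqZeroExt (FractionRing SurfRing) (FractionRing SurfRing)) = v
  have hv0 : v 0 = TrivSqZeroExt.inl (algebraMap SurfRing (FractionRing SurfRing) ra)
      + TrivSqZeroExt.inr da := by rw [← hv]; rfl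
  have hv1 : v 1 = TrivSqZeroExt.inl (algebraMap SurfRing (FractionRing SurfRing) rb)
      + TrivSqZeroExt.inr db := by rw [← hv]; rfl
  have hv2 : v 2 = TrivSqZeroExt.inl (algebraMap SurfRing (FractionRing SurfRing) rc)
      + TrivSqZeroExt.inr dc := by rw [← hv]; rfl
  have hv3 : v 3 = TrivSqZeroExt.inl (algebraMap SurfRing (FractionRing SurfRing) rd)
      + TrivSqZeroExt.inr dd := by rw [← hv]; rfl
  have g1 : v 0 * v 1 - v 2 ^ 2 * v 3 ^ 3 = 1 := by
    rw [hv0, hv1, hv2, hv3]
    apply TrivSqZeroExt.ext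
    · simp [e1]
    · simp only [TrivSqZeroExt.snd_sub, TrivSqZeroExt.snd_mul, TrivSqZeroExt.snd_pow,
        TrivSqZeroExt.fst_add, TrivSqZeroExt.snd_add, TrivSqZeroExt.fst_inl,
        TrivSqZeroExt.snd_inl, TrivSqZeroExt.fst_inr, TrivSqZeroExt.snd_inr,
        TrivSqZeroExt.fst_pow, TrivSqZeroExt.snd_one, smul_eq_mul, op_smul_eq_smul, add_zero,
        zero_add, nsmul_eq_mul, Nat.pred_eq_sub_one]
      push_cast
      linear_combination h1
  have g2 : v 0 * v 2 - v 1 * v 3 = 1 := by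
    rw [hv0, hv1, hv2, hv3]
    apply TrivSqZeroExt.ext
    · simp [e2]
    · simp only [TrivSqZeroExt.snd_sub, TrivSqZeroExt.snd_mul,
        TrivSqZeroExt.fst_add, TrivSqZeroExt.snd_add, TrivSqZeroExt.fst_inl,
        TrivSqZeroExt.snd_inl, TrivSqZeroExt.fst_inr, TrivSqZeroExt.snd_inr,
        TrivSqZeroExt.snd_one, smul_eq_mul, op_smul_eq_smul, add_zero,
        zero_add]
      linear_combination h2
  have hS : ∀ r, (liftS v g1 g2 r).fst = algebraMap SurfRing (FractionRing SurfRing) r := by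
    intro r
    obtain ⟨p, rfl⟩ := Ideal.Quotient.mk_surjective r
    rw [liftS_mk]
    induction p using MvPolynomial.induction_on with
    | C c =>
      rw [MvPolynomial.aeval_C]
      rfl
    | add p q hp hq => rw [map_add, map_add, map_add, ← hp, ← hq, TrivSqZeroExt.fst_add]
    | mul_X p i hp =>
      rw [map_mul, map_mul, map_mul, ← hp, TrivSqZeroExt.fst_mul, MvPolynomial.aeval_X]
      congr 1
      fin_cases i
      · show (v 0).fst = _
        rw [hv0]; simp [ra]
      · show (v 1).fst = _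
        rw [hv1]; simp [rb]
      · show (v 2).fst = _
        rw [hv2]; simp [rc]
      · show (v 3).fst = _
        rw [hv3]; simp [rd]
  obtain ⟨D, hD⟩ := exists_derivation_of (liftS v g1 g2) hS
  refine ⟨D, ?_, ?_, ?_, ?_⟩
  · rw [hD, liftS_ra, hv0]; simp
  · rw [hD, liftS_rb, hv1]; simp
  · rw [hD, liftS_rc, hv2]; simp
  · rw [hD, liftS_rd, hv3]; simp

theorem exists_derivations :
    ∃ D : Fin 2 → Derivation ℂ (FractionRing SurfRing) (FractionRing SurfRing),
      D 0 kx = 1 ∧ D 0 ky = 0 ∧ D 1 kx = 0 ∧ D 1 ky = 1 := by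
  have hinj := IsFractionRing.injective SurfRing (FractionRing SurfRing)
  have ha : algebraMap SurfRing (FractionRing SurfRing) ra ≠ 0 :=
    (map_ne_zero_iff _ hinj).mpr ra_ne
  have hb : algebraMap SurfRing (FractionRing SurfRing) rb ≠ 0 :=
    (map_ne_zero_iff _ hinj).mpr rb_ne
  have hc : algebraMap SurfRing (FractionRing SurfRing) rc ≠ 0 :=
    (map_ne_zero_iff _ hinj).mpr rc_ne
  have hd : algebraMap SurfRing (FractionRing SurfRing) rd ≠ 0 :=
    (map_ne_zero_iff _ hinj).mpr rd_ne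
  have key := exists_der
  have hkx : kx = algebraMap SurfRing (FractionRing SurfRing) ra
      * algebraMap SurfRing (FractionRing SurfRing) rb := by
    unfold kx; rw [map_mul]
  have hky : ky = algebraMap SurfRing (FractionRing SurfRing) ra
      * algebraMap SurfRing (FractionRing SurfRing) rc := by
    unfold ky; rw [map_mul]
  rw [hkx, hky]
  generalize algebraMap SurfRing (FractionRing SurfRing) ra = a at *
  generalize algebraMap SurfRing (FractionRing SurfRing) rb = b at *
  generalize algebraMap SurfRing (FractionRing SurfRing) rc = c at *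
  generalize algebraMap SurfRing (FractionRing SurfRing) rd = d at *
  obtain ⟨D0, h0a, h0b, h0c, h0d⟩ := key (a * (3 / (a * b) + 1 / (c ^ 2 * d ^ 3)))
    (b * (-2 / (a * b) - 1 / (c ^ 2 * d ^ 3))) (c * (-3 / (a * b) - 1 / (c ^ 2 * d ^ 3)))
    (d * (2 / (a * b) + 1 / (c ^ 2 * d ^ 3)))
    (by field_simp; ring) (by field_simp; ring)
  obtain ⟨D1, h1a, h1b, h1c, h1d⟩ := key (a * (-2 / (a * c) - 3 / (b * d)))
    (b * (2 / (a * c) + 3 / (b * d))) (c * (3 / (a * c) + 3 / (b * d)))
    (d * (-2 / (a * c) - 2 / (b * d)))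
    (by field_simp; ring) (by field_simp; ring)
  refine ⟨![D0, D1], ?_, ?_, ?_, ?_⟩
  · show D0 _ = _
    rw [Derivation.leibniz, h0a, h0b, smul_eq_mul, smul_eq_mul]
    field_simp
    ring
  · show D0 _ = _
    rw [Derivation.leibniz, h0a, h0c, smul_eq_mul, smul_eq_mul]
    field_simp
    ring
  · show D1 _ = _
    rw [Derivation.leibniz, h1a, h1b, smul_eq_mul, smul_eq_mul]
    field_simp
    ring
  · show D1 _ = _
    rw [Derivation.leibniz, h1a, h1c, smul_eq_mul, smul_eq_mul]
    field_simp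
    ring

end Pool.Agent.H90.CS
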