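import Mathlib
import Pool.Agent.H90.Ram.Core
import Pool.Agent.H90.CS.Defs

/-!
# The surface has no nonconstant points in a ring with one place at infinity
-/

set_option autoImplicit false

namespace Pool.Agent.H90.CS

open HahnSeries Pool.Agent.H90.Ram

/-- The algebraic identity behind the second residue. -/
theorem ident {A : Type*} [CommRing A] (c d g k c' d' g' k' : A)
    (R3 : c ^ 2 * g - d ^ 2 * k - 2 * c * d = 1) (R4 : g * k = c * d ^ 2 - 1)
    (D3 : 2 * c * g * c' + c ^ 2 * g' - 2 * d * k * d' - d ^ 2 * k' - 2 * c * d' - 2 * d * c' = 0)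
    (D4 : g * k' + k * g' = d ^ 2 * c' + 2 * c * d * d') :
    c ^ 2 * d ^ 2 * (2 * g * k' - 3 * d ^ 2 * c') =
      (2 * c * g * c' + c ^ 2 * g' - c' * d - c * d')
        + c ^ 2 * ((c' * g + c * g' - d') * d - (c * g - d) * d')
        + d ^ 2 * ((c' + d' * k + d * k') * c - (c + d * k) * c')
        + 2 * c ^ 2 * d * d' - 2 * c * d ^ 2 * c' := by
  linear_combination (-c * (c * g - d)) * D3 + c ^ 2 * d ^ 2 * D4 +
    (c ^ 2 * g' - c * d' + 2 * c * g * c' - d * c') * R3 +
    (-2 * c ^ 2 * d * d' + 2 * c * d ^ 2 * c') * R4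

/-- First relation between the pole orders. -/
theorem resOne {R : Set LS}
    (hres : ∀ f ∈ R, ∀ g ∈ R, (f * theta g).coeff 0 = 0) (a b c d : LS)
    (ha : a ∈ R) (hb : b ∈ R) (hc : c ∈ R) (hd : d ∈ R)
    (e1 : a * b - c ^ 2 * d ^ 3 = 1) (e2 : a * c - b * d = 1)
    (ha0 : a ≠ 0) (hb0 : b ≠ 0) (hc0 : c ≠ 0) (hd0 : d ≠ 0)
    (hlt : 2 * c.order + 3 * d.order < a.order + c.order)
    (o1 : a.order + b.order = 2 * c.order + 3 * d.order)
    (o2 : a.order + c.order = b.order + d.order) : 12 * (a.order + b.order) =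
      17 * (a.order + c.order) := by
  obtain ⟨s, hs⟩ : ∃ s : LS, s = c ^ 2 * d ^ 3 := ⟨_, rfl⟩
  have hs0 : s ≠ 0 := by rw [hs]; exact mul_ne_zero (pow_ne_zero 2 hc0) (pow_ne_zero 3 hd0)
  have os : s.order = 2 * c.order + 3 * d.order := by
    rw [hs, order_mul (pow_ne_zero 2 hc0) (pow_ne_zero 3 hd0), order_pow, order_pow]
    simp
  have hx0 : a * b ≠ 0 := mul_ne_zero ha0 hb0
  -- logarithmic derivatives
  obtain ⟨La, hLa⟩ : ∃ z : LS, z = theta a * a⁻¹ := ⟨_, rfl⟩
  obtain ⟨Lb, hLb⟩ : ∃ z : LS, z = theta b * b⁻¹ := ⟨_, rfl⟩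
  obtain ⟨Lc, hLc⟩ : ∃ z : LS, z = theta c * c⁻¹ := ⟨_, rfl⟩
  obtain ⟨Ld, hLd⟩ : ∃ z : LS, z = theta d * d⁻¹ := ⟨_, rfl⟩
  have ta : theta a = a * La := by rw [hLa]; field_simp
  have tb : theta b = b * Lb := by rw [hLb]; field_simp
  have tc : theta c = c * Lc := by rw [hLc]; field_simp
  have td : theta d = d * Ld := by rw [hLd]; field_simp
  have cLa : La.coeff 0 = (a.order : ℂ) := by rw [hLa]; exact log_coeff ha0
  have cLb : Lb.coeff 0 = (b.order : ℂ) := by rw [hLb]; exact log_coeff hb0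
  have cLc : Lc.coeff 0 = (c.order : ℂ) := by rw [hLc]; exact log_coeff hc0
  have cLd : Ld.coeff 0 = (d.order : ℂ) := by rw [hLd]; exact log_coeff hd0
  -- the derivative of the first equation
  have hx : a * b = s + 1 := by rw [hs]; linear_combination e1
  have ts : theta s = s * (2 * Lc + 3 * Ld) := by
    rw [hs, theta_mul, pow_succ, pow_one, pow_succ, pow_succ, pow_one, theta_mul, theta_mul,
      theta_mul, tc, td]
    ring
  have tx : theta (a * b) = (a * b) * (La + Lb) := by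
    rw [theta_mul, ta, tb]; ring
  have txs : (a * b) * (La + Lb) = s * (2 * Lc + 3 * Ld) := by
    rw [← tx, hx, theta_add, theta_one, add_zero, ts]
  -- the small term
  obtain ⟨m, hm⟩ : ∃ m : LS, m = (a * c * s⁻¹) * (La + Lb) := ⟨_, rfl⟩
  have hm1 : a * c * ((2 * Lc + 3 * Ld) - (La + Lb)) = m := by
    have h2 : s * (a * c * ((2 * Lc + 3 * Ld) - (La + Lb))) = s * m := by
      rw [hm]
      have h3 : s * (a * c * s⁻¹ * (La + Lb)) = (s * s⁻¹) * (a * c * (La + Lb)) := by ring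
      rw [h3, mul_inv_cancel₀ hs0]
      have h4 : (s + 1) * (La + Lb) = s * (2 * Lc + 3 * Ld) := by rw [← hx, txs]
      linear_combination (-(a * c)) * h4
    exact mul_left_cancel₀ hs0 h2
  have hG1 : Ge (a * c * s⁻¹) 1 := by
    have h := (ge_order (a * c)).mul (ge_order s⁻¹)
    rw [order_mul ha0 hc0, order_inv' hs0, os] at h
    exact h.mono (by omega)
  have hG2 : Ge (La + Lb) 0 := by
    rw [hLa, hLb]; exact (log_ge ha0).add (log_ge hb0)
  have hm0 : m.coeff 0 = 0 := by rw [hm]; exact hG1.mul_coeff_zero hG2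
  -- the residue
  have r1 := hres c hc a ha
  have r2 := hres d hd b hb
  have r3 := hres a ha c hc
  have r4 := hres b hb d hd
  have key : c * theta a + d * theta b - C 2 * (a * theta c) - C 3 * (b * theta d) =
      C 8 * (La + Lb) + C 4 * (2 * Lc + 3 * Ld) - C 8 * (La + Lc) - C 9 * (Lb + Ld) - m := by
    rw [← hm1, ta, tb, tc, td]
    have n2 : (C 2 : LS) = 2 := map_ofNat C 2
    have n3 : (C 3 : LS) = 3 := map_ofNat C 3
    have n4 : (C 4 : LS) = 4 := map_ofNat C 4
    have n8 : (C 8 : LS) = 8 := map_ofNat C 8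
    have n9 : (C 9 : LS) = 9 := map_ofNat C 9
    rw [n2, n3, n4, n8, n9]
    linear_combination (-Lb + 3 * Ld) * e2
  have h0 := congrArg (fun f : LS => f.coeff 0) key
  have n2 : (2 : LS) = C 2 := (map_ofNat C 2).symm
  have n3 : (3 : LS) = C 3 := (map_ofNat C 3).symm
  simp only [coeff_sub, coeff_add, coeff_C_mul, n2, n3] at h0
  rw [r1, r2, r3, r4, hm0, cLa, cLb, cLc, cLd] at h0
  have h5 : (12 : ℂ) * ((a.order : ℂ) + b.order) = 17 * ((a.order : ℂ) + c.order) := by
    have o1' : (a.order : ℂ) + b.order = 2 * c.order + 3 * d.order := by exact_mod_cast o1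
    have o2' : (a.order : ℂ) + c.order = b.order + d.order := by exact_mod_cast o2
    linear_combination (-1 : ℂ) * h0 + 4 * o1' - 9 * o2'
  exact_mod_cast h5

/-- Second relation between the pole orders. -/
theorem resTwo {R : Set LS} (hR : IsAlg R)
    (hres : ∀ f ∈ R, ∀ g ∈ R, (f * theta g).coeff 0 = 0) (a b c d : LS)
    (ha : a ∈ R) (hb : b ∈ R) (hc : c ∈ R) (hd : d ∈ R)
    (e1 : a * b - c ^ 2 * d ^ 3 = 1) (e2 : a * c - b * d = 1)
    (ha0 : a ≠ 0) (hc0 : c ≠ 0) (hd0 : d ≠ 0)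
    (hlt : 2 * (c.order + d.order) < a.order + c.order) : c.order = d.order := by
  obtain ⟨g, hg⟩ : ∃ g : LS, g = a ^ 2 - c * d ^ 4 := ⟨_, rfl⟩
  obtain ⟨k, hk⟩ : ∃ k : LS, k = c ^ 3 * d ^ 2 - b ^ 2 := ⟨_, rfl⟩
  have hpow : ∀ (f : LS) (n : ℕ), f ∈ R → f ^ (n + 1) ∈ R := by
    intro f n hf
    induction n with
    | zero => simpa using hf
    | succ n ih => rw [pow_succ]; exact hR.mul_mem _ _ ih hf
  have hgR : g ∈ R := by
    rw [hg]; exact hR.sub_mem _ _ (hpow a 1 ha) (hR.mul_mem _ _ hc (hpow d 3 hd))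
  have hkR : k ∈ R := by
    rw [hk]; exact hR.sub_mem _ _ (hR.mul_mem _ _ (hpow c 2 hc) (hpow d 1 hd)) (hpow b 1 hb)
  have P1 : a = c * g - d := by rw [hg]; linear_combination (-a) * e2 - d * e1
  have P2 : b = c + d * k := by rw [hk]; linear_combination c * e1 - b * e2
  have R3 : c ^ 2 * g - d ^ 2 * k - 2 * c * d = 1 := by
    linear_combination e2 - c * P1 + d * P2
  have R4 : g * k = c * d ^ 2 - 1 := by
    have h : c * d * (g * k) = c * d * (c * d ^ 2 - 1) := by
      rw [P1, P2] at e1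
      linear_combination e1 - R3
    exact mul_left_cancel₀ (mul_ne_zero hc0 hd0) h
  -- derivatives
  have P1' : theta a = theta c * g + c * theta g - theta d := by
    conv_lhs => rw [P1]
    rw [theta_sub, theta_mul]
  have P2' : theta b = theta c + (theta d * k + d * theta k) := by
    conv_lhs => rw [P2]
    rw [theta_add, theta_mul]
  have D4 : g * theta k + k * theta g = d ^ 2 * theta c + 2 * c * d * theta d := by
    have h := congrArg theta R4
    rw [theta_mul, theta_sub, theta_one, sub_zero, theta_mul, pow_two, theta_mul] at h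
    linear_combination h
  have D3 : 2 * c * g * theta c + c ^ 2 * theta g - 2 * d * k * theta d - d ^ 2 * theta k
      - 2 * c * theta d - 2 * d * theta c = 0 := by
    have h := congrArg theta e2
    rw [theta_sub, theta_mul, theta_mul, theta_one, P1', P2', P1, P2] at h
    linear_combination h
  have key := ident c d g k (theta c) (theta d) (theta g) (theta k) R3 R4 D3 D4
  -- the small term
  obtain ⟨m, hm⟩ : ∃ m : LS, m = theta (a * c) * ((c * d)⁻¹ * (c * d)⁻¹) := ⟨_, rfl⟩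
  have hcd0 : c * d ≠ 0 := mul_ne_zero hc0 hd0
  have hm0 : m.coeff 0 = 0 := by
    rw [hm]
    have h1 := (ge_order (a * c)).theta.mul ((ge_order (c * d)⁻¹).mul (ge_order (c * d)⁻¹))
    rw [order_mul ha0 hc0, order_inv' hcd0, order_mul hc0 hd0] at h1
    exact h1 0 (by omega)
  have tad : theta (a * d⁻¹) = (theta a * d - a * theta d) * (d⁻¹ * d⁻¹) := by
    rw [theta_mul, theta_inv hd0]
    have h2 : theta a = theta a * (d * d⁻¹) := by rw [mul_inv_cancel₀ hd0, mul_one]
    linear_combination (d⁻¹) * h2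
  have tbc : theta (b * c⁻¹) = (theta b * c - b * theta c) * (c⁻¹ * c⁻¹) := by
    rw [theta_mul, theta_inv hc0]
    have h2 : theta b = theta b * (c * c⁻¹) := by rw [mul_inv_cancel₀ hc0, mul_one]
    linear_combination (c⁻¹) * h2
  have key2 : C 2 * (g * theta k) - C 3 * ((d * d) * theta c) =
      m + theta (a * d⁻¹) + theta (b * c⁻¹) + C 2 * (theta d * d⁻¹) - C 2 * (theta c * c⁻¹) := by
    have n2 : (C 2 : LS) = 2 := map_ofNat C 2
    have n3 : (C 3 : LS) = 3 := map_ofNat C 3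
    have hcd2 : c ^ 2 * d ^ 2 ≠ 0 := mul_ne_zero (pow_ne_zero 2 hc0) (pow_ne_zero 2 hd0)
    apply mul_left_cancel₀ hcd2
    have i1 : c ^ 2 * d ^ 2 * m = theta (a * c) := by
      rw [hm]
      have : c ^ 2 * d ^ 2 * (theta (a * c) * ((c * d)⁻¹ * (c * d)⁻¹)) =
        theta (a * c) * ((c * d) * (c * d)⁻¹) * ((c * d) * (c * d)⁻¹) := by ring
      rw [this, mul_inv_cancel₀ hcd0, mul_one, mul_one]
    have i2 : c ^ 2 * d ^ 2 * theta (a * d⁻¹) = c ^ 2 * (theta a * d - a * theta d) := by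
      rw [tad]
      have : c ^ 2 * d ^ 2 * ((theta a * d - a * theta d) * (d⁻¹ * d⁻¹)) =
        c ^ 2 * (theta a * d - a * theta d) * (d * d⁻¹) * (d * d⁻¹) := by ring
      rw [this, mul_inv_cancel₀ hd0, mul_one, mul_one]
    have i3 : c ^ 2 * d ^ 2 * theta (b * c⁻¹) = d ^ 2 * (theta b * c - b * theta c) := by
      rw [tbc]
      have : c ^ 2 * d ^ 2 * ((theta b * c - b * theta c) * (c⁻¹ * c⁻¹)) =
        d ^ 2 * (theta b * c - b * theta c) * (c * c⁻¹) * (c * c⁻¹) := by ring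
      rw [this, mul_inv_cancel₀ hc0, mul_one, mul_one]
    have i4 : c ^ 2 * d ^ 2 * (theta d * d⁻¹) = c ^ 2 * d * theta d := by
      have : c ^ 2 * d ^ 2 * (theta d * d⁻¹) = c ^ 2 * d * theta d * (d * d⁻¹) := by ring
      rw [this, mul_inv_cancel₀ hd0, mul_one]
    have i5 : c ^ 2 * d ^ 2 * (theta c * c⁻¹) = c * d ^ 2 * theta c := by
      have : c ^ 2 * d ^ 2 * (theta c * c⁻¹) = c * d ^ 2 * theta c * (c * c⁻¹) := by ring
      rw [this, mul_inv_cancel₀ hc0, mul_one]
    have hL : c ^ 2 * d ^ 2 * (m + theta (a * d⁻¹) + theta (b * c⁻¹) +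
        C 2 * (theta d * d⁻¹) - C 2 * (theta c * c⁻¹)) =
        theta (a * c) + c ^ 2 * (theta a * d - a * theta d)
          + d ^ 2 * (theta b * c - b * theta c) + 2 * (c ^ 2 * d * theta d)
          - 2 * (c * d ^ 2 * theta c) := by
      rw [n2]
      linear_combination i1 + i2 + i3 + 2 * i4 - 2 * i5
    rw [hL, theta_mul, P1', P2', n2, n3]
    have q1 : (theta c * g + c * theta g - theta d) * c + a * theta c =
        2 * c * g * theta c + c ^ 2 * theta g - theta c * d - c * theta d := by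
      linear_combination (theta c) * P1
    rw [q1]
    linear_combination key + (c ^ 2 * theta d) * P1 + (d ^ 2 * theta c) * P2
  have h0 := congrArg (fun f : LS => f.coeff 0) key2
  simp only [coeff_sub, coeff_add, coeff_C_mul] at h0
  rw [hres g hgR k hkR, hres (d * d) (hR.mul_mem _ _ hd hd) c hc, hm0, c0_theta, c0_theta,
    log_coeff hd0, log_coeff hc0] at h0
  have h5 : (c.order : ℂ) = (d.order : ℂ) := by linear_combination (1 / 2 : ℂ) * h0
  exact_mod_cast h5

end Pool.Agent.H90.CS
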