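import Mathlib
import Pool.Agent.H90.Ram.Curve
import Pool.Agent.H90.CS.Core

/-!
# The surface contains no once-punctured curve
-/

set_option autoImplicit false

namespace Pool.Agent.H90.CS

open HahnSeries Pool.Agent.H90.Ram

theorem dom2 {x y : LS} (h : x - y = 1) (hx : x ≠ 0) (h0 : x.order < 0)
    (hy : Ge y (x.order + 1)) : False := by
  have h2 := congrArg (fun f : LS => f.coeff x.order) h
  simp only [coeff_sub] at h2
  rw [hy _ (by omega), ge_one _ h0, sub_zero] at h2
  exact hx (coeff_order_eq_zero.1 h2)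

/-- If `x - y = 1` and both have order `≤ 0` then their orders agree. -/
theorem orders_eq {x y : LS} (h : x - y = 1) (hx : x ≠ 0) (hy : y ≠ 0) (ox : x.order ≤ 0)
    (oy : y.order ≤ 0) : x.order = y.order := by
  rcases lt_trichotomy x.order y.order with hlt | heq | hgt
  · exact (dom2 h hx (by omega) ((ge_order y).mono (by omega))).elim
  · exact heq
  · refine (dom2 (x := -y) (y := -x) (by linear_combination h) (neg_ne_zero.2 hy) ?_ ?_).elim
    · rw [order_neg]; omega
    · rw [order_neg]; exact (ge_order x).neg.mono (by omega)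

/-- Either all four functions are constant, or the pole orders satisfy two relations. -/
theorem degrees {R : Set LS}
    (h1 : ∀ r ∈ R, (∀ i : ℤ, i ≤ 0 → r.coeff i = 0) → r = 0) (a b c d : LS)
    (ha : a ∈ R) (hb : b ∈ R) (hc : c ∈ R) (hd : d ∈ R)
    (e1 : a * b - c ^ 2 * d ^ 3 = 1) (e2 : a * c - b * d = 1) :
    (Ge a 0 ∧ Ge b 0 ∧ Ge c 0 ∧ Ge d 0) ∨
    (a ≠ 0 ∧ b ≠ 0 ∧ c ≠ 0 ∧ d ≠ 0 ∧ c.order ≤ 0 ∧ d.order ≤ 0 ∧
      (c.order < 0 ∨ d.order < 0) ∧
      a.order + b.order = 2 * c.order + 3 * d.order ∧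
      a.order + c.order = b.order + d.order) := by
  have unit2 : ∀ {x y : LS}, x ∈ R → y ∈ R → x * y = 1 → Ge x 0 ∧ Ge y 0 := by
    intro x y hx hy h
    have hx0 : x ≠ 0 := left_ne_zero_of_mul_eq_one h
    have hy0 : y ≠ 0 := right_ne_zero_of_mul_eq_one h
    have ho := congrArg HahnSeries.order h
    rw [order_mul hx0 hy0, order_one] at ho
    have h3 := order_nonpos h1 x hx hx0
    have h4 := order_nonpos h1 y hy hy0
    exact ⟨(ge_order x).mono (by omega), (ge_order y).mono (by omega)⟩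
  have unit2' : ∀ {x y : LS}, x ∈ R → y ∈ R → x * y = -1 → Ge x 0 ∧ Ge y 0 := by
    intro x y hx hy h
    have hx0 : x ≠ 0 := by rintro rfl; simp at h
    have hy0 : y ≠ 0 := by rintro rfl; simp at h
    have ho := congrArg HahnSeries.order h
    rw [order_mul hx0 hy0, order_neg, order_one] at ho
    have h3 := order_nonpos h1 x hx hx0
    have h4 := order_nonpos h1 y hy hy0
    exact ⟨(ge_order x).mono (by omega), (ge_order y).mono (by omega)⟩
  have unitcd : c ^ 2 * d ^ 3 = -1 → Ge c 0 ∧ Ge d 0 := by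
    intro h
    have hc0 : c ≠ 0 := by rintro rfl; simp at h
    have hd0 : d ≠ 0 := by rintro rfl; simp at h
    have ho := congrArg HahnSeries.order h
    rw [order_mul (pow_ne_zero 2 hc0) (pow_ne_zero 3 hd0), order_pow, order_pow, order_neg,
      order_one] at ho
    simp only [nsmul_eq_mul, Nat.cast_ofNat] at ho
    have h3 := order_nonpos h1 c hc hc0
    have h4 := order_nonpos h1 d hd hd0
    exact ⟨(ge_order c).mono (by omega), (ge_order d).mono (by omega)⟩
  by_cases ha0 : a = 0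
  · left
    subst ha0
    obtain ⟨g1, g2⟩ := unit2' hb hd (by linear_combination -e2)
    obtain ⟨g3, -⟩ := unitcd (by linear_combination -e1)
    exact ⟨ge_zero 0, g1, g3, g2⟩
  by_cases hb0 : b = 0
  · left
    subst hb0
    obtain ⟨g1, g2⟩ := unit2 ha hc (by linear_combination e2)
    obtain ⟨-, g3⟩ := unitcd (by linear_combination -e1)
    exact ⟨g1, ge_zero 0, g2, g3⟩
  by_cases hc0 : c = 0
  · left
    subst hc0
    obtain ⟨g1, g2⟩ := unit2 ha hb (by linear_combination e1)
    obtain ⟨-, g3⟩ := unit2' hb hd (by linear_combination -e2)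
    exact ⟨g1, g2, ge_zero 0, g3⟩
  by_cases hd0 : d = 0
  · left
    subst hd0
    obtain ⟨g1, g2⟩ := unit2 ha hb (by linear_combination e1)
    obtain ⟨-, g3⟩ := unit2 ha hc (by linear_combination e2)
    exact ⟨g1, g2, g3, ge_zero 0⟩
  have oa := order_nonpos h1 a ha ha0
  have ob := order_nonpos h1 b hb hb0
  have oc := order_nonpos h1 c hc hc0
  have od := order_nonpos h1 d hd hd0
  have os : (c ^ 2 * d ^ 3).order = 2 * c.order + 3 * d.order := by
    rw [order_mul (pow_ne_zero 2 hc0) (pow_ne_zero 3 hd0), order_pow, order_pow]; simp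
  have o1 : a.order + b.order = 2 * c.order + 3 * d.order := by
    rw [← order_mul ha0 hb0, ← os]
    exact orders_eq e1 (mul_ne_zero ha0 hb0)
      (mul_ne_zero (pow_ne_zero 2 hc0) (pow_ne_zero 3 hd0))
      (by rw [order_mul ha0 hb0]; omega) (by rw [os]; omega)
  have o2 : a.order + c.order = b.order + d.order := by
    rw [← order_mul ha0 hc0, ← order_mul hb0 hd0]
    exact orders_eq e2 (mul_ne_zero ha0 hc0) (mul_ne_zero hb0 hd0)
      (by rw [order_mul ha0 hc0]; omega) (by rw [order_mul hb0 hd0]; omega)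
  by_cases hall : c.order = 0 ∧ d.order = 0
  · left
    obtain ⟨i3, i4⟩ := hall
    exact ⟨(ge_order a).mono (by omega), (ge_order b).mono (by omega),
      (ge_order c).mono (by omega), (ge_order d).mono (by omega)⟩
  · right
    exact ⟨ha0, hb0, hc0, hd0, oc, od, by omega, o1, o2⟩

/-- **Core theorem.** In a ring with one place at infinity, the equations of the surface have
only constant solutions. -/
theorem core {R : Set LS} (hR : IsAlg R)
    (h1 : ∀ r ∈ R, (∀ i : ℤ, i ≤ 0 → r.coeff i = 0) → r = 0)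
    (N0 : ℕ) (hN0 : ∀ j, N0 ≤ j → j ∈ degSet R) (a b c d : LS)
    (ha : a ∈ R) (hb : b ∈ R) (hc : c ∈ R) (hd : d ∈ R)
    (e1 : a * b - c ^ 2 * d ^ 3 = 1) (e2 : a * c - b * d = 1) :
    Ge a 0 ∧ Ge b 0 ∧ Ge c 0 ∧ Ge d 0 := by
  have hres : ∀ f ∈ R, ∀ g ∈ R, (f * theta g).coeff 0 = 0 :=
    fun f hf g hg => residue hR h1 N0 hN0 f g hf hg
  rcases degrees h1 a b c d ha hb hc hd e1 e2 with h | ⟨ha0, hb0, hc0, hd0, oc, od, hneg, o1, o2⟩
  · exact h
  · exfalso
    have r1 := resOne hres a b c d ha hb hc hd e1 e2 ha0 hb0 hc0 hd0 (by omega) o1 o2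
    have r2 := resTwo hR hres a b c d ha hb hc hd e1 e2 ha0 hc0 hd0 (by omega)
    omega

end Pool.Agent.H90.CS
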