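import Mathlib
import Pool.Agent.H90.CS.Defs

/-!
# Log-general type from explicit pluricanonical forms
-/

set_option autoImplicit false

namespace Pool.Agent.H90.CS

section Field

variable {K : Type} [Field K] [Algebra ℂ K]

/-- changing the second element of a transcendence basis -/
lemma algIndep_swap {x y z : K} (h : AlgebraicIndependent ℂ ![x, y]) (hy : y - 1 ≠ 0)
    (hx : x ≠ 0) (hz : z = x * y / (y - 1)) : AlgebraicIndependent ℂ ![x, z] := by
  rw [AlgebraicIndependent.iff_transcendental_adjoin_image 1] at h ⊢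
  have h1 : (fun j : {j : Fin 2 // j ≠ 1} => ![x, z] j) =
      fun j : {j : Fin 2 // j ≠ 1} => ![x, y] j := by
    funext ⟨j, hj⟩
    fin_cases j
    · rfl
    · exact absurd rfl hj
  have h2 : ![x, z] '' {1}ᶜ = ![x, y] '' {1}ᶜ := by
    refine Set.image_congr fun j hj => ?_
    fin_cases j
    · rfl
    · exact absurd rfl hj
  rw [h1, h2]
  refine ⟨h.1, fun hz' => h.2 ?_⟩
  have hxmem : x ∈ Algebra.adjoin ℂ (![x, y] '' {1}ᶜ) :=
    Algebra.subset_adjoin ⟨0, by simp, rfl⟩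
  have hxa : IsAlgebraic (Algebra.adjoin ℂ (![x, y] '' {1}ᶜ)) x :=
    isAlgebraic_algebraMap (⟨x, hxmem⟩ : Algebra.adjoin ℂ (![x, y] '' {1}ᶜ))
  have hzx : z - x ≠ 0 := by
    have : z - x = x / (y - 1) := by rw [hz]; field_simp; ring
    rw [this]
    exact div_ne_zero hx hy
  have hyz : y = z * (z - x)⁻¹ := by
    have h3 : z - x = x / (y - 1) := by rw [hz]; field_simp; ring
    rw [h3, hz]
    field_simp
  have h4 : ![x, y] 1 = z * (z - x)⁻¹ := hyz
  rw [h4]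
  exact hz'.mul (hz'.sub hxa).inv

omit [Algebra ℂ K] in
/-- the dichotomy for one coordinate -/
lemma val_cases (O : ValuationSubring K) (z : K) (hz0 : z ≠ 0) (hz1 : z - 1 ≠ 0) :
    z⁻¹ ∈ O ∨ (z - 1)⁻¹ ∈ O := by
  by_contra hcon
  push Not at hcon
  obtain ⟨h1, h2⟩ := hcon
  have key : ∀ w : K, w ≠ 0 → w⁻¹ ∉ O → O.valuation w < 1 := by
    intro w hw hwO
    rw [← ValuationSubring.valuation_le_one_iff, map_inv₀, not_le] at hwO
    by_contra hge
    push Not at hge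
    exact absurd (inv_le_one_of_one_le₀ hge) (not_le.2 hwO)
  have h3 := key z hz0 h1
  have h4 := key (z - 1) hz1 h2
  have h5 : O.valuation (z - (z - 1)) < 1 :=
    lt_of_le_of_lt (Valuation.map_sub _ _ _) (max_lt h3 h4)
  rw [show z - (z - 1) = 1 by ring, map_one] at h5
  exact lt_irrefl _ h5

omit [Algebra ℂ K] in
lemma mem_of_exp (O : ValuationSubring K) (z : K) (hz0 : z ≠ 0) (hz1 : z - 1 ≠ 0) (p q : ℕ)
    (hp : p ≤ 4) (hq : q ≤ 4) (hpq : 4 ≤ p + q) :
    ∃ e : K, (e = z ∨ e = z - 1) ∧ e ≠ 0 ∧ e ^ 4 / (z ^ p * (z - 1) ^ q) ∈ O := by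
  rcases val_cases O z hz0 hz1 with h | h
  · refine ⟨z - 1, Or.inr rfl, hz1, ?_⟩
    have h1 : (z - 1) ^ 4 / (z ^ p * (z - 1) ^ q) =
        (1 - z⁻¹) ^ (4 - q) * (z⁻¹) ^ (p - (4 - q)) := by
      obtain ⟨r, hr⟩ := Nat.exists_eq_add_of_le hq
      obtain ⟨s, hs⟩ : ∃ s, p = r + s := ⟨p - r, by omega⟩
      have e1 : 4 - q = r := by omega
      have e2 : p - r = s := by omega
      rw [e1, e2]
      have e3 : (1 - z⁻¹) = (z - 1) * z⁻¹ := by field_simp
      rw [e3, mul_pow, div_eq_iff (mul_ne_zero (pow_ne_zero _ hz0) (pow_ne_zero _ hz1))]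
      have e4 : (z - 1) ^ r * z⁻¹ ^ r * z⁻¹ ^ s * (z ^ p * (z - 1) ^ q) =
          ((z - 1) ^ r * (z - 1) ^ q) * ((z⁻¹ * z) ^ r * (z⁻¹ * z) ^ s) := by
        rw [hs, pow_add, mul_pow, mul_pow]; ring
      rw [e4, inv_mul_cancel₀ hz0, one_pow, one_pow, ← pow_add]
      rw [show r + q = 4 by omega]
      ring
    rw [h1]
    exact mul_mem (pow_mem (sub_mem (one_mem _) h) _) (pow_mem h _)
  · refine ⟨z, Or.inl rfl, hz0, ?_⟩
    have h1 : z ^ 4 / (z ^ p * (z - 1) ^ q) =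
        (1 + (z - 1)⁻¹) ^ (4 - p) * ((z - 1)⁻¹) ^ (q - (4 - p)) := by
      obtain ⟨r, hr⟩ := Nat.exists_eq_add_of_le hp
      obtain ⟨s, hs⟩ : ∃ s, q = r + s := ⟨q - r, by omega⟩
      have e1 : 4 - p = r := by omega
      have e2 : q - r = s := by omega
      rw [e1, e2]
      have e3 : (1 + (z - 1)⁻¹) = z * (z - 1)⁻¹ := by field_simp; ring
      rw [e3, mul_pow, div_eq_iff (mul_ne_zero (pow_ne_zero _ hz0) (pow_ne_zero _ hz1))]
      have e4 : z ^ r * (z - 1)⁻¹ ^ r * (z - 1)⁻¹ ^ s * (z ^ p * (z - 1) ^ q) =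
          (z ^ r * z ^ p) * (((z - 1)⁻¹ * (z - 1)) ^ r * ((z - 1)⁻¹ * (z - 1)) ^ s) := by
        rw [hs, pow_add, mul_pow, mul_pow]; ring
      rw [e4, inv_mul_cancel₀ hz1, one_pow, one_pow, ← pow_add]
      rw [show r + p = 4 by omega]
      ring
    rw [h1]
    exact mul_mem (pow_mem (add_mem (one_mem _) h) _) (pow_mem h _)

/-- logarithmic forms -/
lemma log_mem (D : Fin 2 → Derivation ℂ K K) {x y : K} (hD0x : D 0 x = 1) (hD0y : D 0 y = 0)
    (hD1x : D 1 x = 0) (hD1y : D 1 y = 1) (hx0 : x ≠ 0) (hx1 : x - 1 ≠ 0) (hy0 : y ≠ 0)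
    (hy1 : y - 1 ≠ 0) (O : ValuationSubring K) (p q r s : ℕ)
    (hp : p ≤ 4) (hq : q ≤ 4) (hpq : 4 ≤ p + q) (hr : r ≤ 4) (hs : s ≤ 4) (hrs : 4 ≤ r + s) :
    1 / (x ^ p * (x - 1) ^ q * (y ^ r * (y - 1) ^ s)) ∈ logLattice D O ^ 4 := by
  obtain ⟨e, he, he0, heO⟩ := mem_of_exp O x hx0 hx1 p q hp hq hpq
  obtain ⟨g, hg, hg0, hgO⟩ := mem_of_exp O y hy0 hy1 r s hr hs hrs
  have hjac : jac D e g = 1 := by
    have he' : D 0 e = 1 ∧ D 1 e = 0 := by
      rcases he with rfl | rfl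
      · exact ⟨hD0x, hD1x⟩
      · simp [hD0x, hD1x]
    have hg' : D 0 g = 0 ∧ D 1 g = 1 := by
      rcases hg with rfl | rfl
      · exact ⟨hD0y, hD1y⟩
      · simp [hD0y, hD1y]
    simp [jac, he'.1, he'.2, hg'.1, hg'.2]
  have h1 : 1 / (e * g) ∈ logLattice D O :=
    Submodule.subset_span ⟨e, g, he0, hg0, by rw [hjac]⟩
  have h2 : (1 / (e * g)) ^ 4 ∈ logLattice D O ^ 4 := Submodule.pow_mem_pow _ h1 4
  have h3 := Submodule.smul_mem _ (⟨_, mul_mem heO hgO⟩ : O) h2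
  have h4 : (⟨_, mul_mem heO hgO⟩ : O) • (1 / (e * g)) ^ 4 =
      1 / (x ^ p * (x - 1) ^ q * (y ^ r * (y - 1) ^ s)) := by
    rw [Subring.smul_def]
    show e ^ 4 / (x ^ p * (x - 1) ^ q) * (g ^ 4 / (y ^ r * (y - 1) ^ s)) * (1 / (e * g)) ^ 4 = _
    field_simp
  rw [← h4]
  exact h3

/-- the key identity for regular forms -/
lemma jac_formula (D : Fin 2 → Derivation ℂ K K) {A B C E : K}
    (h1 : A * B - C ^ 2 * E ^ 3 = 1) (h2 : A * C - B * E = 1)
    (hD0x : D 0 (A * B) = 1) (hD0y : D 0 (A * C) = 0)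
    (hD1x : D 1 (A * B) = 0) (hD1y : D 1 (A * C) = 1)
    (hA : A ≠ 0) (hB : B ≠ 0) (hx1 : A * B - 1 ≠ 0) :
    3 * jac D A C + 4 * jac D B E = -(1 / (A * B * (A * B - 1))) := by
  have hBE : B * E = A * C - 1 := by linear_combination (-1 : K) * h2
  have hCE : C ^ 2 * E ^ 3 = A * B - 1 := by linear_combination (-1 : K) * h1
  have e3 : D 0 (B * E) = 0 := by rw [hBE, map_sub, hD0y, Derivation.map_one_eq_zero, sub_zero]
  have f3 : D 1 (B * E) = 1 := by rw [hBE, map_sub, hD1y, Derivation.map_one_eq_zero, sub_zero]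
  have e4 : D 0 (C ^ 2 * E ^ 3) = 1 := by
    rw [hCE, map_sub, hD0x, Derivation.map_one_eq_zero, sub_zero]
  simp only [Derivation.leibniz, Derivation.leibniz_pow, smul_eq_mul, nsmul_eq_mul] at hD0x hD0y hD1x hD1y e3 f3 e4
  push_cast at e4
  set a0 := D 0 A
  set b0 := D 0 B
  set c0 := D 0 C
  set d0 := D 0 E
  set a1 := D 1 A
  set b1 := D 1 B
  set c1 := D 1 C
  set d1 := D 1 E
  have k1 : A * (a0 * c1 - a1 * c0) = a0 := by
    linear_combination a0 * hD1y - a1 * hD0y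
  have k2 : B * (b0 * d1 - b1 * d0) = b0 := by
    linear_combination b0 * f3 - b1 * e3
  have k3 : (A * B - 1) * (B * a0 - 3) = A * B := by
    rw [← hCE]
    simp only [pow_one] at e4
    linear_combination (A * B) * e4 - 3 * C ^ 2 * E ^ 2 * A * e3 - 2 * E ^ 3 * C * B * hD0y
      + 3 * C ^ 2 * E ^ 3 * hD0x
  have j1 : jac D A C = a0 / A := by
    rw [eq_div_iff hA]
    show (a0 * c1 - a1 * c0) * A = a0
    linear_combination k1
  have j2 : jac D B E = b0 / B := by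
    rw [eq_div_iff hB]
    show (b0 * d1 - b1 * d0) * B = b0
    linear_combination k2
  rw [j1, j2]
  have hAB : A * B * (A * B - 1) ≠ 0 := mul_ne_zero (mul_ne_zero hA hB) hx1
  rw [eq_neg_iff_add_eq_zero]
  have h3 : A * B * (A * B - 1) * (3 * (a0 / A) + 4 * (b0 / B) + 1 / (A * B * (A * B - 1))) = 0 := by
    have e5 : A * B * (A * B - 1) *
        (3 * (a0 / A) + 4 * (b0 / B) + 1 / (A * B * (A * B - 1))) =
        (A * B - 1) * (3 * (B * a0) + 4 * (A * b0)) + 1 := by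
      field_simp
    rw [e5]
    linear_combination 4 * (A * B - 1) * hD0x - k3
  exact (mul_eq_zero.1 h3).resolve_left hAB

/-- regular forms -/
lemma reg_mem (D : Fin 2 → Derivation ℂ K K) {A B C E : K}
    (h1 : A * B - C ^ 2 * E ^ 3 = 1) (h2 : A * C - B * E = 1)
    (hD0x : D 0 (A * B) = 1) (hD0y : D 0 (A * C) = 0)
    (hD1x : D 1 (A * B) = 0) (hD1y : D 1 (A * C) = 1)
    (hA : A ≠ 0) (hB : B ≠ 0) (hx1 : A * B - 1 ≠ 0)
    (O : ValuationSubring K) (hAO : A ∈ O) (hBO : B ∈ O) (hCO : C ∈ O) (hEO : E ∈ O)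
    {r : K} (hr : r ∈ O) : r * (1 / (A * B * (A * B - 1))) ^ 4 ∈ regLattice D O ^ 4 := by
  have m1 : jac D A C ∈ regLattice D O := Submodule.subset_span ⟨A, C, hAO, hCO, rfl⟩
  have m2 : jac D B E ∈ regLattice D O := Submodule.subset_span ⟨B, E, hBO, hEO, rfl⟩
  have m3 : 1 / (A * B * (A * B - 1)) ∈ regLattice D O := by
    have h3 : 1 / (A * B * (A * B - 1)) = -(3 • jac D A C + 4 • jac D B E) := by
      rw [nsmul_eq_mul, nsmul_eq_mul]
      push_cast
      rw [jac_formula D h1 h2 hD0x hD0y hD1x hD1y hA hB hx1, neg_neg]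
    rw [h3]
    exact neg_mem (add_mem (nsmul_mem m1 3) (nsmul_mem m2 4))
  have m4 := Submodule.pow_mem_pow _ m3 4
  exact Submodule.smul_mem _ (⟨r, hr⟩ : O) m4

end Field

theorem logGeneral_core {R : Type} [CommRing R] [IsDomain R] [Algebra ℂ R] (a b c d : R)
    (h1 : a * b - c ^ 2 * d ^ 3 = 1) (h2 : a * c - b * d = 1)
    (D : Fin 2 → Derivation ℂ (FractionRing R) (FractionRing R))
    (hD0x : D 0 (algebraMap R (FractionRing R) (a * b)) = 1)
    (hD0y : D 0 (algebraMap R (FractionRing R) (a * c)) = 0)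
    (hD1x : D 1 (algebraMap R (FractionRing R) (a * b)) = 0)
    (hD1y : D 1 (algebraMap R (FractionRing R) (a * c)) = 1)
    (hind : AlgebraicIndependent ℂ
      ![algebraMap R (FractionRing R) (a * b), algebraMap R (FractionRing R) (a * c)]) :
    LogGeneralType R := by
  obtain ⟨A, hA⟩ : ∃ A, A = algebraMap R (FractionRing R) a := ⟨_, rfl⟩
  obtain ⟨B, hB⟩ : ∃ B, B = algebraMap R (FractionRing R) b := ⟨_, rfl⟩
  obtain ⟨C, hC⟩ : ∃ C, C = algebraMap R (FractionRing R) c := ⟨_, rfl⟩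
  obtain ⟨E, hE⟩ : ∃ E, E = algebraMap R (FractionRing R) d := ⟨_, rfl⟩
  have hx : algebraMap R (FractionRing R) (a * b) = A * B := by rw [map_mul, hA, hB]
  have hy : algebraMap R (FractionRing R) (a * c) = A * C := by rw [map_mul, hA, hC]
  rw [hx] at hD0x hD1x hind
  rw [hy] at hD0y hD1y hind
  have g1 : A * B - C ^ 2 * E ^ 3 = 1 := by
    have := congrArg (algebraMap R (FractionRing R)) h1
    simpa [hA, hB, hC, hE] using this
  have g2 : A * C - B * E = 1 := by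
    have := congrArg (algebraMap R (FractionRing R)) h2
    simpa [hA, hB, hC, hE] using this
  have hx0 : A * B ≠ 0 := by
    intro h0; rw [h0, map_zero] at hD0x; exact zero_ne_one hD0x
  have hy0 : A * C ≠ 0 := by
    intro h0; rw [h0, map_zero] at hD1y; exact zero_ne_one hD1y
  have hx1 : A * B - 1 ≠ 0 := by
    intro h0
    have h3 : A * B = 1 := sub_eq_zero.1 h0
    rw [h3, Derivation.map_one_eq_zero] at hD0x
    exact zero_ne_one hD0x
  have hy1 : A * C - 1 ≠ 0 := by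
    intro h0
    have h3 : A * C = 1 := sub_eq_zero.1 h0
    rw [h3, Derivation.map_one_eq_zero] at hD1y
    exact zero_ne_one hD1y
  have hA0 : A ≠ 0 := left_ne_zero_of_mul hx0
  have hB0 : B ≠ 0 := right_ne_zero_of_mul hx0
  have hC0 : C ≠ 0 := right_ne_zero_of_mul hy0
  have kx : A * B - 1 = C ^ 2 * E ^ 3 := by linear_combination g1
  have ky : A * C - 1 = B * E := by linear_combination g2
  have hE0 : E ≠ 0 := by
    intro h0
    rw [h0, mul_zero] at ky
    exact hy1 ky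
  have memR : ∀ O : ValuationSubring (FractionRing R),
      (∀ r : R, algebraMap R (FractionRing R) r ∈ O) → A ∈ O ∧ B ∈ O ∧ C ∈ O ∧ E ∈ O :=
    fun O hO => ⟨hA ▸ hO a, hB ▸ hO b, hC ▸ hO c, hE ▸ hO d⟩
  refine ⟨D, ?_, 4, ![1 / ((A * B) ^ 2 * (A * B - 1) ^ 3 * ((A * C) ^ 2 * (A * C - 1) ^ 2)),
    1 / ((A * B) ^ 1 * (A * B - 1) ^ 3 * ((A * C) ^ 2 * (A * C - 1) ^ 2)),
    1 / ((A * B) ^ 1 * (A * B - 1) ^ 3 * ((A * C) ^ 1 * (A * C - 1) ^ 3))], by norm_num, ?_, ?_, ?_⟩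
  · rw [Fintype.linearIndependent_iff]
    intro g hg
    rw [Fin.sum_univ_two] at hg
    have e1 := congrArg (fun δ : Derivation ℂ (FractionRing R) (FractionRing R) => δ (A * B)) hg
    have e2 := congrArg (fun δ : Derivation ℂ (FractionRing R) (FractionRing R) => δ (A * C)) hg
    simp only [Derivation.add_apply, Derivation.smul_apply, Derivation.zero_apply, hD0x, hD1x,
      hD0y, hD1y, smul_eq_mul, mul_one, mul_zero, add_zero, zero_add] at e1 e2
    intro i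
    fin_cases i
    · exact e1
    · exact e2
  · intro i O _
    fin_cases i
    · refine ⟨log_mem D hD0x hD0y hD1x hD1y hx0 hx1 hy0 hy1 O 2 3 2 2 (by norm_num) (by norm_num)
        (by norm_num) (by norm_num) (by norm_num) (by norm_num), fun hO => ?_⟩
      obtain ⟨hAO, hBO, hCO, hEO⟩ := memR O hO
      have key := reg_mem D g1 g2 hD0x hD0y hD1x hD1y hA0 hB0 hx1 O hAO hBO hCO hEO hEO
      have e5 : E * (1 / (A * B * (A * B - 1))) ^ 4 =
          1 / ((A * B) ^ 2 * (A * B - 1) ^ 3 * ((A * C) ^ 2 * (A * C - 1) ^ 2)) := by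
        rw [kx, ky]; field_simp
      rw [e5] at key
      exact key
    · refine ⟨log_mem D hD0x hD0y hD1x hD1y hx0 hx1 hy0 hy1 O 1 3 2 2 (by norm_num) (by norm_num)
        (by norm_num) (by norm_num) (by norm_num) (by norm_num), fun hO => ?_⟩
      obtain ⟨hAO, hBO, hCO, hEO⟩ := memR O hO
      have key := reg_mem D g1 g2 hD0x hD0y hD1x hD1y hA0 hB0 hx1 O hAO hBO hCO hEO
        (mul_mem (mul_mem hAO hBO) hEO)
      have e5 : A * B * E * (1 / (A * B * (A * B - 1))) ^ 4 =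
          1 / ((A * B) ^ 1 * (A * B - 1) ^ 3 * ((A * C) ^ 2 * (A * C - 1) ^ 2)) := by
        rw [kx, ky]; field_simp
      rw [e5] at key
      exact key
    · refine ⟨log_mem D hD0x hD0y hD1x hD1y hx0 hx1 hy0 hy1 O 1 3 1 3 (by norm_num) (by norm_num)
        (by norm_num) (by norm_num) (by norm_num) (by norm_num), fun hO => ?_⟩
      obtain ⟨hAO, hBO, hCO, hEO⟩ := memR O hO
      have key := reg_mem D g1 g2 hD0x hD0y hD1x hD1y hA0 hB0 hx1 O hAO hBO hCO hEO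
        (mul_mem (pow_mem hAO 2) hCO)
      have e5 : A ^ 2 * C * (1 / (A * B * (A * B - 1))) ^ 4 =
          1 / ((A * B) ^ 1 * (A * B - 1) ^ 3 * ((A * C) ^ 1 * (A * C - 1) ^ 3)) := by
        rw [kx, ky]; field_simp
      rw [e5] at key
      exact key
  · simp [hx0, hx1, hy0, hy1]
  · have key := algIndep_swap hind hy1 hx0 rfl
    have e6 : (1 / ((A * B) ^ 1 * (A * B - 1) ^ 3 * ((A * C) ^ 2 * (A * C - 1) ^ 2))) /
        (1 / ((A * B) ^ 2 * (A * B - 1) ^ 3 * ((A * C) ^ 2 * (A * C - 1) ^ 2))) = A * B := by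
      field_simp
    have e7 : (1 / ((A * B) ^ 1 * (A * B - 1) ^ 3 * ((A * C) ^ 1 * (A * C - 1) ^ 3))) /
        (1 / ((A * B) ^ 2 * (A * B - 1) ^ 3 * ((A * C) ^ 2 * (A * C - 1) ^ 2))) =
        A * B * (A * C) / (A * C - 1) := by
      field_simp
    show AlgebraicIndependent ℂ ![_ / _, _ / _]
    simp only [Matrix.cons_val_zero, Matrix.cons_val_one, Matrix.cons_val]
    rw [e6, e7]
    exact key

end Pool.Agent.H90.CS
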