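import Mathlib
import Pool.Agent.H90.CS.Alg
import Pool.Agent.H90.CS.LogGen

/-!
# The surface is of log-general type
-/

set_option autoImplicit false

namespace Pool.Agent.H90.CS

theorem logGeneralType_surf : LogGeneralType SurfRing := by
  obtain ⟨D, h0x, h0y, h1x, h1y⟩ := exists_derivations
  exact logGeneral_core ra rb rc rd rel_one rel_two D h0x h0y h1x h1y algIndep_xy

end Pool.Agent.H90.CS
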