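import Mathlib
import Pool.Agent.H90.CS.Defs

/-!
# The surface `a b - c ^ 2 d ^ 3 = 1`, `a c - b d = 1` is smooth
-/

set_option autoImplicit false

namespace Pool.Agent.H90.CS

open MvPolynomial

theorem isSmoothSurface : IsSmoothSurface := by
  intro x hx
  obtain ⟨h1, h2⟩ := hx
  simp only [eqOne, eqTwo, map_sub, map_mul, map_pow, eval_X, map_one] at h1 h2
  have g1 : (fun i : Fin 4 => eval x (pderiv i eqOne)) =
      ![x 1, x 0, -(2 * x 2 * x 3 ^ 3), -(3 * x 2 ^ 2 * x 3 ^ 2)] := by
    funext i
    fin_cases i <;> simp [eqOne, pderiv_X] <;> ring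
  have g2 : (fun i : Fin 4 => eval x (pderiv i eqTwo)) = ![x 2, -x 3, x 0, -x 1] := by
    funext i
    fin_cases i <;> simp [eqTwo, pderiv_X]
  rw [g1, g2, LinearIndependent.pair_iff]
  intro s t hst
  have e0 := congrFun hst 0
  have e1 := congrFun hst 1
  have e2 := congrFun hst 2
  have e3 := congrFun hst 3
  simp at e0 e1 e2 e3
  by_cases hs : s = 0
  · subst hs
    refine ⟨rfl, ?_⟩
    by_contra ht
    have c0 : x 2 = 0 := by simpa [ht] using e0
    have d0 : x 3 = 0 := by simpa [ht] using e1
    rw [c0, d0] at h2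
    simp at h2
  · exfalso
    -- `b = l c`, `a = - l d`
    obtain ⟨l, rfl⟩ : ∃ l, t = -(s * l) := ⟨-(t / s), by field_simp⟩
    have b' : x 1 = l * x 2 := by
      have : s * (x 1 - l * x 2) = 0 := by linear_combination e0
      rcases mul_eq_zero.mp this with h | h
      · exact absurd h hs
      · linear_combination h
    have a' : x 0 = -(l * x 3) := by
      have : s * (x 0 + l * x 3) = 0 := by linear_combination e1
      rcases mul_eq_zero.mp this with h | h
      · exact absurd h hs
      · linear_combination h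
    rw [b', a'] at h1 h2
    have hcd : x 2 * x 3 ≠ 0 := by
      intro h
      have : (-2 : ℂ) * l * (x 2 * x 3) = 1 := by linear_combination h2
      rw [h] at this
      simp at this
    have f2 : x 2 ≠ 0 := left_ne_zero_of_mul hcd
    have f3 : x 3 ≠ 0 := right_ne_zero_of_mul hcd
    have k2 : l ^ 2 = 2 * x 2 * x 3 ^ 2 := by
      have : s * x 3 * (l ^ 2 - 2 * x 2 * x 3 ^ 2) = 0 := by
        rw [a'] at e2; linear_combination e2
      rcases mul_eq_zero.mp this with h | h
      · exact absurd h (mul_ne_zero hs f3)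
      · linear_combination h
    have k3 : l ^ 2 = 3 * x 2 * x 3 ^ 2 := by
      have : s * x 2 * (l ^ 2 - 3 * x 2 * x 3 ^ 2) = 0 := by
        rw [b'] at e3; linear_combination e3
      rcases mul_eq_zero.mp this with h | h
      · exact absurd h (mul_ne_zero hs f2)
      · linear_combination h
    have : x 2 * x 3 ^ 2 = 0 := by linear_combination k2 - k3
    exact absurd this (mul_ne_zero f2 (pow_ne_zero 2 f3))

end Pool.Agent.H90.CS
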