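import Mathlib
import Pool.Agent.H90.CS.Defs

/-!
# Contractibility of the surface: the functions used in the homotopies
-/

set_option autoImplicit false

namespace Pool.Agent.H90.CS

/-- The unit complex number `z / |z|`. -/
noncomputable def ph (z : ℂ) : ℂ := z / ((‖z‖ : ℝ) : ℂ)

/-- Truncation to `[0, 1]`. -/
noncomputable def cl (t : ℝ) : ℝ := max 0 (min 1 t)

/-- The polynomial `y ^ i (y - 1) ^ j`. -/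
def pw (i j : ℕ) (y : ℂ) : ℂ := y ^ i * (y - 1) ^ j

/-- An upper bound for `|y ^ i (y - 1) ^ j|` if `i + j ≤ 5`. -/
noncomputable def KK (v : ℂ) : ℝ := (2 + ‖v‖) ^ 5

/-- The parameter `s`, a function of `r = Re x`. -/
noncomputable def sr (r : ℝ) : ℝ := cl ((4 / 3) * (r - 1 / 8))

/-- Cutoff: `1` for `s ≤ 1/6`, `0` for `s ≥ 1/3`. -/
noncomputable def hc (s : ℝ) : ℝ := cl (2 - 6 * s)

/-- Cutoff: `1` for `s ≤ 1/3`, `0` for `s ≥ 1/2`. -/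
noncomputable def cc (s : ℝ) : ℝ := cl (3 - 6 * s)

/-- Cutoff: `0` for `r ≤ 1/16`, `1` for `r ≥ 1/8`. -/
noncomputable def mu (r : ℝ) : ℝ := cl (16 * r - 1)

/-- The point `(1 - h) v + h / 2`. -/
noncomputable def Yh (h : ℝ) (v : ℂ) : ℂ := (1 - (h : ℂ)) * v + (h : ℂ) / 2

/-- A map from the punctured torus `{(z, w) : |z| = |w| = 1} ∖ {(-1, 1)}` to the plane without
`0` and `1`, homotopy inverse to `y ↦ (y / |y|, (y - 1) / |y - 1|)`. -/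
noncomputable def Gm (z w : ℂ) : ℂ :=
  1 / 2 + ((((1 + z.re) - (1 - w.re) : ℝ) : ℂ) +
    ((z.im * (1 - w.re) + w.im * (1 + z.re) : ℝ) : ℂ) * Complex.I) /
      (((1 + z.re) + (1 - w.re) : ℝ) : ℂ)

/-- The domain of a chart: pairs `(T, Y)` with `T ≠ 0` and `T ≠ Y ^ i (Y - 1) ^ j`. -/
def DD (i j : ℕ) : Set (ℂ × ℂ) := {q | q.1 ≠ 0 ∧ q.1 ≠ pw i j q.2}

/-- The half of the surface seen in a chart: triples `(x, T, y)` with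
`x T = y ^ i (y - 1) ^ j`, `T ≠ 0` and `Re x ≤ 1 / 2`. -/
def HH (i j : ℕ) : Set (ℂ × ℂ × ℂ) :=
  {p | p.1 * p.2.1 = pw i j p.2.2 ∧ p.2.1 ≠ 0 ∧ p.1.re ≤ 1 / 2}

/-- `(1 - μ) T + μ y ^ i (y - 1) ^ j / x_k` with `x_k = (1 - k) x + k / 2`. -/
noncomputable def RR (i j : ℕ) (k : ℝ) (p : ℂ × ℂ × ℂ) : ℂ :=
  (1 - ((mu p.1.re : ℝ) : ℂ)) * p.2.1 +
    ((mu p.1.re : ℝ) : ℂ) * (pw i j p.2.2 / ((1 - (k : ℂ)) * p.1 + (k : ℂ) / 2))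

/-- The value of the cutoff `hc` at a point. -/
noncomputable def hp (p : ℂ × ℂ × ℂ) : ℝ := hc (sr p.1.re)

/-- The value of the cutoff `cc` at a point. -/
noncomputable def cp (p : ℂ × ℂ × ℂ) : ℝ := cc (sr p.1.re)

/-- The modulus `2 ((1 - h) |y| + h) ^ i ((1 - h) |y - 1| + h) ^ j`. -/
noncomputable def mb (i j : ℕ) (p : ℂ × ℂ × ℂ) : ℝ :=
  2 * ((1 - hp p) * ‖p.2.2‖ + hp p) ^ i * ((1 - hp p) * ‖p.2.2 - 1‖ + hp p) ^ j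

/-- First homotopy in a chart. -/
noncomputable def stepA (i j : ℕ) (q : ℝ × (ℂ × ℂ × ℂ)) : ℂ × ℂ :=
  (RR i j q.1 q.2 + ((q.1 * cp q.2 * (KK q.2.2.2 + KK (Yh (hp q.2) q.2.2.2)) : ℝ) : ℂ) *
    ph (RR i j q.1 q.2), q.2.2.2)

/-- Second homotopy in a chart. -/
noncomputable def stepB (i j : ℕ) (q : ℝ × (ℂ × ℂ × ℂ)) : ℂ × ℂ :=
  ((((1 - q.1) * ‖RR i j 1 q.2‖ + q.1 * mb i j q.2 +
      cp q.2 * (KK q.2.2.2 + KK (Yh (hp q.2) q.2.2.2)) : ℝ) : ℂ) * ph (RR i j 1 q.2),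
    (1 - (q.1 : ℂ)) * q.2.2.2 + (q.1 : ℂ) * Yh (hp q.2) q.2.2.2)

/-- Third homotopy in a chart. -/
noncomputable def stepC (i j : ℕ) (q : ℝ × (ℂ × ℂ × ℂ)) : ℂ × ℂ :=
  (((mb i j q.2 + cp q.2 * ((1 - q.1) * KK q.2.2.2 + KK (Yh (hp q.2) q.2.2.2)) : ℝ) : ℂ) *
    ph (RR i j 1 q.2), Yh (hp q.2) q.2.2.2)

/-- The side function. -/
noncomputable def SF (i j : ℕ) (s : ℝ) (u z w v : ℂ) : ℂ × ℂ :=
  if s ≤ 1 / 6 then (((2 + KK (1 / 2) : ℝ) : ℂ) * u, 1 / 2)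
  else
    (((2 * ‖((1 - (hc s : ℂ)) * v + (hc s : ℂ) * z) ^ i *
          ((1 - (hc s : ℂ)) * (v - 1) + (hc s : ℂ) * w) ^ j‖ + cc s * KK (Yh (hc s) v) : ℝ) : ℂ) *
      ph (((1 - (hc s : ℂ)) * v + (hc s : ℂ) * z) ^ i *
          ((1 - (hc s : ℂ)) * (v - 1) + (hc s : ℂ) * w) ^ j), Yh (hc s) v)

/-- Fourth homotopy in a chart. -/
noncomputable def stepD (i j : ℕ) (q : ℝ × (ℂ × ℂ × ℂ)) : ℂ × ℂ :=
  SF i j (sr q.2.1.re) (ph (RR i j 1 q.2)) (ph q.2.2.2) (ph (q.2.2.2 - 1))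
    ((1 - (q.1 : ℂ)) * q.2.2.2 + (q.1 : ℂ) * Gm (ph q.2.2.2) (ph (q.2.2.2 - 1)))

/-- The chart of the surface on which `c d ≠ 0`; here `T = c d` and `Y = a c`. -/
noncomputable def mk0 (q : ℂ × ℂ) : Fin 4 → ℂ :=
  ![q.2 * (pw 1 1 q.2 - q.1) / q.1 ^ 4, (q.2 - 1) * q.1 ^ 3 / (pw 1 1 q.2 - q.1),
    q.1 ^ 4 / (pw 1 1 q.2 - q.1), (pw 1 1 q.2 - q.1) / q.1 ^ 3]

/-- The chart of the surface on which `a b ≠ 0`; here `T = - a ^ 2 b ^ 3` and `Y = a c`. -/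
noncomputable def mk1 (q : ℂ × ℂ) : Fin 4 → ℂ :=
  ![(pw 2 3 q.2 - q.1) ^ 3 / q.1 ^ 4, - q.1 ^ 3 / (pw 2 3 q.2 - q.1) ^ 2,
    q.2 * q.1 ^ 4 / (pw 2 3 q.2 - q.1) ^ 3, - ((q.2 - 1) * (pw 2 3 q.2 - q.1) ^ 2) / q.1 ^ 3]

/-- The coordinates `(x, T, y) = (a b, c d, a c)` of the first chart. -/
def co0 (p : Fin 4 → ℂ) : ℂ × ℂ × ℂ := (p 0 * p 1, p 2 * p 3, p 0 * p 2)

/-- The coordinates `(1 - a b, - a ^ 2 b ^ 3, a c)` of the second chart. -/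
def co1 (p : Fin 4 → ℂ) : ℂ × ℂ × ℂ := (1 - p 0 * p 1, -(p 0 ^ 2 * p 1 ^ 3), p 0 * p 2)

/-- The star-shaped set of pairs `(ζ₀, ζ₁) ≠ 0` which are not both negative real numbers. -/
def ZZ : Set (ℂ × ℂ) :=
  {q | q ≠ 0 ∧ ¬ ((q.1.re < 0 ∧ q.1.im = 0) ∧ (q.2.re < 0 ∧ q.2.im = 0))}

/-- The join parameter of `(ζ₀, ζ₁)`. -/
noncomputable def sz (q : ℂ × ℂ) : ℝ := ‖q.2‖ / (‖q.1‖ + ‖q.2‖)

/-- The first phase attached to `(ζ₀, ζ₁)`. -/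
noncomputable def zz (q : ℂ × ℂ) : ℂ := - ph q.1 ^ 3 / ph q.2

/-- The second phase attached to `(ζ₀, ζ₁)`. -/
noncomputable def ww (q : ℂ × ℂ) : ℂ := - ph q.2 / ph q.1 ^ 2

/-- The map from `ZZ` to the surface. -/
noncomputable def TT (q : ℂ × ℂ) : Fin 4 → ℂ :=
  if ‖q.2‖ ≤ ‖q.1‖ then mk0 (SF 1 1 (sz q) (ph q.1) (zz q) (ww q) (Gm (zz q) (ww q)))
  else mk1 (SF 2 3 (1 - sz q) (- ph q.2) (zz q) (ww q) (Gm (zz q) (ww q)))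

/-- The map from the surface to `ZZ`. -/
noncomputable def FF (p : Fin 4 → ℂ) : ℂ × ℂ :=
  ((1 - (sr (p 0 * p 1).re : ℂ)) * ph (RR 1 1 1 (co0 p)),
    -((sr (p 0 * p 1).re : ℂ) * ph (RR 2 3 1 (co1 p))))

end Pool.Agent.H90.CS
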