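import Mathlib
import Pool.Agent.H90.CS.TDefs

/-!
# The retraction `Gm` of the punctured torus: elementary estimates
-/

set_option autoImplicit false

namespace Pool.Agent.H90.CS
open Set

theorem T1.Gm_re (z w : ℂ) : (Gm z w).re =
    1 / 2 + ((1 + z.re) - (1 - w.re)) / ((1 + z.re) + (1 - w.re)) := by
  unfold Gm
  rw [Complex.add_re, Complex.div_ofReal_re, Complex.add_re, Complex.re_ofReal_mul]
  simp

theorem T1.Gm_im (z w : ℂ) : (Gm z w).im =
    (z.im * (1 - w.re) + w.im * (1 + z.re)) / ((1 + z.re) + (1 - w.re)) := by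
  unfold Gm
  rw [Complex.add_im, Complex.div_ofReal_im, Complex.add_im, Complex.im_ofReal_mul]
  simp

theorem T1.sq_of_norm_one {z : ℂ} (hz : ‖z‖ = 1) : z.re ^ 2 + z.im ^ 2 = 1 := by
  have h : ‖z‖ ^ 2 = 1 := by rw [hz]; norm_num
  rw [Complex.sq_norm, Complex.normSq_apply] at h
  nlinarith [h]

theorem T1.Gm_den_pos (z w : ℂ) (hz : ‖z‖ = 1) (hw : ‖w‖ = 1) (hne : ¬ (z = -1 ∧ w = 1)) :
    0 < (1 + z.re) + (1 - w.re) := by
  have h1 := T1.sq_of_norm_one hz
  have h2 := T1.sq_of_norm_one hw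
  have a1 : -1 ≤ z.re := by nlinarith [sq_nonneg z.im]
  have a2 : w.re ≤ 1 := by nlinarith [sq_nonneg w.im]
  by_contra hcon
  push Not at hcon
  have b1 : z.re = -1 := by linarith
  have b2 : w.re = 1 := by linarith
  have c1 : z.im = 0 := by
    rw [b1] at h1
    have : z.im ^ 2 = 0 := by linarith
    exact pow_eq_zero_iff (two_ne_zero) |>.1 this
  have c2 : w.im = 0 := by
    rw [b2] at h2
    have : w.im ^ 2 = 0 := by linarith
    exact pow_eq_zero_iff (two_ne_zero) |>.1 this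
  apply hne
  constructor
  · apply Complex.ext <;> simp [b1, c1]
  · apply Complex.ext <;> simp [b2, c2]

/-- The real algebra behind `Gm_seg0`. -/
theorem T1.seg0_real (u v s t h : ℝ) (hz : u ^ 2 + v ^ 2 = 1) (hw : s ^ 2 + t ^ 2 = 1)
    (hpos : 0 < (1 + u) + (1 - s)) (h0 : 0 ≤ h) (h1 : h < 1)
    (e1 : (1 - h) * ((3 * (1 + u) - (1 - s)) / 2) + h * ((1 + u) + (1 - s)) * u = 0)
    (e2 : (1 - h) * (v * (1 - s) + t * (1 + u)) + h * ((1 + u) + (1 - s)) * v = 0) : False := by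
  have hu1 : u ≤ 1 := by nlinarith [sq_nonneg v]
  have hum : -1 ≤ u := by nlinarith [sq_nonneg v]
  have hs1 : s ≤ 1 := by nlinarith [sq_nonneg t]
  have hsm : -1 ≤ s := by nlinarith [sq_nonneg t]
  obtain ⟨E, hE⟩ : ∃ E : ℝ, E = (3 * (1 + u) - (1 - s)) / 2 := ⟨_, rfl⟩
  obtain ⟨F, hF⟩ : ∃ F : ℝ, F = v * (1 - s) + t * (1 + u) := ⟨_, rfl⟩
  rw [← hE] at e1
  rw [← hF] at e2
  have hh : 0 < 1 - h := by linarith
  have hne : (1 - h) ≠ 0 := ne_of_gt hh
  have q1 : u * F = v * E := by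
    have : (1 - h) * (u * F - v * E) = 0 := by linear_combination u * e2 - v * e1
    have := (mul_eq_zero.1 this).resolve_left hne
    linarith
  have q2 : u * E + v * F ≤ 0 := by
    have h3 : (1 - h) * (u * E + v * F) = - (h * ((1 + u) + (1 - s))) := by
      linear_combination u * e1 + v * e2 - h * ((1 + u) + (1 - s)) * hz
    by_contra hcon
    push Not at hcon
    have h4 : 0 < (1 - h) * (u * E + v * F) := mul_pos hh hcon
    have h5 : 0 ≤ h * ((1 + u) + (1 - s)) := mul_nonneg h0 hpos.le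
    linarith
  have q3 : u * (u * E + v * F) = E := by
    linear_combination v * q1 + E * hz
  rcases lt_trichotomy u 0 with hu | hu | hu
  · -- u < 0
    have hE0 : 0 ≤ E := by
      rw [← q3]
      exact mul_nonneg_of_nonpos_of_nonpos hu.le q2
    rcases eq_or_lt_of_le hum with hP | hP
    · -- u = -1
      have hu' : u = -1 := hP.symm
      have : (1 - h) * E + h * ((1 + u) + (1 - s)) * u = 0 := e1
      rw [hE, hu'] at this
      rw [hu'] at hpos
      have h5 : 0 < (1 + h) * (1 - s) := mul_pos (by linarith) (by linarith)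
      nlinarith
    · obtain ⟨k, hk⟩ : ∃ k : ℝ, k = -u := ⟨_, rfl⟩
      have hk0 : 0 < k := by linarith
      have hk1 : k < 1 := by linarith
      have huk : u = -k := by linarith
      have hP0 : 0 < 1 - k := by linarith
      obtain ⟨Q, hQ⟩ : ∃ Q : ℝ, Q = 1 - s := ⟨_, rfl⟩
      have hQ0 : 0 ≤ Q := by linarith
      have hsQ : s = 1 - Q := by linarith
      subst huk
      subst hsQ
      have r1 : -(k * t * (1 - k)) = v * (E + k * Q) := by
        rw [hF] at q1
        linear_combination q1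
      have r2 : (k * t * (1 - k)) ^ 2 = v ^ 2 * (E + k * Q) ^ 2 := by
        have : (-(k * t * (1 - k))) ^ 2 = (v * (E + k * Q)) ^ 2 := by rw [r1]
        linear_combination this
      have ht2 : t ^ 2 = Q * (2 - Q) := by linear_combination hw
      have hv2 : v ^ 2 = (1 - k) * (1 + k) := by linear_combination hz
      have r3 : (1 - k) * ((k * Q) * (2 - Q) * (k * (1 - k)) - (1 + k) * (E + k * Q) ^ 2) = 0 := by
        have : (k * (1 - k)) ^ 2 * t ^ 2 = v ^ 2 * (E + k * Q) ^ 2 := by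
          linear_combination r2
        rw [ht2, hv2] at this
        linear_combination this
      have r4 := (mul_eq_zero.1 r3).resolve_left (ne_of_gt hP0)
      have hEQ : 3 * (1 - k) = 2 * E + Q := by
        rw [hE]; ring
      obtain ⟨B, hB⟩ : ∃ B : ℝ, B = k * Q := ⟨_, rfl⟩
      have hB0 : 0 ≤ B := by rw [hB]; exact mul_nonneg hk0.le hQ0
      have hkP : k * (1 - k) = (2 * k * E + B) / 3 := by
        rw [hB]; linear_combination (k / 3) * hEQ
      rw [← hB, hkP] at r4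
      have hkEB : 0 ≤ 2 * k * E + B := by positivity
      have r5 : (1 + k) * (E + B) ^ 2 ≤ B * 2 * ((2 * k * E + B) / 3) := by
        have h6 : 0 ≤ B * Q * ((2 * k * E + B) / 3) := by positivity
        nlinarith
      have r6 : E ^ 2 + B ^ 2 / 3 ≤ 0 := by
        have t1 : 0 ≤ k * E ^ 2 := by positivity
        have t2 : 0 ≤ k * B ^ 2 := by positivity
        have t3 : 0 ≤ E * B := by positivity
        have t4 : 0 ≤ k * (E * B) := by positivity
        nlinarith
      have hE00 : E = 0 := by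
        have : E ^ 2 ≤ 0 := by nlinarith [sq_nonneg B]
        have : E ^ 2 = 0 := le_antisymm this (sq_nonneg E)
        exact pow_eq_zero_iff (two_ne_zero) |>.1 this
      have hB00 : B = 0 := by
        have : B ^ 2 ≤ 0 := by nlinarith [sq_nonneg E]
        have : B ^ 2 = 0 := le_antisymm this (sq_nonneg B)
        exact pow_eq_zero_iff (two_ne_zero) |>.1 this
      have hQ00 : Q = 0 := by
        rw [hB] at hB00
        exact (mul_eq_zero.1 hB00).resolve_left (ne_of_gt hk0)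
      rw [hE00, hQ00] at hEQ
      linarith
  · -- u = 0
    subst hu
    have hv : v ≠ 0 := by
      intro hv
      rw [hv] at hz
      norm_num at hz
    have : E = 0 := by
      have : v * E = 0 := by rw [← q1]; ring
      exact (mul_eq_zero.1 this).resolve_left hv
    linarith
  · -- u > 0
    have : E ≤ 0 := by
      rw [← q3]
      exact mul_nonpos_of_nonneg_of_nonpos hu.le q2
    linarith

theorem Gm_seg0 (z w : ℂ) (hz : ‖z‖ = 1) (hw : ‖w‖ = 1) (hne : ¬ (z = -1 ∧ w = 1)) (h : ℝ)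
    (h0 : 0 ≤ h) (h1 : h ≤ 1) : (1 - (h : ℂ)) * Gm z w + (h : ℂ) * z ≠ 0 := by
  intro heq
  have hpos := T1.Gm_den_pos z w hz hw hne
  have hzz := T1.sq_of_norm_one hz
  have hww := T1.sq_of_norm_one hw
  rcases eq_or_lt_of_le h1 with h1' | h1'
  · rw [h1'] at heq
    simp only [Complex.ofReal_one, sub_self, zero_mul, one_mul, zero_add] at heq
    rw [heq] at hz
    simp at hz
  · have hcast : (1 - (h : ℂ)) = (((1 - h : ℝ)) : ℂ) := by push_cast; ring
    rw [hcast] at heq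
    have e1 := congrArg Complex.re heq
    have e2 := congrArg Complex.im heq
    rw [Complex.add_re, Complex.re_ofReal_mul, Complex.re_ofReal_mul, T1.Gm_re, Complex.zero_re] at e1
    rw [Complex.add_im, Complex.im_ofReal_mul, Complex.im_ofReal_mul, T1.Gm_im, Complex.zero_im] at e2
    have hd : (1 + z.re) + (1 - w.re) ≠ 0 := ne_of_gt hpos
    refine T1.seg0_real z.re z.im w.re w.im h hzz hww hpos h0 h1' ?_ ?_
    · field_simp at e1
      linear_combination (1 / 2) * e1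
    · field_simp at e2
      linear_combination e2

/-- The symmetry of `Gm`. -/
theorem T1.Gm_symm (z w : ℂ) (hd : 0 < (1 + z.re) + (1 - w.re)) : Gm (-w) (-z) = 1 - Gm z w := by
  have hd' : (1 + z.re) + (1 - w.re) ≠ 0 := ne_of_gt hd
  have hd2 : (1 + -w.re) + (1 - -z.re) ≠ 0 := by
    intro h; apply hd'; linarith
  apply Complex.ext
  · rw [Complex.sub_re, T1.Gm_re, T1.Gm_re, Complex.neg_re, Complex.neg_re, Complex.one_re]
    have : (1 + -w.re) + (1 - -z.re) = (1 + z.re) + (1 - w.re) := by ring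
    rw [this]
    field_simp
    ring
  · rw [Complex.sub_im, T1.Gm_im, T1.Gm_im, Complex.neg_re, Complex.neg_re, Complex.neg_im,
      Complex.neg_im, Complex.one_im]
    have : (1 + -w.re) + (1 - -z.re) = (1 + z.re) + (1 - w.re) := by ring
    rw [this]
    field_simp
    ring

theorem Gm_seg1 (z w : ℂ) (hz : ‖z‖ = 1) (hw : ‖w‖ = 1) (hne : ¬ (z = -1 ∧ w = 1)) (h : ℝ)
    (h0 : 0 ≤ h) (h1 : h ≤ 1) : (1 - (h : ℂ)) * (Gm z w - 1) + (h : ℂ) * w ≠ 0 := by
  intro heq
  have hs := T1.Gm_symm z w (T1.Gm_den_pos z w hz hw hne)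
  refine Gm_seg0 (-w) (-z) (by rw [norm_neg, hw]) (by rw [norm_neg, hz]) ?_ h h0 h1 ?_
  · rintro ⟨ha, hb⟩
    apply hne
    constructor
    · rw [← hb, neg_neg]
    · rw [neg_inj] at ha
      exact ha
  · rw [hs]
    linear_combination -heq

theorem T1.ph_re (y : ℂ) : (ph y).re = y.re / ‖y‖ := by
  unfold ph
  rw [Complex.div_ofReal_re]

theorem T1.ph_im (y : ℂ) : (ph y).im = y.im / ‖y‖ := by
  unfold ph
  rw [Complex.div_ofReal_im]

theorem T1.norm_ph' {z : ℂ} (hz : z ≠ 0) : ‖ph z‖ = 1 := by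
  unfold ph
  rw [norm_div, Complex.norm_real, norm_norm]
  exact div_self (norm_ne_zero_iff.2 hz)

theorem T1.ph_neg' (z : ℂ) : ph (-z) = - ph z := by
  unfold ph
  rw [norm_neg, neg_div]

theorem ph_pair_ne (y : ℂ) (h0 : y ≠ 0) (h1 : y ≠ 1) : ¬ (ph y = -1 ∧ ph (y - 1) = 1) := by
  rintro ⟨ha, hb⟩
  have hy : 0 < ‖y‖ := norm_pos_iff.2 h0
  have hy1 : 0 < ‖y - 1‖ := norm_pos_iff.2 (sub_ne_zero.2 h1)
  have e1 := congrArg Complex.re ha
  have e2 := congrArg Complex.re hb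
  rw [T1.ph_re, Complex.neg_re, Complex.one_re, div_eq_iff (ne_of_gt hy)] at e1
  rw [T1.ph_re, Complex.sub_re, Complex.one_re, div_eq_iff (ne_of_gt hy1)] at e2
  linarith

/-- The imaginary part of `Gm (ph y) (ph (y - 1))` has the sign of the imaginary part of `y`. -/
theorem T1.Gm_ph_im (y : ℂ) (hy0 : y ≠ 0) (hy1 : y ≠ 1) :
    ∃ c : ℝ, 0 < c ∧ (Gm (ph y) (ph (y - 1))).im = c * y.im := by
  have hy : 0 < ‖y‖ := norm_pos_iff.2 hy0
  have hy1' : 0 < ‖y - 1‖ := norm_pos_iff.2 (sub_ne_zero.2 hy1)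
  have n1 := T1.norm_ph' hy0
  have n2 := T1.norm_ph' (sub_ne_zero.2 hy1)
  have hpos := T1.Gm_den_pos _ _ n1 n2 (ph_pair_ne y hy0 hy1)
  have s1 := T1.sq_of_norm_one n1
  have s2 := T1.sq_of_norm_one n2
  have hP : 0 ≤ 1 + (ph y).re := by nlinarith [sq_nonneg (ph y).im]
  have hQ : 0 ≤ 1 - (ph (y - 1)).re := by nlinarith [sq_nonneg (ph (y - 1)).im]
  obtain ⟨P, hPd⟩ : ∃ P : ℝ, P = 1 + (ph y).re := ⟨_, rfl⟩
  obtain ⟨Q, hQd⟩ : ∃ Q : ℝ, Q = 1 - (ph (y - 1)).re := ⟨_, rfl⟩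
  rw [← hPd] at hP hpos
  rw [← hQd] at hQ hpos
  refine ⟨(Q / ‖y‖ + P / ‖y - 1‖) / (P + Q), ?_, ?_⟩
  · refine div_pos ?_ hpos
    rcases eq_or_lt_of_le hP with h | h
    · have hQ' : 0 < Q := by linarith
      have : 0 < Q / ‖y‖ := div_pos hQ' hy
      have : 0 ≤ P / ‖y - 1‖ := div_nonneg hP hy1'.le
      linarith
    · have : 0 ≤ Q / ‖y‖ := div_nonneg hQ hy.le
      have : 0 < P / ‖y - 1‖ := div_pos h hy1'
      linarith
  · rw [T1.Gm_im, ← hPd, ← hQd, T1.ph_im, T1.ph_im, Complex.sub_im, Complex.one_im]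
    have h3 : P + Q ≠ 0 := ne_of_gt hpos
    field_simp
    ring

/-- For `y` real, `Gm (ph y) (ph (y - 1))` is real of the sign of `y`. -/
theorem T1.Gm_ph_re (y : ℂ) (hy0 : y ≠ 0) (hy1 : y ≠ 1) (him : y.im = 0) :
    (0 < y.re → 0 < (Gm (ph y) (ph (y - 1))).re) ∧
    (y.re < 0 → (Gm (ph y) (ph (y - 1))).re < 0) := by
  have hy : 0 < ‖y‖ := norm_pos_iff.2 hy0
  have hy1' : 0 < ‖y - 1‖ := norm_pos_iff.2 (sub_ne_zero.2 hy1)
  have hyr : y = ((y.re : ℝ) : ℂ) := by
    apply Complex.ext <;> simp [him]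
  have hny : ‖y‖ = |y.re| := by
    rw [hyr, Complex.norm_real, Real.norm_eq_abs, Complex.ofReal_re]
  have hny1 : ‖y - 1‖ = |y.re - 1| := by
    have : y - 1 = (((y.re - 1 : ℝ)) : ℂ) := by
      apply Complex.ext <;> simp [him]
    rw [this, Complex.norm_real, Real.norm_eq_abs]
  have hyre1 : y.re ≠ 1 := by
    intro h
    apply hy1
    rw [hyr, h, Complex.ofReal_one]
  have n2 := T1.norm_ph' (sub_ne_zero.2 hy1)
  have s2 := T1.sq_of_norm_one n2
  have hQ : -1 ≤ (ph (y - 1)).re := by nlinarith [sq_nonneg (ph (y - 1)).im]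
  have hQ1 : (ph (y - 1)).re ≤ 1 := by nlinarith [sq_nonneg (ph (y - 1)).im]
  constructor
  · intro hpos
    have hp : (ph y).re = 1 := by
      rw [T1.ph_re, hny, abs_of_pos hpos]
      exact div_self (ne_of_gt hpos)
    rw [T1.Gm_re, hp]
    have hden : 0 < (1 + 1 : ℝ) + (1 - (ph (y - 1)).re) := by linarith
    have : 0 ≤ ((1 + 1 : ℝ) - (1 - (ph (y - 1)).re)) / ((1 + 1) + (1 - (ph (y - 1)).re)) := by
      apply div_nonneg _ hden.le
      linarith
    linarith
  · intro hneg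
    have hp : (ph y).re = -1 := by
      rw [T1.ph_re, hny, abs_of_neg hneg, div_neg, div_self (ne_of_lt hneg)]
    have hq : (ph (y - 1)).re = -1 := by
      rw [T1.ph_re, hny1, abs_of_neg (by linarith), Complex.sub_re, Complex.one_re]
      have : y.re - 1 ≠ 0 := by linarith
      rw [div_neg, div_self this]
    rw [T1.Gm_re, hp, hq]
    norm_num

theorem Gm_path0 (y : ℂ) (hy0 : y ≠ 0) (hy1 : y ≠ 1) (k h : ℝ) (k0 : 0 ≤ k) (k1 : k ≤ 1)
    (h0 : 0 ≤ h) (h1 : h ≤ 1) :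
    (1 - (h : ℂ)) * ((1 - (k : ℂ)) * y + (k : ℂ) * Gm (ph y) (ph (y - 1))) + (h : ℂ) * ph y ≠ 0 := by
  intro heq
  have hy : 0 < ‖y‖ := norm_pos_iff.2 hy0
  have hcast : (1 - (h : ℂ)) = (((1 - h : ℝ)) : ℂ) := by push_cast; ring
  have kcast : (1 - (k : ℂ)) = (((1 - k : ℝ)) : ℂ) := by push_cast; ring
  rw [hcast, kcast] at heq
  have e1 := congrArg Complex.re heq
  have e2 := congrArg Complex.im heq
  rw [Complex.add_re, Complex.re_ofReal_mul, Complex.re_ofReal_mul, Complex.add_re,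
    Complex.re_ofReal_mul, Complex.re_ofReal_mul, Complex.zero_re] at e1
  rw [Complex.add_im, Complex.im_ofReal_mul, Complex.im_ofReal_mul, Complex.add_im,
    Complex.im_ofReal_mul, Complex.im_ofReal_mul, Complex.zero_im] at e2
  obtain ⟨c, hc, hcim⟩ := T1.Gm_ph_im y hy0 hy1
  have hpos2 : 0 < ‖y‖⁻¹ := inv_pos.2 hy
  -- the positivity of convex combinations
  have conv : ∀ a b d : ℝ, 0 < a → 0 < b → 0 < d →
      0 < (1 - h) * ((1 - k) * a + k * b) + h * d := by
    intro a b d ha hb hd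
    have i1 : 0 < (1 - k) * a + k * b := by
      rcases eq_or_lt_of_le k0 with hk | hk
      · rw [← hk]; linarith
      · have : 0 < k * b := mul_pos hk hb
        have : 0 ≤ (1 - k) * a := mul_nonneg (by linarith) ha.le
        linarith
    rcases eq_or_lt_of_le h0 with hh | hh
    · rw [← hh]; linarith
    · have : 0 < h * d := mul_pos hh hd
      have : 0 ≤ (1 - h) * ((1 - k) * a + k * b) := mul_nonneg (by linarith) i1.le
      linarith
  have him : y.im = 0 := by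
    rw [hcim, T1.ph_im, div_eq_mul_inv] at e2
    have e3 : ((1 - h) * ((1 - k) * 1 + k * c) + h * ‖y‖⁻¹) * y.im = 0 := by
      linear_combination e2
    exact (mul_eq_zero.1 e3).resolve_left (ne_of_gt (conv 1 c _ one_pos hc hpos2))
  obtain ⟨g1, g2⟩ := T1.Gm_ph_re y hy0 hy1 him
  rw [T1.ph_re, div_eq_mul_inv] at e1
  rcases lt_trichotomy y.re 0 with hr | hr | hr
  · have g3 := g2 hr
    have h4 : 0 < (-y.re) * ‖y‖⁻¹ := mul_pos (by linarith) hpos2
    have := conv (-y.re) (-(Gm (ph y) (ph (y - 1))).re) _ (by linarith) (by linarith) h4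
    nlinarith
  · apply hy0
    apply Complex.ext
    · rw [hr, Complex.zero_re]
    · rw [him, Complex.zero_im]
  · have g3 := g1 hr
    have h4 : 0 < y.re * ‖y‖⁻¹ := mul_pos hr hpos2
    have := conv y.re (Gm (ph y) (ph (y - 1))).re _ hr g3 h4
    linarith

theorem Gm_path1 (y : ℂ) (hy0 : y ≠ 0) (hy1 : y ≠ 1) (k h : ℝ) (k0 : 0 ≤ k) (k1 : k ≤ 1)
    (h0 : 0 ≤ h) (h1 : h ≤ 1) :
    (1 - (h : ℂ)) * ((1 - (k : ℂ)) * y + (k : ℂ) * Gm (ph y) (ph (y - 1)) - 1) +
      (h : ℂ) * ph (y - 1) ≠ 0 := by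
  intro heq
  have n1 := T1.norm_ph' hy0
  have n2 := T1.norm_ph' (sub_ne_zero.2 hy1)
  have hs := T1.Gm_symm _ _ (T1.Gm_den_pos _ _ n1 n2 (ph_pair_ne y hy0 hy1))
  have a1 : ph (1 - y) = - ph (y - 1) := by
    rw [← T1.ph_neg', neg_sub]
  have a2 : ph (1 - y - 1) = - ph y := by
    rw [← T1.ph_neg']
    congr 1
    ring
  refine Gm_path0 (1 - y) (sub_ne_zero.2 (Ne.symm hy1)) ?_ k h k0 k1 h0 h1 ?_
  · intro h
    apply hy0
    linear_combination -h
  · rw [a1, a2, hs]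
    linear_combination -heq

theorem Gm_continuousOn : ContinuousOn (fun q : ℂ × ℂ => Gm q.1 q.2)
    {q | ‖q.1‖ = 1 ∧ ‖q.2‖ = 1 ∧ ¬ (q.1 = -1 ∧ q.2 = 1)} := by
  unfold Gm
  refine ContinuousOn.add continuousOn_const (ContinuousOn.div ?_ ?_ ?_)
  · exact Continuous.continuousOn (by fun_prop)
  · exact Continuous.continuousOn (by fun_prop)
  · rintro q ⟨h1, h2, h3⟩
    have := T1.Gm_den_pos q.1 q.2 h1 h2 h3
    exact_mod_cast ne_of_gt this

end Pool.Agent.H90.CS
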