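import Mathlib
import Pool.Agent.H90.CS.TDefs

/-!
# The side function
-/

set_option autoImplicit false

namespace Pool.Agent.H90.CS

open Set

theorem norm_ph {z : ℂ} (hz : z ≠ 0) : ‖ph z‖ = 1 := by
  unfold ph
  rw [norm_div, Complex.norm_real, norm_norm]
  exact div_self (norm_ne_zero_iff.mpr hz)

theorem norm_mul_ph (z : ℂ) : ((‖z‖ : ℝ) : ℂ) * ph z = z := by
  unfold ph
  by_cases hz : z = 0
  · subst hz
    simp
  · have h : ((‖z‖ : ℝ) : ℂ) ≠ 0 := Complex.ofReal_ne_zero.mpr (norm_ne_zero_iff.mpr hz)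
    exact mul_div_cancel₀ z h

theorem ph_mul (z w : ℂ) : ph (z * w) = ph z * ph w := by
  unfold ph
  rw [norm_mul, Complex.ofReal_mul, mul_div_mul_comm]

theorem ph_real_mul {r : ℝ} (hr : 0 < r) (z : ℂ) : ph ((r : ℂ) * z) = ph z := by
  have h : ph (r : ℂ) = 1 := by
    unfold ph
    rw [Complex.norm_real, Real.norm_of_nonneg hr.le]
    exact div_self (Complex.ofReal_ne_zero.mpr hr.ne')
  rw [ph_mul, h, one_mul]

theorem ph_of_norm_one {z : ℂ} (hz : ‖z‖ = 1) : ph z = z := by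
  unfold ph
  rw [hz]
  simp

theorem ph_continuousOn : ContinuousOn ph {z | z ≠ 0} := by
  unfold ph
  refine ContinuousOn.div continuousOn_id ?_ ?_
  · exact (Complex.continuous_ofReal.comp continuous_norm).continuousOn
  · intro z hz
    exact Complex.ofReal_ne_zero.mpr (norm_ne_zero_iff.mpr hz)

theorem cl_nonneg (t : ℝ) : 0 ≤ cl t := le_max_left _ _

theorem cl_le_one (t : ℝ) : cl t ≤ 1 := max_le zero_le_one (min_le_left _ _)

theorem cl_of_nonpos {t : ℝ} (ht : t ≤ 0) : cl t = 0 :=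
  max_eq_left ((min_le_right _ _).trans ht)

theorem cl_of_one_le {t : ℝ} (ht : 1 ≤ t) : cl t = 1 := by
  unfold cl
  rw [min_eq_left ht]
  exact max_eq_right zero_le_one

theorem cl_continuous : Continuous cl := by
  unfold cl
  fun_prop

theorem hc_continuous : Continuous hc := by
  unfold hc
  exact cl_continuous.comp (by fun_prop)

theorem cc_continuous : Continuous cc := by
  unfold cc
  exact cl_continuous.comp (by fun_prop)

theorem mu_continuous : Continuous mu := by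
  unfold mu
  exact cl_continuous.comp (by fun_prop)

theorem sr_continuous : Continuous sr := by
  unfold sr
  exact cl_continuous.comp (by fun_prop)

theorem hc_of_le {s : ℝ} (h : s ≤ 1 / 6) : hc s = 1 := cl_of_one_le (by linarith)

theorem hc_of_ge {s : ℝ} (h : 1 / 3 ≤ s) : hc s = 0 := cl_of_nonpos (by linarith)

theorem cc_of_le {s : ℝ} (h : s ≤ 1 / 3) : cc s = 1 := cl_of_one_le (by linarith)

theorem cc_of_ge {s : ℝ} (h : 1 / 2 ≤ s) : cc s = 0 := cl_of_nonpos (by linarith)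

theorem KK_pos (v : ℂ) : 0 < KK v := by
  unfold KK
  have := norm_nonneg v
  positivity

theorem KK_continuous : Continuous KK := by
  unfold KK
  fun_prop

theorem pw_continuous (i j : ℕ) : Continuous (pw i j) := by
  unfold pw
  fun_prop

theorem norm_pw_lt (i j : ℕ) (hij : i + j ≤ 5) (v : ℂ) : ‖pw i j v‖ < KK v := by
  unfold pw KK
  have h0 : 0 ≤ ‖v‖ := norm_nonneg v
  have h1 : ‖v - 1‖ ≤ 1 + ‖v‖ := by
    calc ‖v - 1‖ ≤ ‖v‖ + ‖(1 : ℂ)‖ := norm_sub_le _ _
      _ = 1 + ‖v‖ := by rw [norm_one]; ring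
  rw [norm_mul, norm_pow, norm_pow]
  calc ‖v‖ ^ i * ‖v - 1‖ ^ j ≤ (1 + ‖v‖) ^ i * (1 + ‖v‖) ^ j := by
        gcongr
        linarith
    _ = (1 + ‖v‖) ^ (i + j) := by rw [pow_add]
    _ ≤ (1 + ‖v‖) ^ 5 := pow_le_pow_right₀ (by linarith) hij
    _ < (2 + ‖v‖) ^ 5 := by
        gcongr
        norm_num

theorem SF_mem (i j : ℕ) (hij : i + j ≤ 5) (s : ℝ) (hs : s ≤ 1 / 2) (u z w v : ℂ)
    (hu : ‖u‖ = 1)
    (hA : 1 / 6 < s → ∀ h : ℝ, 0 ≤ h → h ≤ 1 → (1 - (h : ℂ)) * v + (h : ℂ) * z ≠ 0)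
    (hB : 1 / 6 < s → ∀ h : ℝ, 0 ≤ h → h ≤ 1 → (1 - (h : ℂ)) * (v - 1) + (h : ℂ) * w ≠ 0) :
    SF i j s u z w v ∈ DD i j := by
  have hs' := hs
  unfold SF
  split_ifs with h6
  · have hk := KK_pos (1 / 2)
    have hn : ‖((2 + KK (1 / 2) : ℝ) : ℂ) * u‖ = 2 + KK (1 / 2) := by
      rw [norm_mul, hu, mul_one, Complex.norm_real, Real.norm_of_nonneg (by linarith)]
    refine ⟨?_, ?_⟩
    · intro h
      change ((2 + KK (1 / 2) : ℝ) : ℂ) * u = 0 at h
      rw [h, norm_zero] at hn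
      linarith
    · intro h
      change ((2 + KK (1 / 2) : ℝ) : ℂ) * u = pw i j (1 / 2) at h
      rw [h] at hn
      have := norm_pw_lt i j hij (1 / 2)
      linarith
  · push Not at h6
    have hh0 : 0 ≤ hc s := cl_nonneg _
    have hh1 : hc s ≤ 1 := cl_le_one _
    have a0 := hA h6 (hc s) hh0 hh1
    have b0 := hB h6 (hc s) hh0 hh1
    set P : ℂ := ((1 - (hc s : ℂ)) * v + (hc s : ℂ) * z) ^ i *
          ((1 - (hc s : ℂ)) * (v - 1) + (hc s : ℂ) * w) ^ j with hP
    have hP0 : P ≠ 0 := mul_ne_zero (pow_ne_zero _ a0) (pow_ne_zero _ b0)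
    have hPn : 0 < ‖P‖ := norm_pos_iff.mpr hP0
    have hk := KK_pos (Yh (hc s) v)
    have hc0 : 0 ≤ cc s := cl_nonneg _
    have hck : 0 ≤ cc s * KK (Yh (hc s) v) := mul_nonneg hc0 hk.le
    have hn : ‖((2 * ‖P‖ + cc s * KK (Yh (hc s) v) : ℝ) : ℂ) * ph P‖
        = 2 * ‖P‖ + cc s * KK (Yh (hc s) v) := by
      rw [norm_mul, norm_ph hP0, mul_one, Complex.norm_real, Real.norm_of_nonneg (by linarith)]
    refine ⟨?_, ?_⟩
    · intro h
      change ((2 * ‖P‖ + cc s * KK (Yh (hc s) v) : ℝ) : ℂ) * ph P = 0 at h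
      rw [h, norm_zero] at hn
      linarith
    · intro h
      change ((2 * ‖P‖ + cc s * KK (Yh (hc s) v) : ℝ) : ℂ) * ph P = pw i j (Yh (hc s) v) at h
      rw [h] at hn
      rcases le_or_gt s (1 / 3) with h3 | h3
      · rw [cc_of_le h3, one_mul] at hn
        have := norm_pw_lt i j hij (Yh (hc s) v)
        linarith
      · have e : hc s = 0 := hc_of_ge h3.le
        have eY : Yh (hc s) v = v := by
          unfold Yh
          rw [e]
          simp
        have eP : P = pw i j v := by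
          rw [hP, e]
          unfold pw
          simp
        rw [eY, ← eP] at hn
        rw [eY] at hck
        linarith

theorem SF_continuousOn {W : Type*} [TopologicalSpace W] (S : Set W) (i j : ℕ) (s : W → ℝ)
    (u z w v : W → ℂ) (hs : ContinuousOn s S) (hu : ContinuousOn u S)
    (hz : ContinuousOn z {p | p ∈ S ∧ 1 / 6 ≤ s p})
    (hw : ContinuousOn w {p | p ∈ S ∧ 1 / 6 ≤ s p})
    (hv : ContinuousOn v {p | p ∈ S ∧ 1 / 6 ≤ s p})
    (hA : ∀ p ∈ S, 1 / 6 ≤ s p → ∀ h : ℝ, 0 ≤ h → h ≤ 1 →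
      (1 - (h : ℂ)) * v p + (h : ℂ) * z p ≠ 0)
    (hB : ∀ p ∈ S, 1 / 6 ≤ s p → ∀ h : ℝ, 0 ≤ h → h ≤ 1 →
      (1 - (h : ℂ)) * (v p - 1) + (h : ℂ) * w p ≠ 0)
    (hb : ∀ p ∈ S, s p = 1 / 6 → ‖z p‖ = 1 ∧ ‖w p‖ = 1 ∧ u p = z p ^ i * w p ^ j) :
    ContinuousOn (fun p => SF i j (s p) (u p) (z p) (w p) (v p)) S := by
  rw [continuousOn_iff_continuous_domRestrict]
  have hs' : Continuous (fun x : S => s x) := continuousOn_iff_continuous_domRestrict.mp hs
  have hu' : Continuous (fun x : S => u x) := continuousOn_iff_continuous_domRestrict.mp hu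
  have key : ∀ f : W → ℂ, ContinuousOn f {p | p ∈ S ∧ 1 / 6 ≤ s p} →
      ContinuousOn (fun x : S => f x) {x : S | 1 / 6 ≤ s x} := by
    intro f hf
    refine hf.comp continuous_subtype_val.continuousOn ?_
    intro x hx
    exact ⟨x.2, hx⟩
  have hz' := key z hz
  have hw' := key w hw
  have hv' := key v hv
  have hh' : Continuous (fun x : S => ((hc (s x) : ℝ) : ℂ)) :=
    Complex.continuous_ofReal.comp (hc_continuous.comp hs')
  have hA' : ContinuousOn (fun x : S => (1 - (hc (s x) : ℂ)) * v x + (hc (s x) : ℂ) * z x)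
      {x : S | 1 / 6 ≤ s x} :=
    ((continuous_const.sub hh').continuousOn.mul hv').add (hh'.continuousOn.mul hz')
  have hB' : ContinuousOn
      (fun x : S => (1 - (hc (s x) : ℂ)) * (v x - 1) + (hc (s x) : ℂ) * w x)
      {x : S | 1 / 6 ≤ s x} :=
    ((continuous_const.sub hh').continuousOn.mul (hv'.sub continuousOn_const)).add
      (hh'.continuousOn.mul hw')
  have hP' : ContinuousOn (fun x : S => ((1 - (hc (s x) : ℂ)) * v x + (hc (s x) : ℂ) * z x) ^ i *
      ((1 - (hc (s x) : ℂ)) * (v x - 1) + (hc (s x) : ℂ) * w x) ^ j)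
      {x : S | 1 / 6 ≤ s x} := (hA'.pow i).mul (hB'.pow j)
  have hphP : ContinuousOn
      (fun x : S => ph (((1 - (hc (s x) : ℂ)) * v x + (hc (s x) : ℂ) * z x) ^ i *
      ((1 - (hc (s x) : ℂ)) * (v x - 1) + (hc (s x) : ℂ) * w x) ^ j))
      {x : S | 1 / 6 ≤ s x} := by
    refine ph_continuousOn.comp hP' ?_
    intro x hx
    exact mul_ne_zero (pow_ne_zero _ (hA x.1 x.2 hx _ (cl_nonneg _) (cl_le_one _)))
      (pow_ne_zero _ (hB x.1 x.2 hx _ (cl_nonneg _) (cl_le_one _)))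
  have hY' : ContinuousOn (fun x : S => Yh (hc (s x)) (v x)) {x : S | 1 / 6 ≤ s x} := by
    unfold Yh
    exact ((continuous_const.sub hh').continuousOn.mul hv').add
      (hh'.continuousOn.div_const 2)
  have hK' : ContinuousOn (fun x : S => KK (Yh (hc (s x)) (v x))) {x : S | 1 / 6 ≤ s x} :=
    KK_continuous.comp_continuousOn hY'
  have hcc' : Continuous (fun x : S => cc (s x)) := cc_continuous.comp hs'
  unfold SF
  change Continuous (fun x : S => _)
  refine continuous_if_le hs' continuous_const ?_ ?_ ?_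
  · exact ((continuous_const.mul hu').prodMk continuous_const).continuousOn
  · refine ContinuousOn.prodMk ?_ hY'
    refine ContinuousOn.mul ?_ hphP
    refine Complex.continuous_ofReal.comp_continuousOn ?_
    exact (continuousOn_const.mul (continuous_norm.comp_continuousOn hP')).add
      (hcc'.continuousOn.mul hK')
  · intro x hx
    obtain ⟨hz1, hw1, hux⟩ := hb x.1 x.2 hx
    have e1 : hc (s x) = 1 := hc_of_le hx.le
    have e2 : cc (s x) = 1 := cc_of_le (by rw [hx]; norm_num)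
    have e3 : Yh 1 (v x) = 1 / 2 := by
      unfold Yh
      simp
    have e4 : ‖z x ^ i * w x ^ j‖ = 1 := by
      rw [norm_mul, norm_pow, norm_pow, hz1, hw1]
      simp
    have e5 : ph (z x ^ i * w x ^ j) = z x ^ i * w x ^ j := ph_of_norm_one e4
    have e6 : (1 - ((1 : ℝ) : ℂ)) * v x + ((1 : ℝ) : ℂ) * z x = z x := by
      simp
    have e7 : (1 - ((1 : ℝ) : ℂ)) * (v x - 1) + ((1 : ℝ) : ℂ) * w x = w x := by
      simp
    rw [e1, e2, e3, e6, e7, e5, e4, ← hux, mul_one, one_mul]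

end Pool.Agent.H90.CS
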