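import Mathlib
import Pool.Agent.H90.CS.TDefs

/-!
# Contractibility of the surface: the function `RR` and the first homotopy `stepA`
-/

set_option autoImplicit false
set_option linter.unusedVariables false

namespace Pool.Agent.H90.CS

open Set

namespace T3

theorem cl_continuous : Continuous cl := by
  unfold cl
  fun_prop

theorem cl_nonneg (t : ℝ) : 0 ≤ cl t := le_max_left _ _

theorem cl_le_one (t : ℝ) : cl t ≤ 1 := max_le zero_le_one (min_le_left _ _)

theorem cl_of_nonpos {t : ℝ} (h : t ≤ 0) : cl t = 0 := by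
  unfold cl
  rw [max_eq_left]
  exact (min_le_right _ _).trans h

theorem cl_of_one_le {t : ℝ} (h : 1 ≤ t) : cl t = 1 := by
  unfold cl
  rw [min_eq_left h]
  norm_num

theorem mu_continuous : Continuous mu := by
  unfold mu
  exact cl_continuous.comp (by fun_prop)

theorem mu_nonneg (r : ℝ) : 0 ≤ mu r := cl_nonneg _

theorem mu_le_one (r : ℝ) : mu r ≤ 1 := cl_le_one _

theorem mu_of_le {r : ℝ} (h : r ≤ 1 / 16) : mu r = 0 := cl_of_nonpos (by linarith)

theorem mu_of_ge {r : ℝ} (h : 1 / 8 ≤ r) : mu r = 1 := cl_of_one_le (by linarith)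

theorem sr_continuous : Continuous sr := by
  unfold sr
  exact cl_continuous.comp (by fun_prop)

theorem hc_continuous : Continuous hc := by
  unfold hc
  exact cl_continuous.comp (by fun_prop)

theorem cc_continuous : Continuous cc := by
  unfold cc
  exact cl_continuous.comp (by fun_prop)

theorem hp_continuous : Continuous hp := by
  unfold hp
  exact hc_continuous.comp (sr_continuous.comp (Complex.continuous_re.comp continuous_fst))

theorem cp_continuous : Continuous cp := by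
  unfold cp
  exact cc_continuous.comp (sr_continuous.comp (Complex.continuous_re.comp continuous_fst))

theorem cp_nonneg (p : ℂ × ℂ × ℂ) : 0 ≤ cp p := cl_nonneg _

theorem KK_continuous : Continuous KK := by
  unfold KK
  fun_prop

theorem KK_nonneg (v : ℂ) : 0 ≤ KK v := by
  unfold KK
  positivity

theorem pw_continuous (i j : ℕ) : Continuous (pw i j) := by
  unfold pw
  fun_prop

theorem Yh_continuous : Continuous (fun q : ℝ × ℂ => Yh q.1 q.2) := by
  unfold Yh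
  fun_prop

theorem ph_continuousAt {z : ℂ} (hz : z ≠ 0) : ContinuousAt ph z := by
  unfold ph
  have h : ((‖z‖ : ℝ) : ℂ) ≠ 0 := by
    simpa using hz
  fun_prop (disch := assumption)

/-- The point `x_k` has positive real part. -/
theorem xk_re_pos {x : ℂ} {k : ℝ} (hx : 0 < x.re) (k0 : 0 ≤ k) (k1 : k ≤ 1) :
    0 < ((1 - (k : ℂ)) * x + (k : ℂ) / 2).re := by
  have h : ((1 - (k : ℂ)) * x + (k : ℂ) / 2).re = (1 - k) * x.re + k / 2 := by
    simp [Complex.add_re, Complex.mul_re]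
  rw [h]
  rcases eq_or_lt_of_le k1 with h1 | h1
  · subst h1; norm_num
  · have : 0 < (1 - k) * x.re := mul_pos (by linarith) hx
    linarith

theorem xk_re_le {x : ℂ} {k : ℝ} (hx : x.re ≤ 1 / 2) (k1 : k ≤ 1) :
    ((1 - (k : ℂ)) * x + (k : ℂ) / 2).re ≤ 1 / 2 := by
  have h : ((1 - (k : ℂ)) * x + (k : ℂ) / 2).re = (1 - k) * x.re + k / 2 := by
    simp [Complex.add_re, Complex.mul_re]
  rw [h]
  nlinarith

theorem xk_ne_zero {x : ℂ} {k : ℝ} (hx : 0 < x.re) (k0 : 0 ≤ k) (k1 : k ≤ 1) :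
    (1 - (k : ℂ)) * x + (k : ℂ) / 2 ≠ 0 := by
  intro h
  have := xk_re_pos hx k0 k1
  rw [h] at this
  simp at this

/-- On `HH` one has `RR * x_k = T * ((1 - μ) x_k + μ x)` if `μ ≠ 0`. -/
theorem RR_mul (i j : ℕ) (k : ℝ) (p : ℂ × ℂ × ℂ) (hp' : p ∈ HH i j)
    (hx : (1 - (k : ℂ)) * p.1 + (k : ℂ) / 2 ≠ 0) :
    RR i j k p * ((1 - (k : ℂ)) * p.1 + (k : ℂ) / 2) =
      p.2.1 * ((1 - ((mu p.1.re : ℝ) : ℂ)) * ((1 - (k : ℂ)) * p.1 + (k : ℂ) / 2) +
        ((mu p.1.re : ℝ) : ℂ) * p.1) := by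
  unfold RR
  rw [← hp'.1]
  generalize (1 - (k : ℂ)) * p.1 + (k : ℂ) / 2 = xk at hx ⊢
  have h1 : p.1 * p.2.1 / xk * xk = p.1 * p.2.1 := div_mul_cancel₀ _ hx
  calc _ = (1 - ((mu p.1.re : ℝ) : ℂ)) * p.2.1 * xk +
        ((mu p.1.re : ℝ) : ℂ) * (p.1 * p.2.1 / xk * xk) := by ring
    _ = _ := by rw [h1]; ring

theorem RR_of_mu_zero (i j : ℕ) (k : ℝ) (p : ℂ × ℂ × ℂ) (h : mu p.1.re = 0) :
    RR i j k p = p.2.1 := by
  unfold RR
  rw [h]
  simp

end T3

open T3

theorem RR_ne_zero (i j : ℕ) (k : ℝ) (k0 : 0 ≤ k) (k1 : k ≤ 1) (p : ℂ × ℂ × ℂ)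
    (hp' : p ∈ HH i j) : RR i j k p ≠ 0 := by
  rcases le_or_gt p.1.re (1 / 16) with h | h
  · rw [RR_of_mu_zero i j k p (mu_of_le h)]
    exact hp'.2.1
  · have hx : 0 < p.1.re := by linarith
    have hk := xk_ne_zero hx k0 k1
    have hk' := xk_re_pos hx k0 k1
    intro h0
    have h1 := RR_mul i j k p hp' hk
    rw [h0, zero_mul] at h1
    have h2 := (mul_eq_zero.mp h1.symm).resolve_left hp'.2.1
    have h3 := congrArg Complex.re h2
    set xk := (1 - (k : ℂ)) * p.1 + (k : ℂ) / 2 with hxk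
    have h4 : (1 - mu p.1.re) * xk.re + mu p.1.re * p.1.re = 0 := by
      simpa [Complex.add_re, Complex.mul_re] using h3
    have h5 := mu_nonneg p.1.re
    have h6 := mu_le_one p.1.re
    rcases eq_or_lt_of_le h5 with h7 | h7
    · rw [← h7] at h4
      linarith
    · have : 0 < mu p.1.re * p.1.re := mul_pos h7 hx
      have : 0 ≤ (1 - mu p.1.re) * xk.re := mul_nonneg (by linarith) hk'.le
      linarith

theorem RR_continuousOn (i j : ℕ) :
    ContinuousOn (fun q : ℝ × (ℂ × ℂ × ℂ) => RR i j q.1 q.2) (Icc (0 : ℝ) 1 ×ˢ HH i j) := by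
  intro q hq
  obtain ⟨⟨k0, k1⟩, hp'⟩ := hq
  rcases lt_or_ge q.2.1.re (1 / 16) with h | h
  · have hopen' : IsOpen {q' : ℝ × (ℂ × ℂ × ℂ) | q'.2.1.re < 1 / 16} :=
      isOpen_lt (by fun_prop) continuous_const
    have hopen : {q' : ℝ × (ℂ × ℂ × ℂ) | q'.2.1.re < 1 / 16} ∈ nhds q :=
      hopen'.mem_nhds (show q.2.1.re < 1 / 16 from h)
    have hc' : ContinuousAt (fun q' : ℝ × (ℂ × ℂ × ℂ) => q'.2.2.1) q := by fun_prop
    refine ContinuousAt.continuousWithinAt (hc'.congr ?_)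
    filter_upwards [hopen] with q' hq'
    exact (RR_of_mu_zero i j q'.1 q'.2 (mu_of_le (le_of_lt hq'))).symm
  · have hx : 0 < q.2.1.re := by linarith
    have hk := xk_ne_zero hx k0 k1
    apply ContinuousAt.continuousWithinAt
    have hmu : ContinuousAt (fun q' : ℝ × (ℂ × ℂ × ℂ) => ((mu q'.2.1.re : ℝ) : ℂ)) q :=
      (Complex.continuous_ofReal.comp (mu_continuous.comp (by fun_prop))).continuousAt
    have hpw : ContinuousAt (fun q' : ℝ × (ℂ × ℂ × ℂ) => pw i j q'.2.2.2) q :=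
      ((pw_continuous i j).comp (by fun_prop)).continuousAt
    have hxk : ContinuousAt (fun q' : ℝ × (ℂ × ℂ × ℂ) =>
        (1 - (q'.1 : ℂ)) * q'.2.1 + (q'.1 : ℂ) / 2) q := by fun_prop
    have hT : ContinuousAt (fun q' : ℝ × (ℂ × ℂ × ℂ) => q'.2.2.1) q := by fun_prop
    exact ((continuousAt_const.sub hmu).mul hT).add (hmu.mul (hpw.div hxk hk))

theorem RR_zero (i j : ℕ) (p : ℂ × ℂ × ℂ) (hp' : p ∈ HH i j) : RR i j 0 p = p.2.1 := by
  rcases le_or_gt p.1.re (1 / 16) with h | h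
  · exact RR_of_mu_zero i j 0 p (mu_of_le h)
  · have hx : p.1 ≠ 0 := by
      intro h0
      rw [h0] at h
      norm_num at h
    unfold RR
    rw [← hp'.1]
    have h1 : (1 - ((0 : ℝ) : ℂ)) * p.1 + ((0 : ℝ) : ℂ) / 2 = p.1 := by
      push_cast
      ring
    rw [h1, mul_div_cancel_left₀ _ hx]
    ring

/-- `mu = 1` for `Re x ≥ 1/8`. -/
theorem RR_one_of_le (i j : ℕ) (p : ℂ × ℂ × ℂ) (hp' : p ∈ HH i j) (h : 1 / 8 ≤ p.1.re) :
    RR i j 1 p = 2 * pw i j p.2.2 := by
  unfold RR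
  rw [mu_of_ge h]
  push_cast
  ring

theorem stepA_continuousOn (i j : ℕ) :
    ContinuousOn (stepA i j) (Icc (0 : ℝ) 1 ×ˢ HH i j) := by
  have hR := RR_continuousOn i j
  have hph : ContinuousOn (fun q : ℝ × (ℂ × ℂ × ℂ) => ph (RR i j q.1 q.2))
      (Icc (0 : ℝ) 1 ×ˢ HH i j) := by
    intro q hq
    have hne := RR_ne_zero i j q.1 hq.1.1 hq.1.2 q.2 hq.2
    exact ContinuousAt.comp_continuousWithinAt (g := ph)
      (f := fun q : ℝ × (ℂ × ℂ × ℂ) => RR i j q.1 q.2) (ph_continuousAt hne) (hR q hq)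
  have hN : Continuous (fun q : ℝ × (ℂ × ℂ × ℂ) =>
      ((q.1 * cp q.2 * (KK q.2.2.2 + KK (Yh (hp q.2) q.2.2.2)) : ℝ) : ℂ)) := by
    have h1 : Continuous (fun q : ℝ × (ℂ × ℂ × ℂ) => cp q.2) :=
      cp_continuous.comp continuous_snd
    have h2 : Continuous (fun q : ℝ × (ℂ × ℂ × ℂ) => KK q.2.2.2) :=
      KK_continuous.comp (by fun_prop)
    have h3 : Continuous (fun q : ℝ × (ℂ × ℂ × ℂ) => hp q.2) :=
      hp_continuous.comp continuous_snd
    have h4 : Continuous (fun q : ℝ × (ℂ × ℂ × ℂ) => Yh (hp q.2) q.2.2.2) :=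
      Yh_continuous.comp (h3.prodMk (by fun_prop))
    have h5 : Continuous (fun q : ℝ × (ℂ × ℂ × ℂ) => KK (Yh (hp q.2) q.2.2.2)) :=
      KK_continuous.comp h4
    exact Complex.continuous_ofReal.comp ((continuous_fst.mul h1).mul (h2.add h5))
  unfold stepA
  exact (hR.add (hN.continuousOn.mul hph)).prodMk (by fun_prop)

theorem stepA_mem (i j : ℕ) (hi : 1 ≤ i) (hj : 1 ≤ j) (q : ℝ × (ℂ × ℂ × ℂ))
    (hq : q ∈ Icc (0 : ℝ) 1 ×ˢ HH i j) : stepA i j q ∈ DD i j := by
  obtain ⟨⟨k0, k1⟩, hp'⟩ := hq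
  have hR := RR_ne_zero i j q.1 k0 k1 q.2 hp'
  set R := RR i j q.1 q.2 with hRdef
  set N0 : ℝ := q.1 * cp q.2 * (KK q.2.2.2 + KK (Yh (hp q.2) q.2.2.2)) with hN0
  have hN0' : 0 ≤ N0 :=
    mul_nonneg (mul_nonneg k0 (cp_nonneg _)) (add_nonneg (KK_nonneg _) (KK_nonneg _))
  set N : ℝ := 1 + N0 / ‖R‖ with hN
  have hRn : 0 < ‖R‖ := norm_pos_iff.mpr hR
  have hN1 : 1 ≤ N := by
    have : 0 ≤ N0 / ‖R‖ := div_nonneg hN0' hRn.le
    linarith
  have hT : (stepA i j q).1 = R * (N : ℂ) := by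
    have hne : ((‖R‖ : ℝ) : ℂ) ≠ 0 := by exact_mod_cast hRn.ne'
    have : (stepA i j q).1 = R + (N0 : ℂ) * ph R := rfl
    rw [this, hN]
    unfold ph
    push_cast
    field_simp
  have hNC : (N : ℂ) ≠ 0 := by
    have : N ≠ 0 := by linarith
    exact_mod_cast this
  refine ⟨?_, ?_⟩
  · rw [hT]
    exact mul_ne_zero hR hNC
  · rw [hT]
    show R * (N : ℂ) ≠ pw i j q.2.2.2
    intro h0
    rw [← hp'.1] at h0
    rcases le_or_gt q.2.1.re (1 / 16) with h | h
    · rw [hRdef, RR_of_mu_zero i j q.1 q.2 (mu_of_le h), mul_comm] at h0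
      have h1 := mul_right_cancel₀ hp'.2.1 h0
      have h2 := congrArg Complex.re h1
      rw [Complex.ofReal_re] at h2
      linarith
    · have hx : 0 < q.2.1.re := by linarith
      have hk := xk_ne_zero hx k0 k1
      have hk' := xk_re_pos hx k0 k1
      have hk'' := xk_re_le (x := q.2.1) (k := q.1) hp'.2.2 k1
      have h1 := RR_mul i j q.1 q.2 hp' hk
      rw [← hRdef] at h1
      set xk := (1 - (q.1 : ℂ)) * q.2.1 + (q.1 : ℂ) / 2 with hxk
      have h2 : q.2.2.1 * (((1 - ((mu q.2.1.re : ℝ) : ℂ)) * xk +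
          ((mu q.2.1.re : ℝ) : ℂ) * q.2.1) * (N : ℂ)) = q.2.2.1 * (q.2.1 * xk) := by
        rw [← mul_assoc, ← h1]
        calc R * xk * (N : ℂ) = (R * (N : ℂ)) * xk := by ring
          _ = _ := by rw [h0]; ring
      have h3 := mul_left_cancel₀ hp'.2.1 h2
      have h4 := congrArg Complex.re h3
      have hxkim : xk.im = (1 - q.1) * q.2.1.im := by
        simp [hxk, Complex.add_im, Complex.mul_im]
      have h5 : ((1 - mu q.2.1.re) * xk.re + mu q.2.1.re * q.2.1.re) * N =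
          q.2.1.re * xk.re - q.2.1.im * xk.im := by
        simpa [Complex.add_re, Complex.mul_re, Complex.add_im, Complex.mul_im] using h4
      have h6 : 0 ≤ q.2.1.im * xk.im := by
        rw [hxkim]
        have : 0 ≤ (1 - q.1) * (q.2.1.im * q.2.1.im) :=
          mul_nonneg (by linarith) (mul_self_nonneg _)
        linarith
      have m0 := mu_nonneg q.2.1.re
      have m1 := mu_le_one q.2.1.re
      have hx2 : q.2.1.re ≤ 1 / 2 := hp'.2.2
      set a := q.2.1.re with ha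
      set c := xk.re with hc'
      set m := mu a with hm
      have hac : 0 < a * c := mul_pos hx hk'
      have e1 : (1 - m) * (2 * (a * c)) ≤ (1 - m) * c := by
        apply mul_le_mul_of_nonneg_left _ (by linarith)
        nlinarith
      have e2 : m * (2 * (a * c)) ≤ m * a := by
        apply mul_le_mul_of_nonneg_left _ m0
        nlinarith
      have e3 : 2 * (a * c) ≤ (1 - m) * c + m * a := by linarith
      have e4 : (1 - m) * c + m * a ≤ ((1 - m) * c + m * a) * N := by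
        have : 0 ≤ (1 - m) * c + m * a := by linarith
        nlinarith
      linarith

theorem stepA_zero (i j : ℕ) (p : ℂ × ℂ × ℂ) (hp' : p ∈ HH i j) :
    stepA i j (0, p) = (p.2.1, p.2.2) := by
  unfold stepA
  simp only [RR_zero i j p hp']
  simp

theorem stepA_half (i j : ℕ) (k : ℝ) (p : ℂ × ℂ × ℂ) (hp' : p ∈ HH i j) (h : p.1.re = 1 / 2) :
    stepA i j (k, p) = (pw i j p.2.2 / ((1 - (k : ℂ)) * p.1 + (k : ℂ) / 2), p.2.2) := by
  have hmu : mu p.1.re = 1 := mu_of_ge (by rw [h]; norm_num)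
  have hcp : cp p = 0 := by
    unfold cp cc sr
    rw [h]
    unfold cl
    norm_num
  unfold stepA RR
  simp only [hmu, hcp]
  simp

end Pool.Agent.H90.CS
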