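import Mathlib
import Pool.Agent.H90.CS.TDefs
import Pool.Agent.H90.CS.T1
import Pool.Agent.H90.CS.T2
import Pool.Agent.H90.CS.T3

/-!
# The second, third and fourth homotopies in a chart
-/

set_option autoImplicit false
namespace Pool.Agent.H90.CS
open Set

/-! ### Cutoffs -/

theorem t4_cl_nonneg' (t : ℝ) : 0 ≤ cl t := le_max_left _ _

theorem t4_cl_le_one' (t : ℝ) : cl t ≤ 1 := max_le zero_le_one (min_le_left _ _)

theorem t4_cl_of_one_le {t : ℝ} (h : 1 ≤ t) : cl t = 1 := by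
  unfold cl; rw [min_eq_left h]; exact max_eq_right zero_le_one

theorem t4_cl_of_nonpos {t : ℝ} (h : t ≤ 0) : cl t = 0 := by
  unfold cl; rw [min_eq_right (le_trans h zero_le_one)]; exact max_eq_left h

theorem t4_cl_of_mem {t : ℝ} (h0 : 0 ≤ t) (h1 : t ≤ 1) : cl t = t := by
  unfold cl; rw [min_eq_right h1]; exact max_eq_right h0

theorem t4_cl_continuous' : Continuous cl := by
  unfold cl; fun_prop

theorem t4_cl_mono' {a b : ℝ} (h : a ≤ b) : cl a ≤ cl b := by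
  unfold cl; exact max_le_max le_rfl (min_le_min le_rfl h)

theorem t4_sr_continuous' : Continuous sr := by
  unfold sr; exact t4_cl_continuous'.comp (by fun_prop)

theorem t4_hc_continuous' : Continuous hc := by
  unfold hc; exact t4_cl_continuous'.comp (by fun_prop)

theorem t4_cc_continuous' : Continuous cc := by
  unfold cc; exact t4_cl_continuous'.comp (by fun_prop)

theorem t4_hp_continuous' : Continuous hp := by
  unfold hp; exact t4_hc_continuous'.comp (t4_sr_continuous'.comp (by fun_prop))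

theorem t4_cp_continuous' : Continuous cp := by
  unfold cp; exact t4_cc_continuous'.comp (t4_sr_continuous'.comp (by fun_prop))

theorem t4_KK_continuous' : Continuous KK := by
  unfold KK; fun_prop

theorem t4_hp_nonneg' (p : ℂ × ℂ × ℂ) : 0 ≤ hp p := t4_cl_nonneg' _
theorem t4_hp_le_one' (p : ℂ × ℂ × ℂ) : hp p ≤ 1 := t4_cl_le_one' _
theorem t4_cp_nonneg' (p : ℂ × ℂ × ℂ) : 0 ≤ cp p := t4_cl_nonneg' _
theorem t4_cp_le_one' (p : ℂ × ℂ × ℂ) : cp p ≤ 1 := t4_cl_le_one' _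

theorem t4_KK_pos' (v : ℂ) : 0 < KK v := by unfold KK; positivity

theorem t4_sr_le_half {r : ℝ} (h : r ≤ 1 / 2) : sr r ≤ 1 / 2 := by
  unfold sr
  refine (t4_cl_mono' (b := 1 / 2) (by linarith)).trans ?_
  rw [t4_cl_of_mem (by norm_num) (by norm_num)]

theorem t4_sr_half : sr (1 / 2) = 1 / 2 := by
  unfold sr
  rw [t4_cl_of_mem (by norm_num) (by norm_num)]; norm_num

theorem t4_quarter_le_of_sr {r : ℝ} (h : 1 / 6 ≤ sr r) : 1 / 4 ≤ r := by
  by_contra hc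
  push Not at hc
  have h1 : sr r < 1 / 6 := by
    unfold sr
    by_cases h2 : 4 / 3 * (r - 1 / 8) ≤ 0
    · rw [t4_cl_of_nonpos h2]; norm_num
    · rw [t4_cl_of_mem (by linarith) (by linarith)]; linarith
  linarith

theorem t4_cp_eq_one {p : ℂ × ℂ × ℂ} (h : p.1.re ≤ 3 / 8) : cp p = 1 := by
  unfold cp cc
  apply t4_cl_of_one_le
  have h1 : sr p.1.re ≤ 1 / 3 := by
    unfold sr
    refine (t4_cl_mono' (b := 1 / 3) (by linarith)).trans ?_
    rw [t4_cl_of_mem (by norm_num) (by norm_num)]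
  linarith

theorem t4_hp_eq_zero {p : ℂ × ℂ × ℂ} (h : 3 / 8 ≤ p.1.re) : hp p = 0 := by
  unfold hp hc
  apply t4_cl_of_nonpos
  have h1 : 1 / 3 ≤ sr p.1.re := by
    unfold sr
    refine le_trans ?_ (t4_cl_mono' (a := 1 / 3) (by linarith))
    rw [t4_cl_of_mem (by norm_num) (by norm_num)]
  linarith

theorem t4_cp_half {p : ℂ × ℂ × ℂ} (h : p.1.re = 1 / 2) : cp p = 0 := by
  unfold cp cc
  rw [h, t4_sr_half]
  exact t4_cl_of_nonpos (by norm_num)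

theorem t4_hp_half {p : ℂ × ℂ × ℂ} (h : p.1.re = 1 / 2) : hp p = 0 :=
  t4_hp_eq_zero (by rw [h]; norm_num)

theorem t4_Yh_zero (v : ℂ) : Yh 0 v = v := by simp [Yh]

/-- On the part of the half chart with `x ≠ 0` the coordinate `y` is not `0` or `1`. -/
theorem t4_y_ne_of_re_pos {i j : ℕ} (hi : 1 ≤ i) (hj : 1 ≤ j) {p : ℂ × ℂ × ℂ} (hp' : p ∈ HH i j)
    (h : 0 < p.1.re) : p.2.2 ≠ 0 ∧ p.2.2 ≠ 1 ∧ pw i j p.2.2 ≠ 0 := by
  obtain ⟨h1, h2, h3⟩ := hp'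
  have hx : p.1 ≠ 0 := by
    intro h0
    rw [h0] at h
    simp at h
  have hpw : pw i j p.2.2 ≠ 0 := by
    rw [← h1]; exact mul_ne_zero hx h2
  refine ⟨?_, ?_, hpw⟩
  · intro h0
    apply hpw
    rw [h0]
    simp [pw, zero_pow (show i ≠ 0 by omega)]
  · intro h0
    apply hpw
    rw [h0]
    simp [pw, zero_pow (show j ≠ 0 by omega)]

/-! ### Endpoints -/

theorem stepA_one (i j : ℕ) (p : ℂ × ℂ × ℂ) (_hp' : p ∈ HH i j) :
    stepA i j (1, p) = stepB i j (0, p) := by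
  unfold stepA stepB
  refine Prod.ext ?_ ?_
  · simp only
    have h := norm_mul_ph (RR i j 1 p)
    push_cast
    linear_combination -h
  · simp only
    push_cast
    ring

theorem stepB_one (i j : ℕ) (p : ℂ × ℂ × ℂ) (_hp' : p ∈ HH i j) :
    stepB i j (1, p) = stepC i j (0, p) := by
  unfold stepB stepC
  refine Prod.ext ?_ ?_
  · simp only
    push_cast
    ring
  · simp only
    push_cast
    ring

/-- The product of phases and moduli. -/
theorem t4_ph_pow (z : ℂ) (n : ℕ) : ph (z ^ n) = ph z ^ n := by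
  induction n with
  | zero => simp [ph]
  | succ n ih => rw [pow_succ, pow_succ, ph_mul, ih]

theorem t4_ph_pw (i j : ℕ) (y : ℂ) : ph (pw i j y) = ph y ^ i * ph (y - 1) ^ j := by
  unfold pw
  rw [ph_mul, t4_ph_pow, t4_ph_pow]

theorem t4_ph_two_pw (i j : ℕ) (y : ℂ) : ph (2 * pw i j y) = ph y ^ i * ph (y - 1) ^ j := by
  rw [← t4_ph_pw]
  have h := ph_real_mul (r := 2) (by norm_num) (pw i j y)
  push_cast at h
  exact h

theorem t4_seg_ph (h : ℝ) (y : ℂ) :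
    (1 - (h : ℂ)) * y + (h : ℂ) * ph y = (((1 - h) * ‖y‖ + h : ℝ) : ℂ) * ph y := by
  have h1 := norm_mul_ph y
  push_cast
  linear_combination (-(1 - (h : ℂ))) * h1

theorem stepC_one (i j : ℕ) (hi : 1 ≤ i) (hj : 1 ≤ j) (p : ℂ × ℂ × ℂ) (hp' : p ∈ HH i j) :
    stepC i j (1, p) = stepD i j (0, p) := by
  unfold stepC stepD SF
  simp only
  by_cases hs : sr p.1.re ≤ 1 / 6
  · rw [if_pos hs]
    have h1 : hp p = 1 := by
      unfold hp hc
      exact t4_cl_of_one_le (by linarith)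
    have h2 : cp p = 1 := by
      unfold cp cc
      exact t4_cl_of_one_le (by linarith)
    refine Prod.ext ?_ ?_
    · simp only [mb, h1, h2, Yh]
      simp
    · simp [h1, Yh]
  · rw [if_neg hs]
    push Not at hs
    have hr := t4_quarter_le_of_sr hs.le
    obtain ⟨hy0, hy1, hpw⟩ := t4_y_ne_of_re_pos hi hj hp' (by linarith)
    have hR := RR_one_of_le i j p hp' (by linarith)
    have e1 : (1 - ((0 : ℝ) : ℂ)) * p.2.2 +
        ((0 : ℝ) : ℂ) * Gm (ph p.2.2) (ph (p.2.2 - 1)) = p.2.2 := by simp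
    rw [e1]
    have e2 : hc (sr p.1.re) = hp p := rfl
    have e3 : cc (sr p.1.re) = cp p := rfl
    rw [e2, e3, t4_seg_ph, t4_seg_ph]
    have hm0 : 0 < (1 - hp p) * ‖p.2.2‖ + hp p := by
      have h1 := t4_hp_nonneg' p
      have h2 := t4_hp_le_one' p
      have h3 : 0 < ‖p.2.2‖ := norm_pos_iff.2 hy0
      rcases eq_or_lt_of_le h2 with h4 | h4
      · rw [h4]; norm_num
      · have := mul_pos (sub_pos.2 h4) h3
        linarith
    have hm1 : 0 < (1 - hp p) * ‖p.2.2 - 1‖ + hp p := by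
      have h1 := t4_hp_nonneg' p
      have h2 := t4_hp_le_one' p
      have h3 : 0 < ‖p.2.2 - 1‖ := norm_pos_iff.2 (sub_ne_zero.2 hy1)
      rcases eq_or_lt_of_le h2 with h4 | h4
      · rw [h4]; norm_num
      · have := mul_pos (sub_pos.2 h4) h3
        linarith
    set m0 : ℝ := (1 - hp p) * ‖p.2.2‖ + hp p with hm0d
    set m1 : ℝ := (1 - hp p) * ‖p.2.2 - 1‖ + hp p with hm1d
    have hP : ((m0 : ℂ) * ph p.2.2) ^ i * ((m1 : ℂ) * ph (p.2.2 - 1)) ^ j =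
        ((m0 ^ i * m1 ^ j : ℝ) : ℂ) * (ph p.2.2 ^ i * ph (p.2.2 - 1) ^ j) := by
      push_cast
      ring
    rw [hP]
    have hn1 : ‖ph p.2.2‖ = 1 := norm_ph hy0
    have hn2 : ‖ph (p.2.2 - 1)‖ = 1 := norm_ph (sub_ne_zero.2 hy1)
    have hmp : 0 < m0 ^ i * m1 ^ j := by positivity
    have hnorm : ‖((m0 ^ i * m1 ^ j : ℝ) : ℂ) * (ph p.2.2 ^ i * ph (p.2.2 - 1) ^ j)‖ =
        m0 ^ i * m1 ^ j := by
      rw [norm_mul, norm_mul, norm_pow, norm_pow, hn1, hn2, one_pow, one_pow, one_mul, mul_one,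
        Complex.norm_real, Real.norm_of_nonneg hmp.le]
    have hphP : ph (((m0 ^ i * m1 ^ j : ℝ) : ℂ) * (ph p.2.2 ^ i * ph (p.2.2 - 1) ^ j)) =
        ph (RR i j 1 p) := by
      rw [ph_real_mul hmp, hR, t4_ph_two_pw, ph_mul, t4_ph_pow, t4_ph_pow, ph_of_norm_one hn1,
        ph_of_norm_one hn2]
    rw [hnorm, hphP]
    refine Prod.ext ?_ rfl
    simp only [mb]
    rw [← hm0d, ← hm1d]
    push_cast
    ring

/-! ### Continuity -/

theorem t4_RR1_continuousOn (i j : ℕ) :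
    ContinuousOn (fun q : ℝ × (ℂ × ℂ × ℂ) => RR i j 1 q.2) (Icc (0 : ℝ) 1 ×ˢ HH i j) := by
  have h := (RR_continuousOn i j).comp
    (f := fun q : ℝ × (ℂ × ℂ × ℂ) => ((1 : ℝ), q.2)) (s := Icc (0 : ℝ) 1 ×ˢ HH i j)
    (by fun_prop) (by
      intro q hq
      exact ⟨⟨zero_le_one, le_rfl⟩, hq.2⟩)
  exact h

theorem t4_phRR1_continuousOn (i j : ℕ) :
    ContinuousOn (fun q : ℝ × (ℂ × ℂ × ℂ) => ph (RR i j 1 q.2)) (Icc (0 : ℝ) 1 ×ˢ HH i j) := by
  refine ph_continuousOn.comp (t4_RR1_continuousOn i j) ?_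
  intro q hq
  exact RR_ne_zero i j 1 zero_le_one le_rfl q.2 hq.2

theorem t4_mb_continuous (i j : ℕ) : Continuous (mb i j) := by
  unfold mb
  have h := t4_hp_continuous'
  fun_prop

theorem t4_Yhp_continuous : Continuous (fun p : ℂ × ℂ × ℂ => Yh (hp p) p.2.2) := by
  unfold Yh
  have h := t4_hp_continuous'
  fun_prop

theorem stepB_continuousOn (i j : ℕ) :
    ContinuousOn (stepB i j) (Icc (0 : ℝ) 1 ×ˢ HH i j) := by
  have hR := t4_RR1_continuousOn i j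
  have hph := t4_phRR1_continuousOn i j
  have hm := t4_mb_continuous i j
  have hY := t4_Yhp_continuous
  have hK := t4_KK_continuous'
  have hc' := t4_cp_continuous'
  unfold stepB
  refine ContinuousOn.prodMk ?_ ?_
  · refine ContinuousOn.mul ?_ hph
    refine Complex.continuous_ofReal.comp_continuousOn ?_
    refine ContinuousOn.add (ContinuousOn.add (ContinuousOn.mul (by fun_prop) hR.norm) ?_) ?_
    · exact (Continuous.mul (by fun_prop) (hm.comp (by fun_prop))).continuousOn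
    · refine Continuous.continuousOn ?_
      refine Continuous.mul (hc'.comp (by fun_prop)) ?_
      exact Continuous.add (hK.comp (by fun_prop)) (hK.comp (hY.comp (by fun_prop)))
  · refine Continuous.continuousOn ?_
    refine Continuous.add (by fun_prop) ?_
    exact Continuous.mul (by fun_prop) (hY.comp (by fun_prop))

theorem stepC_continuousOn (i j : ℕ) :
    ContinuousOn (stepC i j) (Icc (0 : ℝ) 1 ×ˢ HH i j) := by
  have hph := t4_phRR1_continuousOn i j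
  have hm := t4_mb_continuous i j
  have hY := t4_Yhp_continuous
  have hK := t4_KK_continuous'
  have hc' := t4_cp_continuous'
  unfold stepC
  refine ContinuousOn.prodMk ?_ ?_
  · refine ContinuousOn.mul ?_ hph
    refine Complex.continuous_ofReal.comp_continuousOn ?_
    refine Continuous.continuousOn ?_
    refine Continuous.add (hm.comp (by fun_prop)) ?_
    refine Continuous.mul (hc'.comp (by fun_prop)) ?_
    exact Continuous.add (Continuous.mul (by fun_prop) (hK.comp (by fun_prop)))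
      (hK.comp (hY.comp (by fun_prop)))
  · exact (hY.comp (by fun_prop)).continuousOn

theorem t4_y_ne_of_sr {i j : ℕ} (hi : 1 ≤ i) (hj : 1 ≤ j) {p : ℂ × ℂ × ℂ} (hp' : p ∈ HH i j)
    (h : 1 / 6 ≤ sr p.1.re) : p.2.2 ≠ 0 ∧ p.2.2 ≠ 1 ∧ pw i j p.2.2 ≠ 0 :=
  t4_y_ne_of_re_pos hi hj hp' (by have := t4_quarter_le_of_sr h; linarith)

theorem stepD_continuousOn (i j : ℕ) (hi : 1 ≤ i) (hj : 1 ≤ j) :
    ContinuousOn (stepD i j) (Icc (0 : ℝ) 1 ×ˢ HH i j) := by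
  set S : Set (ℝ × (ℂ × ℂ × ℂ)) := Icc (0 : ℝ) 1 ×ˢ HH i j with hS
  have hne : ∀ q : ℝ × (ℂ × ℂ × ℂ), q ∈ S → 1 / 6 ≤ sr q.2.1.re →
      q.2.2.2 ≠ 0 ∧ q.2.2.2 ≠ 1 ∧ pw i j q.2.2.2 ≠ 0 :=
    fun q hq h => t4_y_ne_of_sr hi hj hq.2 h
  have hz : ContinuousOn (fun q : ℝ × (ℂ × ℂ × ℂ) => ph q.2.2.2)
      {q | q ∈ S ∧ 1 / 6 ≤ sr q.2.1.re} := by
    refine ph_continuousOn.comp (by fun_prop) ?_
    intro q hq
    exact (hne q hq.1 hq.2).1
  have hw : ContinuousOn (fun q : ℝ × (ℂ × ℂ × ℂ) => ph (q.2.2.2 - 1))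
      {q | q ∈ S ∧ 1 / 6 ≤ sr q.2.1.re} := by
    refine ph_continuousOn.comp (by fun_prop) ?_
    intro q hq
    exact sub_ne_zero.2 (hne q hq.1 hq.2).2.1
  have hG : ContinuousOn (fun q : ℝ × (ℂ × ℂ × ℂ) => Gm (ph q.2.2.2) (ph (q.2.2.2 - 1)))
      {q | q ∈ S ∧ 1 / 6 ≤ sr q.2.1.re} := by
    have hm : MapsTo (fun q : ℝ × (ℂ × ℂ × ℂ) => (ph q.2.2.2, ph (q.2.2.2 - 1)))
        {q | q ∈ S ∧ 1 / 6 ≤ sr q.2.1.re}
        {q : ℂ × ℂ | ‖q.1‖ = 1 ∧ ‖q.2‖ = 1 ∧ ¬ (q.1 = -1 ∧ q.2 = 1)} := by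
      intro q hq
      obtain ⟨h0, h1, -⟩ := hne q hq.1 hq.2
      exact ⟨norm_ph h0, norm_ph (sub_ne_zero.2 h1), ph_pair_ne _ h0 h1⟩
    exact ContinuousOn.comp (g := fun q : ℂ × ℂ => Gm q.1 q.2)
      (f := fun q : ℝ × (ℂ × ℂ × ℂ) => (ph q.2.2.2, ph (q.2.2.2 - 1)))
      Gm_continuousOn (hz.prodMk hw) hm
  refine SF_continuousOn S i j (fun q => sr q.2.1.re) (fun q => ph (RR i j 1 q.2))
    (fun q => ph q.2.2.2) (fun q => ph (q.2.2.2 - 1))
    (fun q => (1 - (q.1 : ℂ)) * q.2.2.2 + (q.1 : ℂ) * Gm (ph q.2.2.2) (ph (q.2.2.2 - 1)))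
    ?_ (t4_phRR1_continuousOn i j) hz hw ?_ ?_ ?_ ?_
  · exact (t4_sr_continuous'.comp (by fun_prop)).continuousOn
  · exact ContinuousOn.add (by fun_prop) (ContinuousOn.mul (by fun_prop) hG)
  · intro q hq h6 h h0 h1
    obtain ⟨hy0, hy1, -⟩ := hne q hq h6
    exact Gm_path0 _ hy0 hy1 q.1 h hq.1.1 hq.1.2 h0 h1
  · intro q hq h6 h h0 h1
    obtain ⟨hy0, hy1, -⟩ := hne q hq h6
    exact Gm_path1 _ hy0 hy1 q.1 h hq.1.1 hq.1.2 h0 h1
  · intro q hq h6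
    obtain ⟨hy0, hy1, -⟩ := hne q hq h6.ge
    refine ⟨norm_ph hy0, norm_ph (sub_ne_zero.2 hy1), ?_⟩
    have hr := t4_quarter_le_of_sr h6.ge
    rw [RR_one_of_le i j q.2 hq.2 (by linarith), t4_ph_two_pw]

/-! ### The values are in the domain of the chart -/

theorem t4_norm_real_mul_ph {N : ℝ} (hN : 0 ≤ N) {z : ℂ} (hz : z ≠ 0) :
    ‖((N : ℝ) : ℂ) * ph z‖ = N := by
  rw [norm_mul, norm_ph hz, mul_one, Complex.norm_real, Real.norm_of_nonneg hN]

theorem t4_DD_of_norm {i j : ℕ} {N : ℝ} {z Y : ℂ} (hz : z ≠ 0) (hN : ‖pw i j Y‖ < N) :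
    (((N : ℝ) : ℂ) * ph z, Y) ∈ DD i j := by
  have hN0 : 0 < N := lt_of_le_of_lt (norm_nonneg _) hN
  have hn := t4_norm_real_mul_ph hN0.le hz
  refine ⟨?_, ?_⟩
  · simp only
    rw [← norm_pos_iff, hn]
    exact hN0
  · simp only
    intro h
    rw [← h, hn] at hN
    exact lt_irrefl _ hN

theorem t4_KK_mono {v w : ℂ} (h : ‖v‖ ≤ ‖w‖) : KK v ≤ KK w := by
  unfold KK
  gcongr

theorem t4_KK_conv (t : ℝ) (h0 : 0 ≤ t) (h1 : t ≤ 1) (v w : ℂ) :
    KK ((1 - (t : ℂ)) * v + (t : ℂ) * w) ≤ max (KK v) (KK w) := by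
  have hn : ‖(1 - (t : ℂ)) * v + (t : ℂ) * w‖ ≤ (1 - t) * ‖v‖ + t * ‖w‖ := by
    refine (norm_add_le _ _).trans ?_
    rw [norm_mul, norm_mul, Complex.norm_real, Real.norm_of_nonneg h0]
    have : ‖(1 : ℂ) - (t : ℂ)‖ = 1 - t := by
      rw [show (1 : ℂ) - (t : ℂ) = ((1 - t : ℝ) : ℂ) by push_cast; ring, Complex.norm_real,
        Real.norm_of_nonneg (by linarith)]
    rw [this]
  have h1t : 0 ≤ 1 - t := by linarith
  rcases le_total ‖v‖ ‖w‖ with h | h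
  · have h2 : ‖(1 - (t : ℂ)) * v + (t : ℂ) * w‖ ≤ ‖w‖ := by
      have h3 := mul_le_mul_of_nonneg_left h h1t
      linarith
    exact le_trans (t4_KK_mono h2) (le_max_right (KK v) (KK w))
  · have h2 : ‖(1 - (t : ℂ)) * v + (t : ℂ) * w‖ ≤ ‖v‖ := by
      have h3 := mul_le_mul_of_nonneg_left h h0
      linarith
    exact le_trans (t4_KK_mono h2) (le_max_left (KK v) (KK w))

theorem t4_mb_nonneg (i j : ℕ) (p : ℂ × ℂ × ℂ) : 0 ≤ mb i j p := by
  have h1 := t4_hp_nonneg' p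
  have h2 : 0 ≤ 1 - hp p := by linarith [t4_hp_le_one' p]
  unfold mb
  positivity

theorem t4_mb_of_hp {i j : ℕ} {p : ℂ × ℂ × ℂ} (h : hp p = 0) : mb i j p = 2 * ‖pw i j p.2.2‖ := by
  unfold mb pw
  rw [h, norm_mul, norm_pow, norm_pow]
  simp only [sub_zero, one_mul, add_zero]
  ring

theorem stepB_mem (i j : ℕ) (hi : 1 ≤ i) (hj : 1 ≤ j) (hij : i + j ≤ 5) (q : ℝ × (ℂ × ℂ × ℂ))
    (hq : q ∈ Icc (0 : ℝ) 1 ×ˢ HH i j) : stepB i j q ∈ DD i j := by
  obtain ⟨t, p⟩ := q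
  obtain ⟨⟨ht0, ht1⟩, hp'⟩ := hq
  simp only at ht0 ht1 hp'
  have hR0 := RR_ne_zero i j 1 zero_le_one le_rfl p hp'
  unfold stepB
  simp only
  apply t4_DD_of_norm hR0
  have hmb := t4_mb_nonneg i j p
  have hRn : 0 ≤ ‖RR i j 1 p‖ := norm_nonneg _
  have h1t : 0 ≤ 1 - t := by linarith
  rcases le_total p.1.re (3 / 8) with h | h
  · rw [t4_cp_eq_one h, one_mul]
    refine lt_of_lt_of_le (norm_pw_lt i j hij _) ?_
    refine (t4_KK_conv t ht0 ht1 _ _).trans ?_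
    have h1 := (t4_KK_pos' p.2.2).le
    have h2 := (t4_KK_pos' (Yh (hp p) p.2.2)).le
    have h3 : max (KK p.2.2) (KK (Yh (hp p) p.2.2)) ≤ KK p.2.2 + KK (Yh (hp p) p.2.2) :=
      max_le (by linarith) (by linarith)
    have h4 := mul_nonneg h1t hRn
    have h5 := mul_nonneg ht0 hmb
    linarith
  · have hh := t4_hp_eq_zero h
    obtain ⟨-, -, hpw⟩ := t4_y_ne_of_re_pos hi hj hp' (by linarith)
    rw [t4_mb_of_hp hh, RR_one_of_le i j p hp' (by linarith), hh, t4_Yh_zero]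
    have e1 : (1 - (t : ℂ)) * p.2.2 + (t : ℂ) * p.2.2 = p.2.2 := by ring
    rw [e1, norm_mul, Complex.norm_ofNat]
    have h0 : 0 < ‖pw i j p.2.2‖ := norm_pos_iff.2 hpw
    have h2 := (t4_KK_pos' p.2.2).le
    have h3 := mul_nonneg (t4_cp_nonneg' p) (add_nonneg h2 h2)
    nlinarith

theorem stepC_mem (i j : ℕ) (hi : 1 ≤ i) (hj : 1 ≤ j) (hij : i + j ≤ 5) (q : ℝ × (ℂ × ℂ × ℂ))
    (hq : q ∈ Icc (0 : ℝ) 1 ×ˢ HH i j) : stepC i j q ∈ DD i j := by
  obtain ⟨t, p⟩ := q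
  obtain ⟨⟨ht0, ht1⟩, hp'⟩ := hq
  simp only at ht0 ht1 hp'
  have hR0 := RR_ne_zero i j 1 zero_le_one le_rfl p hp'
  unfold stepC
  simp only
  apply t4_DD_of_norm hR0
  have hmb := t4_mb_nonneg i j p
  have h1t : 0 ≤ 1 - t := by linarith
  rcases le_total p.1.re (3 / 8) with h | h
  · rw [t4_cp_eq_one h, one_mul]
    refine lt_of_lt_of_le (norm_pw_lt i j hij _) ?_
    have h1 := (t4_KK_pos' p.2.2).le
    have h4 := mul_nonneg h1t h1
    linarith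
  · have hh := t4_hp_eq_zero h
    obtain ⟨-, -, hpw⟩ := t4_y_ne_of_re_pos hi hj hp' (by linarith)
    rw [t4_mb_of_hp hh, hh, t4_Yh_zero]
    have h0 : 0 < ‖pw i j p.2.2‖ := norm_pos_iff.2 hpw
    have h2 := (t4_KK_pos' p.2.2).le
    have h3 := mul_nonneg (t4_cp_nonneg' p) (add_nonneg (mul_nonneg h1t h2) h2)
    linarith

theorem stepD_mem (i j : ℕ) (hi : 1 ≤ i) (hj : 1 ≤ j) (hij : i + j ≤ 5) (q : ℝ × (ℂ × ℂ × ℂ))
    (hq : q ∈ Icc (0 : ℝ) 1 ×ˢ HH i j) : stepD i j q ∈ DD i j := by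
  obtain ⟨t, p⟩ := q
  obtain ⟨⟨ht0, ht1⟩, hp'⟩ := hq
  simp only at ht0 ht1 hp'
  have hR0 := RR_ne_zero i j 1 zero_le_one le_rfl p hp'
  unfold stepD
  simp only
  refine SF_mem i j hij _ (t4_sr_le_half hp'.2.2) _ _ _ _ (norm_ph hR0) ?_ ?_
  · intro h6 h h0 h1
    obtain ⟨hy0, hy1, -⟩ := t4_y_ne_of_sr hi hj hp' h6.le
    exact Gm_path0 _ hy0 hy1 t h ht0 ht1 h0 h1
  · intro h6 h h0 h1
    obtain ⟨hy0, hy1, -⟩ := t4_y_ne_of_sr hi hj hp' h6.le
    exact Gm_path1 _ hy0 hy1 t h ht0 ht1 h0 h1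

/-! ### Values on the wall `Re x = 1 / 2` -/

theorem stepB_half (i j : ℕ) (k : ℝ) (p : ℂ × ℂ × ℂ) (hp' : p ∈ HH i j) (h : p.1.re = 1 / 2) :
    stepB i j (k, p) = (2 * pw i j p.2.2, p.2.2) := by
  have hh := t4_hp_half h
  have hR := RR_one_of_le i j p hp' (by rw [h]; norm_num)
  unfold stepB
  simp only
  rw [t4_mb_of_hp hh, hR, hh, t4_Yh_zero, t4_cp_half h]
  refine Prod.ext ?_ ?_
  · simp only
    have h1 := norm_mul_ph (2 * pw i j p.2.2)
    rw [norm_mul, Complex.norm_ofNat] at h1 ⊢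
    push_cast at h1 ⊢
    linear_combination h1
  · simp only
    ring

theorem stepC_half (i j : ℕ) (k : ℝ) (p : ℂ × ℂ × ℂ) (hp' : p ∈ HH i j) (h : p.1.re = 1 / 2) :
    stepC i j (k, p) = (2 * pw i j p.2.2, p.2.2) := by
  have hh := t4_hp_half h
  have hR := RR_one_of_le i j p hp' (by rw [h]; norm_num)
  unfold stepC
  simp only
  rw [t4_mb_of_hp hh, hR, hh, t4_Yh_zero, t4_cp_half h]
  refine Prod.ext ?_ rfl
  simp only
  have h1 := norm_mul_ph (2 * pw i j p.2.2)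
  rw [norm_mul, Complex.norm_ofNat] at h1
  push_cast at h1 ⊢
  linear_combination h1

theorem stepD_half (i j : ℕ) (k : ℝ) (p : ℂ × ℂ × ℂ) (_hp' : p ∈ HH i j) (h : p.1.re = 1 / 2) :
    stepD i j (k, p) =
      (2 * pw i j ((1 - (k : ℂ)) * p.2.2 + (k : ℂ) * Gm (ph p.2.2) (ph (p.2.2 - 1))),
        (1 - (k : ℂ)) * p.2.2 + (k : ℂ) * Gm (ph p.2.2) (ph (p.2.2 - 1))) := by
  unfold stepD SF
  simp only
  rw [h, t4_sr_half, if_neg (by norm_num)]
  have e1 : hc (1 / 2) = 0 := by unfold hc; exact t4_cl_of_nonpos (by norm_num)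
  have e2 : cc (1 / 2) = 0 := by unfold cc; exact t4_cl_of_nonpos (by norm_num)
  rw [e1, e2, t4_Yh_zero]
  set v : ℂ := (1 - (k : ℂ)) * p.2.2 + (k : ℂ) * Gm (ph p.2.2) (ph (p.2.2 - 1)) with hv
  refine Prod.ext ?_ rfl
  have e3 : ((1 - ((0 : ℝ) : ℂ)) * v + ((0 : ℝ) : ℂ) * ph p.2.2) ^ i *
      ((1 - ((0 : ℝ) : ℂ)) * (v - 1) + ((0 : ℝ) : ℂ) * ph (p.2.2 - 1)) ^ j = pw i j v := by
    simp [pw]
  simp only
  rw [e3]
  have h1 := norm_mul_ph (pw i j v)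
  push_cast
  linear_combination 2 * h1

end Pool.Agent.H90.CS
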