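import Mathlib
import Pool.Agent.H90.CS.TDefs

/-!
# Charts of the surface and gluing
-/

set_option autoImplicit false

namespace Pool.Agent.H90.CS

open Set

theorem mem_SurfSet (p : Fin 4 → ℂ) :
    p ∈ SurfSet ↔ p 0 * p 1 - p 2 ^ 2 * p 3 ^ 3 = 1 ∧ p 0 * p 2 - p 1 * p 3 = 1 := by
  have : p ∈ SurfSet ↔ MvPolynomial.eval p eqOne = 0 ∧ MvPolynomial.eval p eqTwo = 0 := Iff.rfl
  rw [this]
  simp only [eqOne, eqTwo, map_sub, map_mul, map_pow, map_one, MvPolynomial.eval_X, sub_eq_zero]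

theorem mk0_mem (q : ℂ × ℂ) (hq : q ∈ DD 1 1) : mk0 q ∈ SurfSet := by
  obtain ⟨T, Y⟩ := q
  obtain ⟨h0, h1⟩ := hq
  simp only [pw, pow_one, ne_eq] at h0 h1
  have h2 : Y * (Y - 1) - T ≠ 0 := fun h => h1 (sub_eq_zero.mp h).symm
  rw [mem_SurfSet]
  simp only [mk0, pw, pow_one, Matrix.cons_val_zero, Matrix.cons_val_one, Matrix.cons_val]
  constructor
  · field_simp
    ring
  · field_simp
    ring

theorem mk1_mem (q : ℂ × ℂ) (hq : q ∈ DD 2 3) : mk1 q ∈ SurfSet := by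
  obtain ⟨T, Y⟩ := q
  obtain ⟨h0, h1⟩ := hq
  simp only [pw, ne_eq] at h0 h1
  have h2 : Y ^ 2 * (Y - 1) ^ 3 - T ≠ 0 := fun h => h1 (sub_eq_zero.mp h).symm
  rw [mem_SurfSet]
  simp only [mk1, pw, Matrix.cons_val_zero, Matrix.cons_val_one, Matrix.cons_val]
  generalize hP : Y ^ 2 * (Y - 1) ^ 3 - T = P at h2 ⊢
  constructor
  · have e : (P ^ 3 / T ^ 4 * (-T ^ 3 / P ^ 2) -
        (Y * T ^ 4 / P ^ 3) ^ 2 * (-((Y - 1) * P ^ 2) / T ^ 3) ^ 3) =
        (-P + Y ^ 2 * (Y - 1) ^ 3) / T := by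
      field_simp
      ring
    rw [e, ← hP]
    field_simp
    ring
  · field_simp
    ring

theorem mk0_continuousOn : ContinuousOn mk0 (DD 1 1) := by
  rw [continuousOn_pi]
  have hT : ∀ q ∈ DD 1 1, q.1 ≠ 0 := fun q hq => hq.1
  have hP : ∀ q ∈ DD 1 1, pw 1 1 q.2 - q.1 ≠ 0 :=
    fun q hq h => hq.2 (sub_eq_zero.mp h).symm
  have c1 : ContinuousOn (fun q : ℂ × ℂ => q.1) (DD 1 1) := continuousOn_fst
  have c2 : ContinuousOn (fun q : ℂ × ℂ => q.2) (DD 1 1) := continuousOn_snd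
  have cP : ContinuousOn (fun q : ℂ × ℂ => pw 1 1 q.2 - q.1) (DD 1 1) := by
    unfold pw
    fun_prop
  intro i
  fin_cases i
  · exact (c2.mul cP).div (c1.pow 4) (fun q hq => pow_ne_zero 4 (hT q hq))
  · exact ((c2.sub continuousOn_const).mul (c1.pow 3)).div cP hP
  · exact (c1.pow 4).div cP hP
  · exact cP.div (c1.pow 3) (fun q hq => pow_ne_zero 3 (hT q hq))

theorem mk1_continuousOn : ContinuousOn mk1 (DD 2 3) := by
  rw [continuousOn_pi]
  have hT : ∀ q ∈ DD 2 3, q.1 ≠ 0 := fun q hq => hq.1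
  have hP : ∀ q ∈ DD 2 3, pw 2 3 q.2 - q.1 ≠ 0 :=
    fun q hq h => hq.2 (sub_eq_zero.mp h).symm
  have c1 : ContinuousOn (fun q : ℂ × ℂ => q.1) (DD 2 3) := continuousOn_fst
  have c2 : ContinuousOn (fun q : ℂ × ℂ => q.2) (DD 2 3) := continuousOn_snd
  have cP : ContinuousOn (fun q : ℂ × ℂ => pw 2 3 q.2 - q.1) (DD 2 3) := by
    unfold pw
    fun_prop
  intro i
  fin_cases i
  · exact (cP.pow 3).div (c1.pow 4) (fun q hq => pow_ne_zero 4 (hT q hq))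
  · exact ((c1.pow 3).neg).div (cP.pow 2) (fun q hq => pow_ne_zero 2 (hP q hq))
  · exact (c2.mul (c1.pow 4)).div (cP.pow 3) (fun q hq => pow_ne_zero 3 (hP q hq))
  · exact (((c2.sub continuousOn_const).mul (cP.pow 2)).neg).div (c1.pow 3)
      (fun q hq => pow_ne_zero 3 (hT q hq))

/-- On the left half, `c d ≠ 0`. -/
theorem left_ne (p : Fin 4 → ℂ) (hp' : p ∈ SurfSet) (h : (p 0 * p 1).re ≤ 1 / 2) :
    p 2 ≠ 0 ∧ p 3 ≠ 0 := by
  rw [mem_SurfSet] at hp'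
  have key : p 2 ^ 2 * p 3 ^ 3 ≠ 0 := by
    intro h0
    have h1 : p 0 * p 1 = 1 := by linear_combination hp'.1 + h0
    rw [h1] at h
    norm_num at h
  constructor
  · rintro h0
    apply key
    rw [h0]
    ring
  · rintro h0
    apply key
    rw [h0]
    ring

/-- On the right half, `a b ≠ 0`. -/
theorem right_ne (p : Fin 4 → ℂ) (h : 1 / 2 ≤ (p 0 * p 1).re) :
    p 0 ≠ 0 ∧ p 1 ≠ 0 := by
  have key : p 0 * p 1 ≠ 0 := by
    intro h0
    rw [h0] at h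
    norm_num at h
  exact ⟨left_ne_zero_of_mul key, right_ne_zero_of_mul key⟩

theorem co0_mem (p : Fin 4 → ℂ) (hp' : p ∈ SurfSet) (h : (p 0 * p 1).re ≤ 1 / 2) :
    co0 p ∈ HH 1 1 := by
  obtain ⟨h2, h3⟩ := left_ne p hp' h
  rw [mem_SurfSet] at hp'
  refine ⟨?_, mul_ne_zero h2 h3, h⟩
  simp only [co0, pw, pow_one]
  linear_combination (-(p 0 * p 2)) * hp'.2

theorem co1_mem (p : Fin 4 → ℂ) (hp' : p ∈ SurfSet) (h : 1 / 2 ≤ (p 0 * p 1).re) :
    co1 p ∈ HH 2 3 := by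
  obtain ⟨h0, h1⟩ := right_ne p h
  rw [mem_SurfSet] at hp'
  refine ⟨?_, ?_, ?_⟩
  · simp only [co1, pw]
    have e1 : p 0 * p 2 - 1 = p 1 * p 3 := by linear_combination hp'.2
    have e2 : 1 - p 0 * p 1 = -(p 2 ^ 2 * p 3 ^ 3) := by linear_combination -hp'.1
    rw [e1, e2]
    ring
  · simp only [co1, ne_eq, neg_eq_zero]
    exact mul_ne_zero (pow_ne_zero 2 h0) (pow_ne_zero 3 h1)
  · simp only [co1, Complex.sub_re, Complex.one_re]
    linarith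

theorem mk0_co0 (p : Fin 4 → ℂ) (hp' : p ∈ SurfSet) (h : (p 0 * p 1).re ≤ 1 / 2) :
    mk0 ((co0 p).2.1, (co0 p).2.2) = p := by
  obtain ⟨h2, h3⟩ := left_ne p hp' h
  rw [mem_SurfSet] at hp'
  have e1 : p 0 * p 2 - 1 = p 1 * p 3 := by linear_combination hp'.2
  have eP : p 0 * p 2 * (p 1 * p 3) - p 2 * p 3 = p 2 ^ 3 * p 3 ^ 4 := by
    linear_combination (p 2 * p 3) * hp'.1
  funext i
  simp only [mk0, co0, pw, pow_one, e1, eP]
  fin_cases i
  · simp only [Fin.zero_eta, Matrix.cons_val_zero]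
    field_simp
  · simp only [Fin.mk_one, Matrix.cons_val_one]
    simp only [Matrix.cons_val_zero]
    field_simp
  · simp only [Fin.reduceFinMk, Matrix.cons_val]
    field_simp
  · simp only [Fin.reduceFinMk, Matrix.cons_val]
    field_simp

theorem mk1_co1 (p : Fin 4 → ℂ) (hp' : p ∈ SurfSet) (h : 1 / 2 ≤ (p 0 * p 1).re) :
    mk1 ((co1 p).2.1, (co1 p).2.2) = p := by
  obtain ⟨h0, h1⟩ := right_ne p h
  rw [mem_SurfSet] at hp'
  have e1 : p 0 * p 2 - 1 = p 1 * p 3 := by linear_combination hp'.2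
  have eP : (p 0 * p 2) ^ 2 * (p 1 * p 3) ^ 3 - -(p 0 ^ 2 * p 1 ^ 3) = p 0 ^ 3 * p 1 ^ 4 := by
    linear_combination (-(p 0 ^ 2 * p 1 ^ 3)) * hp'.1
  funext i
  simp only [mk1, co1, pw, e1, eP]
  fin_cases i
  · simp only [Fin.zero_eta, Matrix.cons_val_zero]
    field_simp
  · simp only [Fin.mk_one, Matrix.cons_val_one]
    simp only [Matrix.cons_val_zero]
    field_simp
  · simp only [Fin.reduceFinMk, Matrix.cons_val]
    field_simp
  · simp only [Fin.reduceFinMk, Matrix.cons_val]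
    field_simp

theorem mk_agree (T0 T1 Y : ℂ) (h0 : (T0, Y) ∈ DD 1 1) (h1 : (T1, Y) ∈ DD 2 3)
    (h : pw 1 1 Y / T0 + pw 2 3 Y / T1 = 1) : mk0 (T0, Y) = mk1 (T1, Y) := by
  obtain ⟨h0, h0'⟩ := h0
  obtain ⟨h1, h1'⟩ := h1
  simp only [ne_eq] at h0 h0' h1 h1'
  have hk : pw 1 1 Y * T1 + pw 2 3 Y * T0 = T0 * T1 := by
    field_simp at h
    linear_combination h
  simp only [pw, pow_one] at h0' h1' hk
  have hA : Y * (Y - 1) - T0 ≠ 0 := fun h => h0' (sub_eq_zero.mp h).symm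
  have hB : Y ^ 2 * (Y - 1) ^ 3 - T1 ≠ 0 := fun h => h1' (sub_eq_zero.mp h).symm
  -- the product of the two defects
  have e0 : (Y * (Y - 1) - T0) * T1 = -(Y ^ 2 * (Y - 1) ^ 3 * T0) := by linear_combination hk
  have e1 : (Y ^ 2 * (Y - 1) ^ 3 - T1) * T0 = -(Y * (Y - 1) * T1) := by linear_combination hk
  have hY : Y ≠ 0 := by
    rintro rfl
    have : (0 * (0 - 1) - T0) * T1 = 0 := by rw [e0]; ring
    rcases mul_eq_zero.mp this with h | h
    · exact hA h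
    · exact h1 h
  have hY1 : Y - 1 ≠ 0 := by
    intro hz
    have : (Y * (Y - 1) - T0) * T1 = 0 := by rw [e0, hz]; ring
    rcases mul_eq_zero.mp this with h | h
    · exact hA h
    · exact h1 h
  have eT1 : T1 = -(Y ^ 2 * (Y - 1) ^ 3 * T0) / (Y * (Y - 1) - T0) := by
    rw [eq_div_iff hA]
    linear_combination e0
  generalize hP : Y * (Y - 1) - T0 = A at *
  have eB : Y ^ 2 * (Y - 1) ^ 3 - T1 = Y ^ 3 * (Y - 1) ^ 4 / A := by
    rw [eT1, eq_div_iff hA, sub_mul, div_mul_cancel₀ _ hA, ← hP]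
    ring
  funext i
  simp only [mk0, mk1, pw, pow_one, hP, eB]
  fin_cases i
  · simp only [Fin.zero_eta, Matrix.cons_val_zero]
    rw [eT1]
    field_simp
  · simp only [Fin.mk_one, Matrix.cons_val_one]
    simp only [Matrix.cons_val_zero]
    rw [eT1]
    field_simp
  · simp only [Fin.reduceFinMk, Matrix.cons_val]
    rw [eT1]
    field_simp
  · simp only [Fin.reduceFinMk, Matrix.cons_val]
    rw [eT1]
    field_simp

theorem glue (fL fR : ℝ × (ℂ × ℂ × ℂ) → ℂ × ℂ)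
    (cL : ContinuousOn fL (Icc (0 : ℝ) 1 ×ˢ HH 1 1))
    (cR : ContinuousOn fR (Icc (0 : ℝ) 1 ×ˢ HH 2 3))
    (mL : ∀ q ∈ Icc (0 : ℝ) 1 ×ˢ HH 1 1, fL q ∈ DD 1 1)
    (mR : ∀ q ∈ Icc (0 : ℝ) 1 ×ˢ HH 2 3, fR q ∈ DD 2 3)
    (hag : ∀ k ∈ Icc (0 : ℝ) 1, ∀ p ∈ SurfSet, (p 0 * p 1).re = 1 / 2 →
      mk0 (fL (k, co0 p)) = mk1 (fR (k, co1 p))) :
    ∃ H : C(unitInterval × SurfSet, SurfSet), ∀ (k : unitInterval) (p : SurfSet),
      ((p.1 0 * p.1 1).re ≤ 1 / 2 → (H (k, p)).1 = mk0 (fL ((k : ℝ), co0 p.1))) ∧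
      (1 / 2 ≤ (p.1 0 * p.1 1).re → (H (k, p)).1 = mk1 (fR ((k : ℝ), co1 p.1))) := by
  classical
  have ci : ∀ i : Fin 4, Continuous (fun x : unitInterval × SurfSet => x.2.1 i) := fun i =>
    (continuous_apply i).comp (continuous_subtype_val.comp continuous_snd)
  have ck : Continuous (fun x : unitInterval × SurfSet => (x.1 : ℝ)) :=
    continuous_subtype_val.comp continuous_fst
  have c0 : Continuous (fun x : unitInterval × SurfSet => ((x.1 : ℝ), co0 x.2.1)) :=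
    ck.prodMk (((ci 0).mul (ci 1)).prodMk (((ci 2).mul (ci 3)).prodMk ((ci 0).mul (ci 2))))
  have c1 : Continuous (fun x : unitInterval × SurfSet => ((x.1 : ℝ), co1 x.2.1)) :=
    ck.prodMk ((continuous_const.sub ((ci 0).mul (ci 1))).prodMk
      (((((ci 0).pow 2).mul ((ci 1).pow 3)).neg).prodMk ((ci 0).mul (ci 2))))
  have m0 : ∀ x : unitInterval × SurfSet, (x.2.1 0 * x.2.1 1).re ≤ 1 / 2 →
      ((x.1 : ℝ), co0 x.2.1) ∈ Icc (0 : ℝ) 1 ×ˢ HH 1 1 :=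
    fun x hx => ⟨x.1.2, co0_mem _ x.2.2 hx⟩
  have m1 : ∀ x : unitInterval × SurfSet, 1 / 2 ≤ (x.2.1 0 * x.2.1 1).re →
      ((x.1 : ℝ), co1 x.2.1) ∈ Icc (0 : ℝ) 1 ×ˢ HH 2 3 :=
    fun x hx => ⟨x.1.2, co1_mem _ x.2.2 hx⟩
  let F : unitInterval × SurfSet → (Fin 4 → ℂ) := fun x =>
    if (x.2.1 0 * x.2.1 1).re ≤ 1 / 2 then mk0 (fL ((x.1 : ℝ), co0 x.2.1))
    else mk1 (fR ((x.1 : ℝ), co1 x.2.1))
  have hF : Continuous F := by
    refine continuous_if_le (f := fun x : unitInterval × SurfSet => (x.2.1 0 * x.2.1 1).re)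
      (g := fun _ => (1 / 2 : ℝ)) ?_ continuous_const ?_ ?_ ?_
    · exact Complex.continuous_re.comp ((ci 0).mul (ci 1))
    · exact mk0_continuousOn.comp (cL.comp c0.continuousOn m0) (fun x hx => mL _ (m0 x hx))
    · exact mk1_continuousOn.comp (cR.comp c1.continuousOn m1) (fun x hx => mR _ (m1 x hx))
    · intro x hx
      exact hag x.1 x.1.2 x.2.1 x.2.2 hx
  have hFm : ∀ x, F x ∈ SurfSet := by
    intro x
    by_cases hx : (x.2.1 0 * x.2.1 1).re ≤ 1 / 2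
    · simp only [F, if_pos hx]
      exact mk0_mem _ (mL _ (m0 x hx))
    · simp only [F, if_neg hx]
      exact mk1_mem _ (mR _ (m1 x (le_of_not_ge hx)))
  refine ⟨⟨fun x => ⟨F x, hFm x⟩, hF.subtype_mk hFm⟩, fun k p => ⟨fun hx => ?_, fun hx => ?_⟩⟩
  · simp only [ContinuousMap.coe_mk, F, if_pos hx]
  · by_cases hx' : (p.1 0 * p.1 1).re ≤ 1 / 2
    · simp only [ContinuousMap.coe_mk, F, if_pos hx']
      exact hag k k.2 p.1 p.2 (le_antisymm hx' hx)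
    · simp only [ContinuousMap.coe_mk, F, if_neg hx']

end Pool.Agent.H90.CS
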