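import Mathlib
import Pool.Agent.H90.CS.T1
import Pool.Agent.H90.CS.T2
import Pool.Agent.H90.CS.T3
import Pool.Agent.H90.CS.T5

/-!
# Contractibility of the surface: the two maps between the surface and the star-shaped set
-/

set_option autoImplicit false

namespace Pool.Agent.H90.CS

open Set

/-! ### Cutoffs -/

theorem t6_cl_nonneg (t : ℝ) : 0 ≤ cl t := le_max_left _ _

theorem t6_cl_le_one (t : ℝ) : cl t ≤ 1 := max_le zero_le_one (min_le_left _ _)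

theorem t6_cl_of_nonpos {t : ℝ} (h : t ≤ 0) : cl t = 0 :=
  max_eq_left ((min_le_right _ _).trans h)

theorem t6_cl_of_one_le {t : ℝ} (h : 1 ≤ t) : cl t = 1 := by
  unfold cl
  rw [min_eq_left h, max_eq_right zero_le_one]

theorem t6_cl_of_mem {t : ℝ} (h0 : 0 ≤ t) (h1 : t ≤ 1) : cl t = t := by
  unfold cl
  rw [min_eq_right h1, max_eq_right h0]

theorem t6_cl_one_sub (t : ℝ) : cl (1 - t) = 1 - cl t := by
  rcases le_total t 0 with h | h
  · rw [t6_cl_of_nonpos h, t6_cl_of_one_le (by linarith), sub_zero]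
  · rcases le_total t 1 with h1 | h1
    · rw [t6_cl_of_mem h h1, t6_cl_of_mem (by linarith) (by linarith)]
    · rw [t6_cl_of_one_le h1, t6_cl_of_nonpos (by linarith), sub_self]

theorem t6_cl_mono {a b : ℝ} (h : a ≤ b) : cl a ≤ cl b :=
  max_le_max le_rfl (min_le_min le_rfl h)

theorem t6_continuous_cl : Continuous cl := by
  unfold cl
  fun_prop

theorem t6_sr_nonneg (r : ℝ) : 0 ≤ sr r := t6_cl_nonneg _

theorem t6_sr_le_one (r : ℝ) : sr r ≤ 1 := t6_cl_le_one _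

theorem t6_sr_one_sub (r : ℝ) : sr (1 - r) = 1 - sr r := by
  unfold sr
  rw [← t6_cl_one_sub]
  congr 1
  ring

theorem t6_sr_le_half {r : ℝ} (h : r ≤ 1 / 2) : sr r ≤ 1 / 2 := by
  have h1 : sr r ≤ cl (1 / 2) := t6_cl_mono (by linarith)
  rwa [t6_cl_of_mem (by norm_num) (by norm_num)] at h1

theorem t6_half_le_sr {r : ℝ} (h : 1 / 2 ≤ r) : 1 / 2 ≤ sr r := by
  have h1 : cl (1 / 2) ≤ sr r := t6_cl_mono (by linarith)
  rwa [t6_cl_of_mem (by norm_num) (by norm_num)] at h1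

theorem t6_lt_of_sr_pos {r : ℝ} (h : 0 < sr r) : 1 / 8 < r := by
  by_contra hc'
  have : sr r = 0 := t6_cl_of_nonpos (by linarith [not_lt.mp hc'])
  linarith

theorem t6_lt_of_sr_lt {r : ℝ} (h : sr r < 1) : r < 7 / 8 := by
  by_contra hc'
  have : sr r = 1 := t6_cl_of_one_le (by linarith [not_lt.mp hc'])
  linarith

theorem t6_continuous_sr : Continuous sr := by
  unfold sr
  exact t6_continuous_cl.comp (by fun_prop)

theorem t6_continuous_mu : Continuous mu := by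
  unfold mu
  exact t6_continuous_cl.comp (by fun_prop)

/-! ### Phases -/

theorem t6_ph_zero : ph 0 = 0 := by
  simp [ph]

theorem t6_ph_ne_zero {z : ℂ} (hz : z ≠ 0) : ph z ≠ 0 := by
  intro h
  have := norm_ph hz
  rw [h, norm_zero] at this
  exact zero_ne_one this

theorem t6_norm_ph_le (z : ℂ) : ‖ph z‖ ≤ 1 := by
  by_cases h : z = 0
  · rw [h, t6_ph_zero, norm_zero]
    exact zero_le_one
  · exact (norm_ph h).le

theorem t6_ph_neg (z : ℂ) : ph (-z) = - ph z := by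
  unfold ph
  rw [norm_neg, neg_div]

theorem t6_ph_pow (z : ℂ) (n : ℕ) : ph (z ^ n) = ph z ^ n := by
  unfold ph
  rw [norm_pow, div_pow]
  push_cast
  rfl

theorem t6_ph_ph {z : ℂ} (hz : z ≠ 0) : ph (ph z) = ph z := ph_of_norm_one (norm_ph hz)

theorem t6_ph_pw (i j : ℕ) (y : ℂ) : ph (pw i j y) = ph y ^ i * ph (y - 1) ^ j := by
  unfold pw
  rw [ph_mul, t6_ph_pow, t6_ph_pow]

theorem t6_neg_of_ph {z : ℂ} (hz : z ≠ 0) (h : ph z = -1) : z.re < 0 ∧ z.im = 0 := by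
  have h1 := norm_mul_ph z
  rw [h] at h1
  have h2 : 0 < ‖z‖ := norm_pos_iff.mpr hz
  have h3 : z = ((-‖z‖ : ℝ) : ℂ) := by
    rw [← h1]
    push_cast
    simp
  constructor
  · rw [h3, Complex.ofReal_re]
    linarith
  · rw [h3, Complex.ofReal_im]

/-! ### The star-shaped set -/

theorem ZZ_starConvex : StarConvex ℝ ((1, 1) : ℂ × ℂ) ZZ := by
  intro y hy a b ha hb hab
  obtain ⟨hy0, hy1⟩ := hy
  have e1 : (a • ((1, 1) : ℂ × ℂ) + b • y).1 = (a : ℂ) + (b : ℂ) * y.1 := by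
    simp [Complex.real_smul]
  have e2 : (a • ((1, 1) : ℂ × ℂ) + b • y).2 = (a : ℂ) + (b : ℂ) * y.2 := by
    simp [Complex.real_smul]
  refine ⟨?_, ?_⟩
  · intro h
    have h1 : (a : ℂ) + (b : ℂ) * y.1 = 0 := by rw [← e1, h]; rfl
    have h2 : (a : ℂ) + (b : ℂ) * y.2 = 0 := by rw [← e2, h]; rfl
    have r1 := congrArg Complex.re h1
    have i1 := congrArg Complex.im h1
    have r2 := congrArg Complex.re h2
    have i2 := congrArg Complex.im h2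
    simp at r1 i1 r2 i2
    have hb' : b ≠ 0 := by
      rintro rfl
      simp at r1
      simp [r1] at hab
    have hb'' : 0 < b := lt_of_le_of_ne hb (Ne.symm hb')
    have i1' : y.1.im = 0 := by
      rcases i1 with h | h
      · exact absurd h hb'
      · exact h
    have i2' : y.2.im = 0 := by
      rcases i2 with h | h
      · exact absurd h hb'
      · exact h
    rcases eq_or_lt_of_le ha with h0 | h0
    · apply hy0
      have q1 : y.1.re = 0 := by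
        rw [← h0, zero_add] at r1
        exact (mul_eq_zero.mp r1).resolve_left hb'
      have q2 : y.2.re = 0 := by
        rw [← h0, zero_add] at r2
        exact (mul_eq_zero.mp r2).resolve_left hb'
      apply Prod.ext
      · exact Complex.ext q1 i1'
      · exact Complex.ext q2 i2'
    · apply hy1
      refine ⟨⟨?_, i1'⟩, ⟨?_, i2'⟩⟩
      · by_contra hc'
        have := mul_nonneg hb (not_lt.mp hc')
        linarith
      · by_contra hc'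
        have := mul_nonneg hb (not_lt.mp hc')
        linarith
  · rw [e1, e2]
    rintro ⟨⟨r1, i1⟩, ⟨r2, i2⟩⟩
    simp at r1 i1 r2 i2
    have hb' : b ≠ 0 := by
      rintro rfl
      simp at r1
      linarith
    have i1' : y.1.im = 0 := by
      rcases i1 with h | h
      · exact absurd h hb'
      · exact h
    have i2' : y.2.im = 0 := by
      rcases i2 with h | h
      · exact absurd h hb'
      · exact h
    apply hy1
    refine ⟨⟨?_, i1'⟩, ⟨?_, i2'⟩⟩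
    · by_contra hc'
      have := mul_nonneg hb (not_lt.mp hc')
      linarith
    · by_contra hc'
      have := mul_nonneg hb (not_lt.mp hc')
      linarith

/-! ### The phases attached to a point of the star-shaped set -/

theorem t6_fst_ne {q : ℂ × ℂ} (hq : q ∈ ZZ) (h : ‖q.2‖ ≤ ‖q.1‖) : q.1 ≠ 0 := by
  intro h1
  apply hq.1
  rw [h1, norm_zero] at h
  exact Prod.ext h1 (norm_le_zero_iff.mp h)

theorem t6_snd_ne {q : ℂ × ℂ} (hq : q ∈ ZZ) (h : ‖q.1‖ ≤ ‖q.2‖) : q.2 ≠ 0 := by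
  intro h1
  apply hq.1
  rw [h1, norm_zero] at h
  exact Prod.ext (norm_le_zero_iff.mp h) h1

theorem t6_norm_zz {q : ℂ × ℂ} (h1 : q.1 ≠ 0) (h2 : q.2 ≠ 0) : ‖zz q‖ = 1 := by
  unfold zz
  rw [norm_div, norm_neg, norm_pow, norm_ph h1, norm_ph h2]
  norm_num

theorem t6_norm_ww {q : ℂ × ℂ} (h1 : q.1 ≠ 0) (h2 : q.2 ≠ 0) : ‖ww q‖ = 1 := by
  unfold ww
  rw [norm_div, norm_neg, norm_pow, norm_ph h1, norm_ph h2]
  norm_num

theorem t6_zz_ww_ne {q : ℂ × ℂ} (hq : q ∈ ZZ) (h1 : q.1 ≠ 0) (h2 : q.2 ≠ 0) :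
    ¬ (zz q = -1 ∧ ww q = 1) := by
  rintro ⟨hz, hw⟩
  have n1 := t6_ph_ne_zero h1
  have n2 := t6_ph_ne_zero h2
  have e1 : ph q.1 ^ 3 = ph q.2 := by
    unfold zz at hz
    rw [div_eq_iff n2] at hz
    linear_combination -hz
  have e2 : - ph q.2 = ph q.1 ^ 2 := by
    unfold ww at hw
    rw [div_eq_iff (pow_ne_zero 2 n1)] at hw
    linear_combination hw
  have e3 : ph q.1 = -1 := by
    have h3 : ph q.1 ^ 2 * (ph q.1 + 1) = 0 := by
      linear_combination e1 - e2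
    have h4 := (mul_eq_zero.mp h3).resolve_left (pow_ne_zero 2 n1)
    linear_combination h4
  have e4 : ph q.2 = -1 := by
    rw [← e1, e3]
    norm_num
  exact hq.2 ⟨t6_neg_of_ph h1 e3, t6_neg_of_ph h2 e4⟩

theorem t6_zz_mul_ww {q : ℂ × ℂ} (h1 : q.1 ≠ 0) (h2 : q.2 ≠ 0) :
    zz q ^ 1 * ww q ^ 1 = ph q.1 := by
  have n1 := t6_ph_ne_zero h1
  have n2 := t6_ph_ne_zero h2
  unfold zz ww
  field_simp

theorem t6_zz_sq_ww {q : ℂ × ℂ} (h1 : q.1 ≠ 0) (h2 : q.2 ≠ 0) :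
    zz q ^ 2 * ww q ^ 3 = - ph q.2 := by
  have n1 := t6_ph_ne_zero h1
  have n2 := t6_ph_ne_zero h2
  unfold zz ww
  field_simp

theorem t6_sz_eq (q : ℂ × ℂ) (hq : q ≠ 0) : 1 - sz q = ‖q.1‖ / (‖q.1‖ + ‖q.2‖) := by
  have h : ‖q.1‖ + ‖q.2‖ ≠ 0 := by
    intro h
    have a1 := norm_nonneg q.1
    have a2 := norm_nonneg q.2
    apply hq
    exact Prod.ext (norm_le_zero_iff.mp (by linarith)) (norm_le_zero_iff.mp (by linarith))
  unfold sz
  field_simp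
  ring

theorem t6_sum_pos {q : ℂ × ℂ} (hq : q ≠ 0) : 0 < ‖q.1‖ + ‖q.2‖ := by
  have a1 := norm_nonneg q.1
  have a2 := norm_nonneg q.2
  refine lt_of_le_of_ne (by linarith) ?_
  intro h
  apply hq
  exact Prod.ext (norm_le_zero_iff.mp (by linarith)) (norm_le_zero_iff.mp (by linarith))

theorem t6_sz_le {q : ℂ × ℂ} (hq : q ≠ 0) (h : ‖q.2‖ ≤ ‖q.1‖) : sz q ≤ 1 / 2 := by
  unfold sz
  rw [div_le_iff₀ (t6_sum_pos hq)]
  linarith

theorem t6_one_sub_sz_le {q : ℂ × ℂ} (hq : q ≠ 0) (h : ‖q.1‖ ≤ ‖q.2‖) : 1 - sz q ≤ 1 / 2 := by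
  rw [t6_sz_eq q hq, div_le_iff₀ (t6_sum_pos hq)]
  linarith

theorem t6_snd_ne_of_sz {q : ℂ × ℂ} (h : 0 < sz q) : q.2 ≠ 0 := by
  intro h1
  unfold sz at h
  rw [h1, norm_zero, zero_div] at h
  exact lt_irrefl _ h

theorem t6_fst_ne_of_sz {q : ℂ × ℂ} (hq : q ≠ 0) (h : 0 < 1 - sz q) : q.1 ≠ 0 := by
  intro h1
  rw [t6_sz_eq q hq, h1, norm_zero, zero_div] at h
  exact lt_irrefl _ h

/-! ### The map `TT` -/

/-- The first branch of `TT`. -/
noncomputable def t6A (q : ℂ × ℂ) : ℂ × ℂ :=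
  SF 1 1 (sz q) (ph q.1) (zz q) (ww q) (Gm (zz q) (ww q))

/-- The second branch of `TT`. -/
noncomputable def t6B (q : ℂ × ℂ) : ℂ × ℂ :=
  SF 2 3 (1 - sz q) (- ph q.2) (zz q) (ww q) (Gm (zz q) (ww q))

theorem t6A_mem (q : ℂ × ℂ) (hq : q ∈ ZZ) (h : ‖q.2‖ ≤ ‖q.1‖) : t6A q ∈ DD 1 1 := by
  have h1 := t6_fst_ne hq h
  refine SF_mem 1 1 (by norm_num) (sz q) (t6_sz_le hq.1 h) (ph q.1) (zz q) (ww q)
    (Gm (zz q) (ww q)) (norm_ph h1) ?_ ?_
  · intro hs k k0 k1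
    have h2 : q.2 ≠ 0 := t6_snd_ne_of_sz (lt_trans (by norm_num) hs)
    exact Gm_seg0 _ _ (t6_norm_zz h1 h2) (t6_norm_ww h1 h2) (t6_zz_ww_ne hq h1 h2) k k0 k1
  · intro hs k k0 k1
    have h2 : q.2 ≠ 0 := t6_snd_ne_of_sz (lt_trans (by norm_num) hs)
    exact Gm_seg1 _ _ (t6_norm_zz h1 h2) (t6_norm_ww h1 h2) (t6_zz_ww_ne hq h1 h2) k k0 k1

theorem t6B_mem (q : ℂ × ℂ) (hq : q ∈ ZZ) (h : ‖q.1‖ ≤ ‖q.2‖) : t6B q ∈ DD 2 3 := by
  have h2 := t6_snd_ne hq h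
  refine SF_mem 2 3 (by norm_num) (1 - sz q) (t6_one_sub_sz_le hq.1 h) (- ph q.2) (zz q) (ww q)
    (Gm (zz q) (ww q)) (by rw [norm_neg, norm_ph h2]) ?_ ?_
  · intro hs k k0 k1
    have h1 : q.1 ≠ 0 := t6_fst_ne_of_sz hq.1 (lt_trans (by norm_num) hs)
    exact Gm_seg0 _ _ (t6_norm_zz h1 h2) (t6_norm_ww h1 h2) (t6_zz_ww_ne hq h1 h2) k k0 k1
  · intro hs k k0 k1
    have h1 : q.1 ≠ 0 := t6_fst_ne_of_sz hq.1 (lt_trans (by norm_num) hs)
    exact Gm_seg1 _ _ (t6_norm_zz h1 h2) (t6_norm_ww h1 h2) (t6_zz_ww_ne hq h1 h2) k k0 k1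

theorem TT_mem (q : ℂ × ℂ) (hq : q ∈ ZZ) : TT q ∈ SurfSet := by
  unfold TT
  split_ifs with h
  · exact mk0_mem _ (t6A_mem q hq h)
  · exact mk1_mem _ (t6B_mem q hq (not_le.mp h).le)

theorem t6_SF_half (i j : ℕ) (u z w v : ℂ) :
    SF i j (1 / 2) u z w v = (2 * pw i j v, v) := by
  have e1 : hc (1 / 2) = 0 := t6_cl_of_nonpos (by norm_num)
  have e2 : cc (1 / 2) = 0 := t6_cl_of_nonpos (by norm_num)
  unfold SF
  rw [if_neg (by norm_num), e1, e2]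
  have e3 : Yh 0 v = v := by
    unfold Yh
    simp
  rw [e3]
  simp only [Complex.ofReal_zero, sub_zero, one_mul, zero_mul, add_zero]
  have e4 : (v ^ i * (v - 1) ^ j) = pw i j v := rfl
  rw [e4]
  have e5 := norm_mul_ph (pw i j v)
  push_cast
  rw [mul_assoc, e5]

theorem t6_Gm_ne {q : ℂ × ℂ} (hq : q ∈ ZZ) (h1 : q.1 ≠ 0) (h2 : q.2 ≠ 0) :
    Gm (zz q) (ww q) ≠ 0 ∧ Gm (zz q) (ww q) - 1 ≠ 0 := by
  constructor
  · have := Gm_seg0 _ _ (t6_norm_zz h1 h2) (t6_norm_ww h1 h2) (t6_zz_ww_ne hq h1 h2) 0 le_rfl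
      zero_le_one
    simpa using this
  · have := Gm_seg1 _ _ (t6_norm_zz h1 h2) (t6_norm_ww h1 h2) (t6_zz_ww_ne hq h1 h2) 0 le_rfl
      zero_le_one
    simpa using this

theorem t6_agree (q : ℂ × ℂ) (hq : q ∈ ZZ) (h : ‖q.1‖ = ‖q.2‖) : mk0 (t6A q) = mk1 (t6B q) := by
  have h1 := t6_fst_ne hq h.ge
  have h2 := t6_snd_ne hq h.le
  have hs : sz q = 1 / 2 := by
    unfold sz
    rw [h]
    have : ‖q.2‖ ≠ 0 := norm_ne_zero_iff.mpr h2
    field_simp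
    ring
  have mA := t6A_mem q hq h.ge
  have mB := t6B_mem q hq h.le
  have eA : t6A q = (2 * pw 1 1 (Gm (zz q) (ww q)), Gm (zz q) (ww q)) := by
    unfold t6A
    rw [hs, t6_SF_half]
  have eB : t6B q = (2 * pw 2 3 (Gm (zz q) (ww q)), Gm (zz q) (ww q)) := by
    unfold t6B
    rw [hs]
    have : (1 : ℝ) - 1 / 2 = 1 / 2 := by norm_num
    rw [this, t6_SF_half]
  rw [eA] at mA ⊢
  rw [eB] at mB ⊢
  apply mk_agree _ _ _ mA mB
  obtain ⟨g0, g1⟩ := t6_Gm_ne hq h1 h2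
  have n1 : pw 1 1 (Gm (zz q) (ww q)) ≠ 0 := mul_ne_zero (pow_ne_zero _ g0) (pow_ne_zero _ g1)
  have n2 : pw 2 3 (Gm (zz q) (ww q)) ≠ 0 := mul_ne_zero (pow_ne_zero _ g0) (pow_ne_zero _ g1)
  field_simp
  norm_num

theorem t6_TT_left (q : ℂ × ℂ) (h : ‖q.2‖ ≤ ‖q.1‖) : TT q = mk0 (t6A q) := by
  unfold TT
  rw [if_pos h]
  rfl

theorem t6_TT_right (q : ℂ × ℂ) (hq : q ∈ ZZ) (h : ‖q.1‖ ≤ ‖q.2‖) : TT q = mk1 (t6B q) := by
  rcases eq_or_lt_of_le h with h' | h'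
  · rw [t6_TT_left q h'.ge, t6_agree q hq h']
  · unfold TT
    rw [if_neg (not_le.mpr h')]
    rfl

theorem t6_ph_fst_cont : ContinuousOn (fun q : ℂ × ℂ => ph q.1) {q | q.1 ≠ 0} :=
  ph_continuousOn.comp continuousOn_fst (fun _ h => h)

theorem t6_ph_snd_cont : ContinuousOn (fun q : ℂ × ℂ => ph q.2) {q | q.2 ≠ 0} :=
  ph_continuousOn.comp continuousOn_snd (fun _ h => h)

theorem t6_zz_cont : ContinuousOn zz {q | q.1 ≠ 0 ∧ q.2 ≠ 0} := by
  unfold zz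
  apply ContinuousOn.div
  · exact ((t6_ph_fst_cont.mono (fun _ h => h.1)).pow 3).neg
  · exact t6_ph_snd_cont.mono (fun _ h => h.2)
  · intro q hq
    exact t6_ph_ne_zero hq.2

theorem t6_ww_cont : ContinuousOn ww {q | q.1 ≠ 0 ∧ q.2 ≠ 0} := by
  unfold ww
  apply ContinuousOn.div
  · exact (t6_ph_snd_cont.mono (fun _ h => h.2)).neg
  · exact (t6_ph_fst_cont.mono (fun _ h => h.1)).pow 2
  · intro q hq
    exact pow_ne_zero 2 (t6_ph_ne_zero hq.1)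

theorem t6_maps : MapsTo (fun q : ℂ × ℂ => (zz q, ww q)) {q | q ∈ ZZ ∧ q.1 ≠ 0 ∧ q.2 ≠ 0}
    {q | ‖q.1‖ = 1 ∧ ‖q.2‖ = 1 ∧ ¬ (q.1 = -1 ∧ q.2 = 1)} := by
  intro q h
  obtain ⟨a1, a2, a3⟩ := h
  have h1 := t6_norm_zz a2 a3
  have h2 := t6_norm_ww a2 a3
  have h3 := t6_zz_ww_ne a1 a2 a3
  exact ⟨h1, h2, h3⟩

theorem t6_pair_cont : ContinuousOn (fun q : ℂ × ℂ => (zz q, ww q))
    {q | q ∈ ZZ ∧ q.1 ≠ 0 ∧ q.2 ≠ 0} :=
  (t6_zz_cont.mono (fun _ h => h.2)).prodMk (t6_ww_cont.mono (fun _ h => h.2))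

theorem t6_Gm_cont : ContinuousOn (fun q : ℂ × ℂ => Gm (zz q) (ww q))
    {q | q ∈ ZZ ∧ q.1 ≠ 0 ∧ q.2 ≠ 0} := by
  have h := ContinuousOn.comp (g := fun q : ℂ × ℂ => Gm q.1 q.2) Gm_continuousOn t6_pair_cont
    t6_maps
  exact h

theorem t6_sz_cont : ContinuousOn sz {q | q ≠ 0} := by
  unfold sz
  apply ContinuousOn.div
  · exact (continuous_norm.comp continuous_snd).continuousOn
  · exact ((continuous_norm.comp continuous_fst).add
      (continuous_norm.comp continuous_snd)).continuousOn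
  · intro q hq
    exact (t6_sum_pos hq).ne'

theorem t6A_cont : ContinuousOn t6A {q | q ∈ ZZ ∧ ‖q.2‖ ≤ ‖q.1‖} := by
  have key : ∀ q : ℂ × ℂ, q ∈ ({q | q ∈ ZZ ∧ ‖q.2‖ ≤ ‖q.1‖} : Set (ℂ × ℂ)) → 1 / 6 ≤ sz q →
      q ∈ ZZ ∧ q.1 ≠ 0 ∧ q.2 ≠ 0 := by
    intro q hq hs
    exact ⟨hq.1, t6_fst_ne hq.1 hq.2, t6_snd_ne_of_sz (lt_of_lt_of_le (by norm_num) hs)⟩
  apply SF_continuousOn {q | q ∈ ZZ ∧ ‖q.2‖ ≤ ‖q.1‖} 1 1 sz (fun q => ph q.1) zz ww
    (fun q => Gm (zz q) (ww q))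
  · exact t6_sz_cont.mono (fun q hq => hq.1.1)
  · exact t6_ph_fst_cont.mono (fun q hq => t6_fst_ne hq.1 hq.2)
  · exact t6_zz_cont.mono (fun q hq => (key q hq.1 hq.2).2)
  · exact t6_ww_cont.mono (fun q hq => (key q hq.1 hq.2).2)
  · exact t6_Gm_cont.mono (fun q hq => key q hq.1 hq.2)
  · intro q hq hs k k0 k1
    obtain ⟨a1, a2, a3⟩ := key q hq hs
    exact Gm_seg0 _ _ (t6_norm_zz a2 a3) (t6_norm_ww a2 a3) (t6_zz_ww_ne a1 a2 a3) k k0 k1
  · intro q hq hs k k0 k1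
    obtain ⟨a1, a2, a3⟩ := key q hq hs
    exact Gm_seg1 _ _ (t6_norm_zz a2 a3) (t6_norm_ww a2 a3) (t6_zz_ww_ne a1 a2 a3) k k0 k1
  · intro q hq hs
    obtain ⟨a1, a2, a3⟩ := key q hq hs.ge
    exact ⟨t6_norm_zz a2 a3, t6_norm_ww a2 a3, (t6_zz_mul_ww a2 a3).symm⟩

theorem t6B_cont : ContinuousOn t6B {q | q ∈ ZZ ∧ ‖q.1‖ ≤ ‖q.2‖} := by
  have key : ∀ q : ℂ × ℂ, q ∈ ({q | q ∈ ZZ ∧ ‖q.1‖ ≤ ‖q.2‖} : Set (ℂ × ℂ)) → 1 / 6 ≤ 1 - sz q →
      q ∈ ZZ ∧ q.1 ≠ 0 ∧ q.2 ≠ 0 := by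
    intro q hq hs
    exact ⟨hq.1, t6_fst_ne_of_sz hq.1.1 (lt_of_lt_of_le (by norm_num) hs), t6_snd_ne hq.1 hq.2⟩
  apply SF_continuousOn {q | q ∈ ZZ ∧ ‖q.1‖ ≤ ‖q.2‖} 2 3 (fun q => 1 - sz q)
    (fun q => - ph q.2) zz ww (fun q => Gm (zz q) (ww q))
  · exact continuousOn_const.sub (t6_sz_cont.mono (fun q hq => hq.1.1))
  · exact (t6_ph_snd_cont.mono (fun q hq => t6_snd_ne hq.1 hq.2)).neg
  · exact t6_zz_cont.mono (fun q hq => (key q hq.1 hq.2).2)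
  · exact t6_ww_cont.mono (fun q hq => (key q hq.1 hq.2).2)
  · exact t6_Gm_cont.mono (fun q hq => key q hq.1 hq.2)
  · intro q hq hs k k0 k1
    obtain ⟨a1, a2, a3⟩ := key q hq hs
    exact Gm_seg0 _ _ (t6_norm_zz a2 a3) (t6_norm_ww a2 a3) (t6_zz_ww_ne a1 a2 a3) k k0 k1
  · intro q hq hs k k0 k1
    obtain ⟨a1, a2, a3⟩ := key q hq hs
    exact Gm_seg1 _ _ (t6_norm_zz a2 a3) (t6_norm_ww a2 a3) (t6_zz_ww_ne a1 a2 a3) k k0 k1
  · intro q hq hs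
    obtain ⟨a1, a2, a3⟩ := key q hq hs.ge
    exact ⟨t6_norm_zz a2 a3, t6_norm_ww a2 a3, (t6_zz_sq_ww a2 a3).symm⟩

theorem TT_continuousOn : ContinuousOn TT ZZ := by
  have cA : ContinuousOn (fun q => mk0 (t6A q)) {q | q ∈ ZZ ∧ ‖q.2‖ ≤ ‖q.1‖} :=
    mk0_continuousOn.comp t6A_cont (fun q hq => t6A_mem q hq.1 hq.2)
  have cB : ContinuousOn (fun q => mk1 (t6B q)) {q | q ∈ ZZ ∧ ‖q.1‖ ≤ ‖q.2‖} :=
    mk1_continuousOn.comp t6B_cont (fun q hq => t6B_mem q hq.1 hq.2)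
  have cA' : ContinuousOn TT (ZZ ∩ {q | ‖q.2‖ ≤ ‖q.1‖}) :=
    cA.congr (fun q hq => t6_TT_left q hq.2)
  have cB' : ContinuousOn TT (ZZ ∩ {q | ‖q.1‖ ≤ ‖q.2‖}) :=
    cB.congr (fun q hq => t6_TT_right q hq.1 hq.2)
  have clA : IsClosed {q : ℂ × ℂ | ‖q.2‖ ≤ ‖q.1‖} :=
    isClosed_le (continuous_norm.comp continuous_snd) (continuous_norm.comp continuous_fst)
  have clB : IsClosed {q : ℂ × ℂ | ‖q.1‖ ≤ ‖q.2‖} :=
    isClosed_le (continuous_norm.comp continuous_fst) (continuous_norm.comp continuous_snd)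
  intro q hq
  have hA : ContinuousWithinAt TT (ZZ ∩ {q | ‖q.2‖ ≤ ‖q.1‖}) q := by
    by_cases h : ‖q.2‖ ≤ ‖q.1‖
    · exact cA' q ⟨hq, h⟩
    · apply continuousWithinAt_of_notMem_closure
      intro hcl
      exact h ((clA.closure_subset_iff.mpr inter_subset_right) hcl)
  have hB : ContinuousWithinAt TT (ZZ ∩ {q | ‖q.1‖ ≤ ‖q.2‖}) q := by
    by_cases h : ‖q.1‖ ≤ ‖q.2‖
    · exact cB' q ⟨hq, h⟩
    · apply continuousWithinAt_of_notMem_closure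
      intro hcl
      exact h ((clB.closure_subset_iff.mpr inter_subset_right) hcl)
  have hu := hA.union hB
  rw [← inter_union_distrib_left] at hu
  apply hu.mono
  intro x hx
  exact ⟨hx, (le_total ‖x.2‖ ‖x.1‖).imp id id⟩

/-! ### The map `FF` -/

theorem t6_surf {p : Fin 4 → ℂ} (hp' : p ∈ SurfSet) :
    p 0 * p 1 = 1 + p 2 ^ 2 * p 3 ^ 3 ∧ p 1 * p 3 = p 0 * p 2 - 1 := by
  obtain ⟨h1, h2⟩ := hp'
  simp [eqOne, eqTwo] at h1 h2
  constructor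
  · linear_combination h1
  · linear_combination -h2

theorem t6_surf0 {p : Fin 4 → ℂ} (hp' : p ∈ SurfSet) :
    p 0 * p 1 * (p 2 * p 3) = pw 1 1 (p 0 * p 2) := by
  obtain ⟨_, h2⟩ := t6_surf hp'
  unfold pw
  linear_combination (p 0 * p 2) * h2

theorem t6_surf1 {p : Fin 4 → ℂ} (hp' : p ∈ SurfSet) :
    (1 - p 0 * p 1) * (-(p 0 ^ 2 * p 1 ^ 3)) = pw 2 3 (p 0 * p 2) := by
  obtain ⟨h1, h2⟩ := t6_surf hp'
  unfold pw
  rw [← h2, h1]
  ring

theorem t6_RR_one (i j : ℕ) (p : ℂ × ℂ × ℂ) :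
    RR i j 1 p = (1 - ((mu p.1.re : ℝ) : ℂ)) * p.2.1 +
      ((mu p.1.re : ℝ) : ℂ) * (2 * pw i j p.2.2) := by
  unfold RR
  rw [Complex.ofReal_one]
  ring

theorem t6_RR_of_le (i j : ℕ) (p : ℂ × ℂ × ℂ) (h : 1 / 8 ≤ p.1.re) :
    RR i j 1 p = 2 * pw i j p.2.2 := by
  rw [t6_RR_one]
  have : mu p.1.re = 1 := t6_cl_of_one_le (by linarith)
  rw [this, Complex.ofReal_one]
  ring

theorem t6_ne_of_re {x : ℂ} (h : 0 < x.re) : x ≠ 0 := by
  rintro rfl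
  exact lt_irrefl _ h

theorem t6_RR0_ne {p : Fin 4 → ℂ} (hp' : p ∈ SurfSet) (h : (p 0 * p 1).re < 1) :
    RR 1 1 1 (co0 p) ≠ 0 := by
  rcases le_total (p 0 * p 1).re (1 / 2) with h1 | h1
  · exact RR_ne_zero 1 1 1 zero_le_one le_rfl _ (co0_mem p hp' h1)
  · have e : RR 1 1 1 (co0 p) = 2 * pw 1 1 (co0 p).2.2 :=
      t6_RR_of_le 1 1 (co0 p) (le_trans (by norm_num) h1)
    rw [e]
    have e2 : (co0 p).2.2 = p 0 * p 2 := rfl
    rw [e2, ← t6_surf0 hp']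
    have nx : p 0 * p 1 ≠ 0 := t6_ne_of_re (lt_of_lt_of_le (by norm_num) h1)
    have n1 : p 2 * p 3 ≠ 0 := by
      intro hh
      have h3 : p 0 * p 1 = 1 := by
        rw [(t6_surf hp').1]
        linear_combination (p 2 * p 3 * p 3) * hh
      rw [h3, Complex.one_re] at h
      exact lt_irrefl _ h
    exact mul_ne_zero two_ne_zero (mul_ne_zero nx n1)

theorem t6_RR1_ne {p : Fin 4 → ℂ} (hp' : p ∈ SurfSet) (h : 0 < (p 0 * p 1).re) :
    RR 2 3 1 (co1 p) ≠ 0 := by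
  rcases le_total (1 / 2) (p 0 * p 1).re with h1 | h1
  · exact RR_ne_zero 2 3 1 zero_le_one le_rfl _ (co1_mem p hp' h1)
  · have e0 : (co1 p).1.re = 1 - (p 0 * p 1).re := by
      unfold co1
      simp
    have e : RR 2 3 1 (co1 p) = 2 * pw 2 3 (co1 p).2.2 :=
      t6_RR_of_le 2 3 (co1 p) (by rw [e0]; linarith)
    rw [e]
    have e2 : (co1 p).2.2 = p 0 * p 2 := rfl
    rw [e2, ← t6_surf1 hp']
    have nx : p 0 * p 1 ≠ 0 := t6_ne_of_re h
    have n0 : p 0 ≠ 0 := left_ne_zero_of_mul nx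
    have n1 : p 1 ≠ 0 := right_ne_zero_of_mul nx
    have n2 : 1 - p 0 * p 1 ≠ 0 := by
      apply t6_ne_of_re
      rw [Complex.sub_re, Complex.one_re]
      linarith
    exact mul_ne_zero two_ne_zero (mul_ne_zero n2
      (neg_ne_zero.mpr (mul_ne_zero (pow_ne_zero _ n0) (pow_ne_zero _ n1))))

theorem t6_FF_fst (p : Fin 4 → ℂ) :
    (FF p).1 = ((1 - sr (p 0 * p 1).re : ℝ) : ℂ) * ph (RR 1 1 1 (co0 p)) := by
  unfold FF
  push_cast
  rfl

theorem t6_FF_snd (p : Fin 4 → ℂ) :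
    (FF p).2 = -(((sr (p 0 * p 1).re : ℝ) : ℂ) * ph (RR 2 3 1 (co1 p))) := rfl

theorem t6_norm_FF_fst {p : Fin 4 → ℂ} (hp' : p ∈ SurfSet) :
    ‖(FF p).1‖ = 1 - sr (p 0 * p 1).re := by
  have h0 := t6_sr_le_one (p 0 * p 1).re
  rw [t6_FF_fst, norm_mul, Complex.norm_real, Real.norm_of_nonneg (by linarith)]
  rcases eq_or_lt_of_le h0 with h1 | h1
  · rw [h1, sub_self, zero_mul]
  · rw [norm_ph (t6_RR0_ne hp' (lt_trans (t6_lt_of_sr_lt h1) (by norm_num))), mul_one]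

theorem t6_norm_FF_snd {p : Fin 4 → ℂ} (hp' : p ∈ SurfSet) :
    ‖(FF p).2‖ = sr (p 0 * p 1).re := by
  have h0 := t6_sr_nonneg (p 0 * p 1).re
  rw [t6_FF_snd, norm_neg, norm_mul, Complex.norm_real, Real.norm_of_nonneg h0]
  rcases eq_or_lt_of_le h0 with h1 | h1
  · rw [← h1, zero_mul]
  · rw [norm_ph (t6_RR1_ne hp' (lt_trans (by norm_num) (t6_lt_of_sr_pos h1))), mul_one]

theorem t6_sz_FF {p : Fin 4 → ℂ} (hp' : p ∈ SurfSet) : sz (FF p) = sr (p 0 * p 1).re := by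
  unfold sz
  rw [t6_norm_FF_fst hp', t6_norm_FF_snd hp']
  rw [sub_add_cancel, div_one]

theorem t6_FF_ne {p : Fin 4 → ℂ} (hp' : p ∈ SurfSet) : FF p ≠ 0 := by
  intro h
  have h1 := t6_norm_FF_fst hp'
  have h2 := t6_norm_FF_snd hp'
  rw [h] at h1 h2
  rw [Prod.fst_zero, norm_zero] at h1
  rw [Prod.snd_zero, norm_zero] at h2
  linarith

theorem t6_neg_of_mul {t : ℝ} (ht : 0 < t) {z : ℂ} (h1 : ((t : ℂ) * ph z).re < 0)
    (h2 : ((t : ℂ) * ph z).im = 0) : z.re < 0 ∧ z.im = 0 := by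
  rw [Complex.re_ofReal_mul] at h1
  rw [Complex.im_ofReal_mul] at h2
  have h3 : (ph z).re < 0 := by
    by_contra hc'
    have := mul_nonneg ht.le (not_lt.mp hc')
    linarith
  have h4 : (ph z).im = 0 := (mul_eq_zero.mp h2).resolve_left ht.ne'
  have hz : z ≠ 0 := by
    rintro rfl
    rw [t6_ph_zero] at h3
    exact lt_irrefl _ h3
  have h5 := norm_pos_iff.mpr hz
  have h6 := norm_mul_ph z
  constructor
  · rw [← h6, Complex.re_ofReal_mul]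
    exact mul_neg_of_pos_of_neg h5 h3
  · rw [← h6, Complex.im_ofReal_mul, h4, mul_zero]

theorem FF_mem (p : Fin 4 → ℂ) (hp' : p ∈ SurfSet) : FF p ∈ ZZ := by
  refine ⟨t6_FF_ne hp', ?_⟩
  rintro ⟨⟨r1, i1⟩, ⟨r2, i2⟩⟩
  have n1 : (FF p).1 ≠ 0 := by
    intro h
    rw [h] at r1
    exact lt_irrefl _ r1
  have n2 : (FF p).2 ≠ 0 := by
    intro h
    rw [h] at r2
    exact lt_irrefl _ r2
  have s1 : sr (p 0 * p 1).re < 1 := by
    have := norm_pos_iff.mpr n1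
    rw [t6_norm_FF_fst hp'] at this
    linarith
  have s2 : 0 < sr (p 0 * p 1).re := by
    have := norm_pos_iff.mpr n2
    rwa [t6_norm_FF_snd hp'] at this
  have x1 := t6_lt_of_sr_lt s1
  have x2 := t6_lt_of_sr_pos s2
  have e0 : (co1 p).1.re = 1 - (p 0 * p 1).re := by
    unfold co1
    simp
  have eR0 : RR 1 1 1 (co0 p) = 2 * pw 1 1 (p 0 * p 2) :=
    t6_RR_of_le 1 1 (co0 p) x2.le
  have eR1 : RR 2 3 1 (co1 p) = 2 * pw 2 3 (p 0 * p 2) :=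
    t6_RR_of_le 2 3 (co1 p) (by rw [e0]; linarith)
  rw [t6_FF_fst, eR0] at r1 i1
  obtain ⟨A1, A2⟩ := t6_neg_of_mul (sub_pos.mpr s1) r1 i1
  have e3 : (FF p).2 = ((sr (p 0 * p 1).re : ℝ) : ℂ) * ph (-(2 * pw 2 3 (p 0 * p 2))) := by
    rw [t6_FF_snd, eR1, t6_ph_neg]
    ring
  rw [e3] at r2 i2
  obtain ⟨B1, B2⟩ := t6_neg_of_mul s2 r2 i2
  generalize hy : p 0 * p 2 = y at *
  have A1' : (pw 1 1 y).re < 0 := by
    simp at A1
    linarith
  have A2' : (pw 1 1 y).im = 0 := by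
    simp at A2
    linarith
  have B1' : 0 < (pw 2 3 y).re := by
    simp at B1
    linarith
  have B2' : (pw 2 3 y).im = 0 := by
    simp at B2
    linarith
  have e4 : pw 2 3 y = pw 1 1 y ^ 2 * (y - 1) := by
    unfold pw
    ring
  have e5 : pw 1 1 y = (((pw 1 1 y).re : ℝ) : ℂ) :=
    Complex.ext rfl (by rw [A2', Complex.ofReal_im])
  have e6 : pw 2 3 y = (((pw 1 1 y).re ^ 2 : ℝ) : ℂ) * (y - 1) := by
    rw [e4]
    conv_lhs => rw [e5]
    push_cast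
    rfl
  have e7 : 0 < (pw 1 1 y).re ^ 2 := by nlinarith
  rw [e6, Complex.re_ofReal_mul] at B1'
  rw [e6, Complex.im_ofReal_mul] at B2'
  have y1 : 0 < (y - 1).re := by
    by_contra hc'
    have := mul_nonneg e7.le (neg_nonneg.mpr (not_lt.mp hc'))
    linarith
  have y2 : (y - 1).im = 0 := (mul_eq_zero.mp B2').resolve_left e7.ne'
  have e8 : (pw 1 1 y).re = y.re * (y - 1).re - y.im * (y - 1).im := by
    unfold pw
    rw [pow_one, pow_one, Complex.mul_re]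
  rw [e8, y2, mul_zero, sub_zero] at A1'
  have y3 : 1 < y.re := by
    rw [Complex.sub_re, Complex.one_re] at y1
    linarith
  have := mul_pos (lt_trans zero_lt_one y3) y1
  linarith

/-- A product `t * ph R` is continuous if `R ≠ 0` wherever `t ≠ 0`. -/
theorem t6_mul_ph_cont {W : Type*} [TopologicalSpace W] (S : Set W) (t : W → ℝ) (R : W → ℂ)
    (ht : ContinuousOn t S) (hR : ContinuousOn R S) (h : ∀ p ∈ S, t p ≠ 0 → R p ≠ 0) :
    ContinuousOn (fun p => ((t p : ℝ) : ℂ) * ph (R p)) S := by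
  intro p hp'
  by_cases h0 : R p = 0
  · have h1 : t p = 0 := by
      by_contra h1
      exact h p hp' h1 h0
    have h2 : Filter.Tendsto (fun p => ‖((t p : ℝ) : ℂ) * ph (R p)‖) (nhdsWithin p S)
        (nhds 0) := by
      apply squeeze_zero (g := fun p => ‖t p‖)
      · intro q
        exact norm_nonneg _
      · intro q
        rw [norm_mul, Complex.norm_real]
        exact mul_le_of_le_one_right (norm_nonneg _) (t6_norm_ph_le _)
      · have := (ht p hp').norm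
        unfold ContinuousWithinAt at this
        beta_reduce at this
        rw [h1, norm_zero] at this
        exact this
    unfold ContinuousWithinAt
    beta_reduce
    rw [h1, Complex.ofReal_zero, zero_mul]
    exact tendsto_zero_iff_norm_tendsto_zero.mpr h2
  · have h1 : ContinuousAt ph (R p) :=
      ph_continuousOn.continuousAt (isOpen_ne.mem_nhds h0)
    have h2 : ContinuousWithinAt (fun p => ph (R p)) S p := h1.comp_continuousWithinAt (hR p hp')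
    have h3 : ContinuousWithinAt (fun p => ((t p : ℝ) : ℂ)) S p :=
      Complex.continuous_ofReal.continuousAt.comp_continuousWithinAt (ht p hp')
    exact h3.mul h2

theorem t6_RR_cont (i j : ℕ) : Continuous (fun p : ℂ × ℂ × ℂ => RR i j 1 p) := by
  have h : (fun p : ℂ × ℂ × ℂ => RR i j 1 p) = fun p =>
      (1 - ((mu p.1.re : ℝ) : ℂ)) * p.2.1 +
      ((mu p.1.re : ℝ) : ℂ) * (2 * pw i j p.2.2) := by
    funext p
    exact t6_RR_one i j p
  rw [h]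
  have h1 : Continuous (fun p : ℂ × ℂ × ℂ => ((mu p.1.re : ℝ) : ℂ)) :=
    Complex.continuous_ofReal.comp
      (t6_continuous_mu.comp (Complex.continuous_re.comp continuous_fst))
  unfold pw
  fun_prop

theorem t6_co0_cont : Continuous co0 := by
  unfold co0
  fun_prop

theorem t6_co1_cont : Continuous co1 := by
  unfold co1
  fun_prop

theorem FF_continuousOn : ContinuousOn FF SurfSet := by
  have hs : Continuous (fun p : Fin 4 → ℂ => sr (p 0 * p 1).re) :=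
    t6_continuous_sr.comp (by fun_prop)
  have h1 : ContinuousOn (fun p => (FF p).1) SurfSet := by
    have := t6_mul_ph_cont SurfSet (fun p => 1 - sr (p 0 * p 1).re)
      (fun p => RR 1 1 1 (co0 p)) (continuous_const.sub hs).continuousOn
      ((t6_RR_cont 1 1).comp t6_co0_cont).continuousOn ?_
    · refine this.congr ?_
      intro p _
      exact t6_FF_fst p
    · intro p hp' ht
      apply t6_RR0_ne hp'
      have h0 := t6_sr_le_one (p 0 * p 1).re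
      have h1 : sr (p 0 * p 1).re < 1 := lt_of_le_of_ne h0 (fun h => ht (sub_eq_zero.mpr h.symm))
      exact lt_trans (t6_lt_of_sr_lt h1) (by norm_num)
  have h2 : ContinuousOn (fun p => (FF p).2) SurfSet := by
    have := t6_mul_ph_cont SurfSet (fun p => sr (p 0 * p 1).re)
      (fun p => RR 2 3 1 (co1 p)) hs.continuousOn
      ((t6_RR_cont 2 3).comp t6_co1_cont).continuousOn ?_
    · refine this.neg.congr ?_
      intro p _
      exact t6_FF_snd p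
    · intro p hp' ht
      apply t6_RR1_ne hp'
      have h1 : 0 < sr (p 0 * p 1).re := lt_of_le_of_ne (t6_sr_nonneg _) (Ne.symm ht)
      exact lt_trans (by norm_num) (t6_lt_of_sr_pos h1)
  exact h1.prodMk h2

/-! ### The composition -/

theorem t6_phases {p : Fin 4 → ℂ} (hp' : p ∈ SurfSet) (h1 : 1 / 8 < (p 0 * p 1).re)
    (h2 : (p 0 * p 1).re < 7 / 8) (s0 : 0 < sr (p 0 * p 1).re) (s1 : sr (p 0 * p 1).re < 1) :
    zz (FF p) = ph (p 0 * p 2) ∧ ww (FF p) = ph (p 0 * p 2 - 1) := by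
  have e0 : (co1 p).1.re = 1 - (p 0 * p 1).re := by
    unfold co1
    simp
  have eR0 : RR 1 1 1 (co0 p) = 2 * pw 1 1 (p 0 * p 2) :=
    t6_RR_of_le 1 1 (co0 p) h1.le
  have eR1 : RR 2 3 1 (co1 p) = 2 * pw 2 3 (p 0 * p 2) :=
    t6_RR_of_le 2 3 (co1 p) (by rw [e0]; linarith)
  have N0 : RR 1 1 1 (co0 p) ≠ 0 := t6_RR0_ne hp' (by linarith)
  have N1 : RR 2 3 1 (co1 p) ≠ 0 := t6_RR1_ne hp' (by linarith)
  have E0 : ph (FF p).1 = ph (p 0 * p 2) ^ 1 * ph (p 0 * p 2 - 1) ^ 1 := by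
    rw [t6_FF_fst, ph_real_mul (sub_pos.mpr s1), t6_ph_ph N0, eR0, ← t6_ph_pw]
    exact_mod_cast ph_real_mul two_pos (pw 1 1 (p 0 * p 2))
  have E1 : ph (FF p).2 = - (ph (p 0 * p 2) ^ 2 * ph (p 0 * p 2 - 1) ^ 3) := by
    rw [t6_FF_snd, t6_ph_neg, ph_real_mul s0, t6_ph_ph N1, eR1, ← t6_ph_pw]
    exact_mod_cast congrArg Neg.neg (ph_real_mul two_pos (pw 2 3 (p 0 * p 2)))
  rw [eR0] at N0
  have N2 : pw 1 1 (p 0 * p 2) ≠ 0 := right_ne_zero_of_mul N0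
  unfold pw at N2
  rw [pow_one, pow_one] at N2
  have N3 := t6_ph_ne_zero (left_ne_zero_of_mul N2)
  have N4 := t6_ph_ne_zero (right_ne_zero_of_mul N2)
  constructor
  · unfold zz
    rw [E0, E1]
    field_simp
  · unfold ww
    rw [E0, E1]
    field_simp

theorem t6_SF_small (i j : ℕ) {s : ℝ} (hs : s ≤ 1 / 6) (u z w v z' w' v' : ℂ) :
    SF i j s u z w v = SF i j s u z' w' v' := by
  unfold SF
  rw [if_pos hs, if_pos hs]

theorem TT_FF_left (p : Fin 4 → ℂ) (hp' : p ∈ SurfSet) (h : (p 0 * p 1).re ≤ 1 / 2) :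
    TT (FF p) = mk0 (stepD 1 1 (1, co0 p)) := by
  have s1 := t6_sr_le_half h
  rw [t6_TT_left (FF p) (by rw [t6_norm_FF_fst hp', t6_norm_FF_snd hp']; linarith)]
  congr 1
  unfold t6A stepD
  have e1 : (1 - (((1 : ℝ), co0 p).1 : ℂ)) * ((1 : ℝ), co0 p).2.2.2 + (((1 : ℝ), co0 p).1 : ℂ) *
      Gm (ph ((1 : ℝ), co0 p).2.2.2) (ph (((1 : ℝ), co0 p).2.2.2 - 1)) =
      Gm (ph (p 0 * p 2)) (ph (p 0 * p 2 - 1)) := by
    simp [co0]
  rw [e1, t6_sz_FF hp']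
  have N0 : RR 1 1 1 (co0 p) ≠ 0 := t6_RR0_ne hp' (by linarith)
  have E0 : ph (FF p).1 = ph (RR 1 1 1 (co0 p)) := by
    rw [t6_FF_fst, ph_real_mul (by linarith), t6_ph_ph N0]
  rw [E0]
  rcases le_or_gt (sr (p 0 * p 1).re) (1 / 6) with h6 | h6
  · exact t6_SF_small 1 1 h6 _ _ _ _ _ _ _
  · have x2 := t6_lt_of_sr_pos (lt_trans (by norm_num) h6)
    obtain ⟨z1, w1⟩ := t6_phases hp' x2 (by linarith) (lt_trans (by norm_num) h6) (by linarith)
    rw [z1, w1]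
    rfl

theorem TT_FF_right (p : Fin 4 → ℂ) (hp' : p ∈ SurfSet) (h : 1 / 2 ≤ (p 0 * p 1).re) :
    TT (FF p) = mk1 (stepD 2 3 (1, co1 p)) := by
  have s1 := t6_half_le_sr h
  rw [t6_TT_right (FF p) (FF_mem p hp')
    (by rw [t6_norm_FF_fst hp', t6_norm_FF_snd hp']; linarith)]
  congr 1
  unfold t6B stepD
  have e1 : (1 - (((1 : ℝ), co1 p).1 : ℂ)) * ((1 : ℝ), co1 p).2.2.2 + (((1 : ℝ), co1 p).1 : ℂ) *
      Gm (ph ((1 : ℝ), co1 p).2.2.2) (ph (((1 : ℝ), co1 p).2.2.2 - 1)) =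
      Gm (ph (p 0 * p 2)) (ph (p 0 * p 2 - 1)) := by
    simp [co1]
  have e0 : (((1 : ℝ), co1 p).2.1).re = 1 - (p 0 * p 1).re := by
    unfold co1
    simp
  rw [e1, t6_sz_FF hp', e0, t6_sr_one_sub]
  have N1 : RR 2 3 1 (co1 p) ≠ 0 := t6_RR1_ne hp' (by linarith)
  have E0 : - ph (FF p).2 = ph (RR 2 3 1 (co1 p)) := by
    rw [t6_FF_snd, t6_ph_neg, ph_real_mul (by linarith), t6_ph_ph N1, neg_neg]
  rw [E0]
  rcases le_or_gt (1 - sr (p 0 * p 1).re) (1 / 6) with h6 | h6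
  · exact t6_SF_small 2 3 h6 _ _ _ _ _ _ _
  · have x2 := t6_lt_of_sr_lt (r := (p 0 * p 1).re) (by linarith)
    obtain ⟨z1, w1⟩ := t6_phases hp' (by linarith) x2 (by linarith) (by linarith)
    rw [z1, w1]
    rfl

end Pool.Agent.H90.CS
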