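import Mathlib
import Pool.Agent.H90.CS.T3
import Pool.Agent.H90.CS.T4
import Pool.Agent.H90.CS.T5
import Pool.Agent.H90.CS.T6

/-!
# The surface is contractible
-/

set_option autoImplicit false

namespace Pool.Agent.H90.CS
open Set

theorem relx_pw {p : Fin 4 → ℂ} (hp' : p ∈ SurfSet) :
    p 0 * p 1 - p 2 ^ 2 * p 3 ^ 3 = 1 ∧ p 0 * p 2 - p 1 * p 3 = 1 := by
  obtain ⟨h1, h2⟩ := hp'
  simp only [eqOne, eqTwo, map_sub, map_mul, map_pow, MvPolynomial.eval_X, map_one] at h1 h2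
  exact ⟨by linear_combination h1, by linear_combination h2⟩

/-- On `Re x = 1 / 2` the two halves of the first homotopy agree. -/
theorem agree_A (k : ℝ) (hk : k ∈ Icc (0 : ℝ) 1) (p : Fin 4 → ℂ) (hp' : p ∈ SurfSet)
    (h : (p 0 * p 1).re = 1 / 2) :
    mk0 (stepA 1 1 (k, co0 p)) = mk1 (stepA 2 3 (k, co1 p)) := by
  have c0 := co0_mem p hp' h.le
  have c1 := co1_mem p hp' h.ge
  have r0 : (co0 p).1.re = 1 / 2 := h
  have r1 : (co1 p).1.re = 1 / 2 := by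
    show (1 - p 0 * p 1).re = 1 / 2
    rw [Complex.sub_re, h, Complex.one_re]; norm_num
  have m0 := stepA_mem 1 1 le_rfl le_rfl (k, co0 p) ⟨hk, c0⟩
  have m1 := stepA_mem 2 3 (by norm_num) (by norm_num) (k, co1 p) ⟨hk, c1⟩
  rw [stepA_half 1 1 k _ c0 r0] at m0 ⊢
  rw [stepA_half 2 3 k _ c1 r1] at m1 ⊢
  have e : (co1 p).2.2 = (co0 p).2.2 := rfl
  rw [e] at m1 ⊢
  refine mk_agree _ _ _ m0 m1 ?_
  have n0 : pw 1 1 (co0 p).2.2 ≠ 0 := fun hz => m0.1 (by simp [hz])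
  have n1 : pw 2 3 (co0 p).2.2 ≠ 0 := fun hz => m1.1 (by simp [hz])
  have z0 : (1 - (k : ℂ)) * (co0 p).1 + (k : ℂ) / 2 ≠ 0 := by
    intro hz; exact m0.1 (by simp only [hz, div_zero])
  have z1 : (1 - (k : ℂ)) * (co1 p).1 + (k : ℂ) / 2 ≠ 0 := by
    intro hz; exact m1.1 (by simp only [hz, div_zero])
  rw [div_div_cancel₀ n0, div_div_cancel₀ n1]
  show (1 - (k : ℂ)) * (p 0 * p 1) + (k : ℂ) / 2 + ((1 - (k : ℂ)) * (1 - p 0 * p 1) + (k : ℂ) / 2) = 1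
  ring

theorem agree_two (v : ℂ) (m0 : (2 * pw 1 1 v, v) ∈ DD 1 1) (m1 : (2 * pw 2 3 v, v) ∈ DD 2 3) :
    mk0 (2 * pw 1 1 v, v) = mk1 (2 * pw 2 3 v, v) := by
  refine mk_agree _ _ _ m0 m1 ?_
  have n0 : pw 1 1 v ≠ 0 := fun hz => m0.1 (by simp [hz])
  have n1 : pw 2 3 v ≠ 0 := fun hz => m1.1 (by simp [hz])
  field_simp
  norm_num

theorem agree_B (k : ℝ) (hk : k ∈ Icc (0 : ℝ) 1) (p : Fin 4 → ℂ) (hp' : p ∈ SurfSet)
    (h : (p 0 * p 1).re = 1 / 2) :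
    mk0 (stepB 1 1 (k, co0 p)) = mk1 (stepB 2 3 (k, co1 p)) := by
  have c0 := co0_mem p hp' h.le
  have c1 := co1_mem p hp' h.ge
  have r0 : (co0 p).1.re = 1 / 2 := h
  have r1 : (co1 p).1.re = 1 / 2 := by
    show (1 - p 0 * p 1).re = 1 / 2
    rw [Complex.sub_re, h, Complex.one_re]; norm_num
  have m0 := stepB_mem 1 1 le_rfl le_rfl (by norm_num) (k, co0 p) ⟨hk, c0⟩
  have m1 := stepB_mem 2 3 (by norm_num) (by norm_num) (by norm_num) (k, co1 p) ⟨hk, c1⟩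
  rw [stepB_half 1 1 k _ c0 r0] at m0 ⊢
  rw [stepB_half 2 3 k _ c1 r1] at m1 ⊢
  exact agree_two _ m0 m1

theorem agree_C (k : ℝ) (hk : k ∈ Icc (0 : ℝ) 1) (p : Fin 4 → ℂ) (hp' : p ∈ SurfSet)
    (h : (p 0 * p 1).re = 1 / 2) :
    mk0 (stepC 1 1 (k, co0 p)) = mk1 (stepC 2 3 (k, co1 p)) := by
  have c0 := co0_mem p hp' h.le
  have c1 := co1_mem p hp' h.ge
  have r0 : (co0 p).1.re = 1 / 2 := h
  have r1 : (co1 p).1.re = 1 / 2 := by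
    show (1 - p 0 * p 1).re = 1 / 2
    rw [Complex.sub_re, h, Complex.one_re]; norm_num
  have m0 := stepC_mem 1 1 le_rfl le_rfl (by norm_num) (k, co0 p) ⟨hk, c0⟩
  have m1 := stepC_mem 2 3 (by norm_num) (by norm_num) (by norm_num) (k, co1 p) ⟨hk, c1⟩
  rw [stepC_half 1 1 k _ c0 r0] at m0 ⊢
  rw [stepC_half 2 3 k _ c1 r1] at m1 ⊢
  exact agree_two _ m0 m1

theorem agree_D (k : ℝ) (hk : k ∈ Icc (0 : ℝ) 1) (p : Fin 4 → ℂ) (hp' : p ∈ SurfSet)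
    (h : (p 0 * p 1).re = 1 / 2) :
    mk0 (stepD 1 1 (k, co0 p)) = mk1 (stepD 2 3 (k, co1 p)) := by
  have c0 := co0_mem p hp' h.le
  have c1 := co1_mem p hp' h.ge
  have r0 : (co0 p).1.re = 1 / 2 := h
  have r1 : (co1 p).1.re = 1 / 2 := by
    show (1 - p 0 * p 1).re = 1 / 2
    rw [Complex.sub_re, h, Complex.one_re]; norm_num
  have m0 := stepD_mem 1 1 le_rfl le_rfl (by norm_num) (k, co0 p) ⟨hk, c0⟩
  have m1 := stepD_mem 2 3 (by norm_num) (by norm_num) (by norm_num) (k, co1 p) ⟨hk, c1⟩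
  rw [stepD_half 1 1 k _ c0 r0] at m0 ⊢
  rw [stepD_half 2 3 k _ c1 r1] at m1 ⊢
  exact agree_two _ m0 m1

/-- Chaining two glued homotopies. -/
theorem glue_step (fL fR : ℝ × (ℂ × ℂ × ℂ) → ℂ × ℂ)
    (cL : ContinuousOn fL (Icc (0 : ℝ) 1 ×ˢ HH 1 1))
    (cR : ContinuousOn fR (Icc (0 : ℝ) 1 ×ˢ HH 2 3))
    (mL : ∀ q ∈ Icc (0 : ℝ) 1 ×ˢ HH 1 1, fL q ∈ DD 1 1)
    (mR : ∀ q ∈ Icc (0 : ℝ) 1 ×ˢ HH 2 3, fR q ∈ DD 2 3)
    (hag : ∀ k ∈ Icc (0 : ℝ) 1, ∀ p ∈ SurfSet, (p 0 * p 1).re = 1 / 2 →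
      mk0 (fL (k, co0 p)) = mk1 (fR (k, co1 p)))
    (f g : C(SurfSet, SurfSet))
    (f0 : ∀ p : SurfSet, (p.1 0 * p.1 1).re ≤ 1 / 2 → (f p).1 = mk0 (fL (0, co0 p.1)))
    (f1 : ∀ p : SurfSet, 1 / 2 ≤ (p.1 0 * p.1 1).re → (f p).1 = mk1 (fR (0, co1 p.1)))
    (g0 : ∀ p : SurfSet, (p.1 0 * p.1 1).re ≤ 1 / 2 → (g p).1 = mk0 (fL (1, co0 p.1)))
    (g1 : ∀ p : SurfSet, 1 / 2 ≤ (p.1 0 * p.1 1).re → (g p).1 = mk1 (fR (1, co1 p.1))) :
    f.Homotopic g := by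
  obtain ⟨H, hH⟩ := glue fL fR cL cR mL mR hag
  refine ⟨⟨H, ?_, ?_⟩⟩
  · intro p
    apply Subtype.ext
    rcases le_total (p.1 0 * p.1 1).re (1 / 2) with h | h
    · have := (hH 0 p).1 h
      rw [f0 p h]
      simpa using this
    · have := (hH 0 p).2 h
      rw [f1 p h]
      simpa using this
  · intro p
    apply Subtype.ext
    rcases le_total (p.1 0 * p.1 1).re (1 / 2) with h | h
    · have := (hH 1 p).1 h
      rw [g0 p h]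
      simpa using this
    · have := (hH 1 p).2 h
      rw [g1 p h]
      simpa using this

/-- The value of a glued homotopy at a time. -/
theorem glue_at (fL fR : ℝ × (ℂ × ℂ × ℂ) → ℂ × ℂ)
    (cL : ContinuousOn fL (Icc (0 : ℝ) 1 ×ˢ HH 1 1))
    (cR : ContinuousOn fR (Icc (0 : ℝ) 1 ×ˢ HH 2 3))
    (mL : ∀ q ∈ Icc (0 : ℝ) 1 ×ˢ HH 1 1, fL q ∈ DD 1 1)
    (mR : ∀ q ∈ Icc (0 : ℝ) 1 ×ˢ HH 2 3, fR q ∈ DD 2 3)
    (hag : ∀ k ∈ Icc (0 : ℝ) 1, ∀ p ∈ SurfSet, (p 0 * p 1).re = 1 / 2 →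
      mk0 (fL (k, co0 p)) = mk1 (fR (k, co1 p))) :
    ∃ g : C(SurfSet, SurfSet), ∀ p : SurfSet,
      ((p.1 0 * p.1 1).re ≤ 1 / 2 → (g p).1 = mk0 (fL (1, co0 p.1))) ∧
      (1 / 2 ≤ (p.1 0 * p.1 1).re → (g p).1 = mk1 (fR (1, co1 p.1))) := by
  obtain ⟨H, hH⟩ := glue fL fR cL cR mL mR hag
  refine ⟨⟨fun p => H (1, p), by fun_prop⟩, fun p => ⟨fun h => ?_, fun h => ?_⟩⟩
  · have := (hH 1 p).1 h
    simpa using this
  · have := (hH 1 p).2 h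
    simpa using this

/-- The composite `TT ∘ FF` as a self map of the surface. -/
noncomputable def tf : C(SurfSet, SurfSet) where
  toFun p := ⟨TT (FF p.1), TT_mem _ (FF_mem _ p.2)⟩
  continuous_toFun := by
    refine Continuous.subtype_mk ?_ _
    have hF : Continuous fun p : SurfSet => FF p.1 :=
      continuousOn_iff_continuous_domRestrict.mp FF_continuousOn
    exact TT_continuousOn.comp_continuous hF fun p => FF_mem _ p.2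

theorem ZZ_center : ((1, 1) : ℂ × ℂ) ∈ ZZ := by
  refine ⟨by simp, ?_⟩
  rintro ⟨⟨h, -⟩, -⟩
  norm_num at h

/-- `TT ∘ FF` is null-homotopic since it factors through a star-shaped set. -/
theorem tf_null : tf.Nullhomotopic := by
  have hF : Continuous fun p : SurfSet => FF p.1 :=
    continuousOn_iff_continuous_domRestrict.mp FF_continuousOn
  have hmem : ∀ q : unitInterval × SurfSet,
      (1 - (q.1 : ℝ)) • ((1, 1) : ℂ × ℂ) + (q.1 : ℝ) • FF q.2.1 ∈ ZZ := by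
    intro q
    exact ZZ_starConvex (FF_mem _ q.2.2) (by linarith [q.1.2.2]) q.1.2.1 (by ring)
  refine ⟨⟨TT (1, 1), TT_mem _ ZZ_center⟩, ContinuousMap.Homotopic.symm ⟨⟨⟨fun q =>
    ⟨TT ((1 - (q.1 : ℝ)) • ((1, 1) : ℂ × ℂ) + (q.1 : ℝ) • FF q.2.1), TT_mem _ (hmem q)⟩, ?_⟩,
    ?_, ?_⟩⟩⟩
  · refine Continuous.subtype_mk ?_ _
    refine TT_continuousOn.comp_continuous ?_ hmem
    have h2 : Continuous fun q : unitInterval × SurfSet => FF q.2.1 := hF.comp continuous_snd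
    fun_prop
  · intro p
    apply Subtype.ext
    simp
  · intro p
    apply Subtype.ext
    simp [tf]

theorem contractible_surf : ContractibleSpace SurfSet := by
  rw [contractible_iff_id_nullhomotopic]
  have mA0 : ∀ q ∈ Icc (0 : ℝ) 1 ×ˢ HH 1 1, stepA 1 1 q ∈ DD 1 1 :=
    fun q hq => stepA_mem 1 1 le_rfl le_rfl q hq
  have mA1 : ∀ q ∈ Icc (0 : ℝ) 1 ×ˢ HH 2 3, stepA 2 3 q ∈ DD 2 3 :=
    fun q hq => stepA_mem 2 3 (by norm_num) (by norm_num) q hq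
  have mB0 : ∀ q ∈ Icc (0 : ℝ) 1 ×ˢ HH 1 1, stepB 1 1 q ∈ DD 1 1 :=
    fun q hq => stepB_mem 1 1 le_rfl le_rfl (by norm_num) q hq
  have mB1 : ∀ q ∈ Icc (0 : ℝ) 1 ×ˢ HH 2 3, stepB 2 3 q ∈ DD 2 3 :=
    fun q hq => stepB_mem 2 3 (by norm_num) (by norm_num) (by norm_num) q hq
  have mC0 : ∀ q ∈ Icc (0 : ℝ) 1 ×ˢ HH 1 1, stepC 1 1 q ∈ DD 1 1 :=
    fun q hq => stepC_mem 1 1 le_rfl le_rfl (by norm_num) q hq
  have mC1 : ∀ q ∈ Icc (0 : ℝ) 1 ×ˢ HH 2 3, stepC 2 3 q ∈ DD 2 3 :=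
    fun q hq => stepC_mem 2 3 (by norm_num) (by norm_num) (by norm_num) q hq
  have mD0 : ∀ q ∈ Icc (0 : ℝ) 1 ×ˢ HH 1 1, stepD 1 1 q ∈ DD 1 1 :=
    fun q hq => stepD_mem 1 1 le_rfl le_rfl (by norm_num) q hq
  have mD1 : ∀ q ∈ Icc (0 : ℝ) 1 ×ˢ HH 2 3, stepD 2 3 q ∈ DD 2 3 :=
    fun q hq => stepD_mem 2 3 (by norm_num) (by norm_num) (by norm_num) q hq
  obtain ⟨gA, hA⟩ := glue_at _ _ (stepA_continuousOn 1 1) (stepA_continuousOn 2 3) mA0 mA1 agree_A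
  obtain ⟨gB, hB⟩ := glue_at _ _ (stepB_continuousOn 1 1) (stepB_continuousOn 2 3) mB0 mB1 agree_B
  obtain ⟨gC, hC⟩ := glue_at _ _ (stepC_continuousOn 1 1) (stepC_continuousOn 2 3) mC0 mC1 agree_C
  have HA : (ContinuousMap.id SurfSet).Homotopic gA := by
    refine glue_step _ _ (stepA_continuousOn 1 1) (stepA_continuousOn 2 3) mA0 mA1 agree_A _ _
      (fun p h => ?_) (fun p h => ?_) (fun p h => (hA p).1 h) (fun p h => (hA p).2 h)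
    · rw [stepA_zero 1 1 _ (co0_mem _ p.2 h), mk0_co0 _ p.2 h]; rfl
    · rw [stepA_zero 2 3 _ (co1_mem _ p.2 h), mk1_co1 _ p.2 h]; rfl
  have HB : gA.Homotopic gB := by
    refine glue_step _ _ (stepB_continuousOn 1 1) (stepB_continuousOn 2 3) mB0 mB1 agree_B _ _
      (fun p h => ?_) (fun p h => ?_) (fun p h => (hB p).1 h) (fun p h => (hB p).2 h)
    · rw [(hA p).1 h, stepA_one 1 1 _ (co0_mem _ p.2 h)]
    · rw [(hA p).2 h, stepA_one 2 3 _ (co1_mem _ p.2 h)]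
  have HC : gB.Homotopic gC := by
    refine glue_step _ _ (stepC_continuousOn 1 1) (stepC_continuousOn 2 3) mC0 mC1 agree_C _ _
      (fun p h => ?_) (fun p h => ?_) (fun p h => (hC p).1 h) (fun p h => (hC p).2 h)
    · rw [(hB p).1 h, stepB_one 1 1 _ (co0_mem _ p.2 h)]
    · rw [(hB p).2 h, stepB_one 2 3 _ (co1_mem _ p.2 h)]
  have HD : gC.Homotopic tf := by
    refine glue_step _ _ (stepD_continuousOn 1 1 le_rfl le_rfl)
      (stepD_continuousOn 2 3 (by norm_num) (by norm_num)) mD0 mD1 agree_D _ _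
      (fun p h => ?_) (fun p h => ?_) (fun p h => ?_) (fun p h => ?_)
    · rw [(hC p).1 h, stepC_one 1 1 le_rfl le_rfl _ (co0_mem _ p.2 h)]
    · rw [(hC p).2 h, stepC_one 2 3 (by norm_num) (by norm_num) _ (co1_mem _ p.2 h)]
    · exact TT_FF_left _ p.2 h
    · exact TT_FF_right _ p.2 h
  obtain ⟨y, hy⟩ := tf_null
  exact ⟨y, HA.trans (HB.trans (HC.trans (HD.trans hy)))⟩

end Pool.Agent.H90.CS
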